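import Pool.Agent.Helper5.CR.M1

open Equiv Equiv.Perm

namespace Helper5.CR

section M2
set_option linter.unusedSectionVars false
variable {D : Type} [Fintype D] [DecidableEq D]

/-- explicit form of adding one pair to a setoid -/
def pairSup (r : Setoid D) (x y : D) : Setoid D where
  r a b := r a b ∨ (r a x ∧ r b y) ∨ (r a y ∧ r b x)
  iseqv := by
    refine ⟨fun a => Or.inl (r.refl a), ?_, ?_⟩
    · rintro a b (h | h | h)
      · exact Or.inl (r.symm h)
      · exact Or.inr (Or.inr ⟨h.2, h.1⟩)
      · exact Or.inr (Or.inl ⟨h.2, h.1⟩)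
    · rintro a b c (h | h | h) (h' | h' | h')
      · exact Or.inl (r.trans h h')
      · exact Or.inr (Or.inl ⟨r.trans h h'.1, h'.2⟩)
      · exact Or.inr (Or.inr ⟨r.trans h h'.1, h'.2⟩)
      · exact Or.inr (Or.inl ⟨h.1, r.trans (r.symm h') h.2⟩)
      · exact Or.inr (Or.inl ⟨h.1, h'.2⟩)
      · exact Or.inl (r.trans h.1 (r.symm h'.2))
      · exact Or.inr (Or.inr ⟨h.1, r.trans (r.symm h') h.2⟩)
      · exact Or.inl (r.trans h.1 (r.symm h'.2))
      · exact Or.inr (Or.inr ⟨h.1, h'.2⟩)

theorem pairSup_iff (r : Setoid D) (x y a b : D) :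
    pairSup r x y a b ↔ r a b ∨ (r a x ∧ r b y) ∨ (r a y ∧ r b x) := Iff.rfl

theorem le_pairSup (r : Setoid D) (x y : D) : r ≤ pairSup r x y := fun _ _ h => Or.inl h

theorem pairSup_self (r : Setoid D) (x y : D) : pairSup r x y x y :=
  Or.inr (Or.inl ⟨r.refl x, r.refl y⟩)

theorem pairSup_le {r s : Setoid D} {x y : D} (h : r ≤ s) (hxy : s x y) : pairSup r x y ≤ s := by
  rintro a b (hab | ⟨h1, h2⟩ | ⟨h1, h2⟩)
  · exact h hab
  · exact s.trans (h h1) (s.trans hxy (s.symm (h h2)))
  · exact s.trans (h h1) (s.trans (s.symm hxy) (s.symm (h h2)))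

theorem pairSup_eq_of_rel {r : Setoid D} {x y : D} (h : r x y) : pairSup r x y = r :=
  le_antisymm (pairSup_le le_rfl h) (le_pairSup r x y)

theorem card_pairSup {r : Setoid D} {x y : D} (h : ¬ r x y) :
    Nat.card (Quotient (pairSup r x y)) + 1 = Nat.card (Quotient r) :=
  card_quotient_sup_pair r (pairSup r x y) x y h (fun _ _ => Iff.rfl)

theorem setoid_mul_swap {π : Perm D} {x y : D} (h : ¬ π.SameCycle x y) :
    SameCycle.setoid (π * swap x y) = pairSup (SameCycle.setoid π) x y := by
  ext a b
  exact sameCycle_mul_swap h a b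

theorem comp_mul_swap {σ α : Perm D} {x y : D} (h : ¬ σ.SameCycle x y) :
    comp (σ * swap x y) α = pairSup (comp σ α) x y := by
  unfold comp
  rw [setoid_mul_swap h]
  apply le_antisymm
  · refine sup_le (pairSup_le (le_trans le_sup_left (le_pairSup _ _ _)) (pairSup_self _ _ _))
      (le_trans le_sup_right (le_pairSup _ _ _))
  · refine pairSup_le (sup_le (le_trans (le_pairSup _ _ _) le_sup_left) le_sup_right) ?_
    exact (le_sup_left : _ ≤ pairSup (SameCycle.setoid σ) x y ⊔ SameCycle.setoid α)
      (pairSup_self _ _ _)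

theorem comp_of_sigma {σ α : Perm D} {a b : D} (h : σ.SameCycle a b) : comp σ α a b :=
  (le_sup_left : SameCycle.setoid σ ≤ comp σ α) h

theorem comp_of_alpha {σ α : Perm D} {a b : D} (h : α.SameCycle a b) : comp σ α a b :=
  (le_sup_right : SameCycle.setoid α ≤ comp σ α) h

theorem comp_of_phi {σ α : Perm D} {a b : D} (h : (σ * α).SameCycle a b) : comp σ α a b := by
  refine sameCycle_of_forall (comp σ α) ?_ h
  intro a
  have h1 : comp σ α a (α a) := comp_of_alpha ⟨1, by simp⟩
  have h2 : comp σ α (α a) (σ (α a)) := comp_of_sigma ⟨1, by simp⟩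
  exact (comp σ α).trans h1 (by simpa using h2)

theorem phi_swap (σ α : Perm D) (x y : D) :
    σ * swap x y * α = σ * α * swap (α⁻¹ x) (α⁻¹ y) := by
  have := Equiv.mul_swap_eq_swap_mul α (α⁻¹ x) (α⁻¹ y)
  rw [mul_assoc σ α, this]
  simp [mul_assoc]

theorem comp_alpha_inv {σ α : Perm D} (x y : D) : comp σ α (α⁻¹ x) (α⁻¹ y) ↔ comp σ α x y := by
  have h1 : ∀ a, comp σ α (α⁻¹ a) a := fun a => comp_of_alpha ⟨1, by simp⟩
  exact ⟨fun h => (comp σ α).trans ((comp σ α).symm (h1 x)) ((comp σ α).trans h (h1 y)),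
    fun h => (comp σ α).trans (h1 x) ((comp σ α).trans h ((comp σ α).symm (h1 y)))⟩

theorem nc_one : nc (1 : Perm D) = Nat.card D := by
  unfold nc
  refine (Nat.card_congr (Equiv.ofBijective (Quotient.mk (SameCycle.setoid (1 : Perm D))) ?_)).symm
  constructor
  · intro a b h
    have : (1 : Perm D).SameCycle a b := Quotient.exact h
    simpa using this
  · exact Quotient.mk_surjective

theorem nc_le (π : Perm D) : nc π ≤ Nat.card D :=
  Nat.card_le_card_of_surjective _ (Quotient.mk_surjective (s := SameCycle.setoid π))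

/-- the change of the Euler characteristic under a merge -/
theorem merge_formula {σ α : Perm D} {x y : D} (h : ¬ σ.SameCycle x y) :
    (comp σ α x y ∧ (σ * α).SameCycle (α⁻¹ x) (α⁻¹ y) ∧ nc (σ * swap x y) + 1 = nc σ ∧
      nc (σ * swap x y * α) = nc (σ * α) + 1 ∧ ncomp (σ * swap x y) α = ncomp σ α) ∨
    (comp σ α x y ∧ ¬ (σ * α).SameCycle (α⁻¹ x) (α⁻¹ y) ∧ nc (σ * swap x y) + 1 = nc σ ∧
      nc (σ * swap x y * α) + 1 = nc (σ * α) ∧ ncomp (σ * swap x y) α = ncomp σ α) ∨
    (¬ comp σ α x y ∧ ¬ (σ * α).SameCycle (α⁻¹ x) (α⁻¹ y) ∧ nc (σ * swap x y) + 1 = nc σ ∧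
      nc (σ * swap x y * α) + 1 = nc (σ * α) ∧ ncomp (σ * swap x y) α + 1 = ncomp σ α) := by
  have hne : x ≠ y := fun he => h (he ▸ SameCycle.refl _ _)
  have hne' : α⁻¹ x ≠ α⁻¹ y := fun he => hne (α⁻¹.injective he)
  have h1 := nc_mul_swap_of_not h
  have h2 := phi_swap σ α x y
  by_cases hc : comp σ α x y
  · have h3 : ncomp (σ * swap x y) α = ncomp σ α := by
      unfold ncomp
      rw [comp_mul_swap h, pairSup_eq_of_rel hc]
    by_cases hf : (σ * α).SameCycle (α⁻¹ x) (α⁻¹ y)
    · left
      refine ⟨hc, hf, h1, ?_, h3⟩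
      rw [h2, nc_mul_swap_of_same hne' hf]
    · right; left
      refine ⟨hc, hf, h1, ?_, h3⟩
      rw [h2, nc_mul_swap_of_not hf]
  · right; right
    have hf : ¬ (σ * α).SameCycle (α⁻¹ x) (α⁻¹ y) := fun hf =>
      hc ((comp_alpha_inv x y).1 (comp_of_phi hf))
    refine ⟨hc, hf, h1, ?_, ?_⟩
    · rw [h2, nc_mul_swap_of_not hf]
    · unfold ncomp
      rw [comp_mul_swap h, card_pairSup hc]

theorem euler_le (σ α : Perm D) : nc σ + nc α + nc (σ * α) ≤ Nat.card D + 2 * ncomp σ α := by
  induction hn : Nat.card D - nc σ using Nat.strong_induction_on generalizing σ with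
  | _ n ih =>
  by_cases h1 : σ = 1
  · subst h1
    have h2 : comp 1 α = SameCycle.setoid α := by
      unfold comp
      refine le_antisymm (sup_le ?_ le_rfl) le_sup_right
      intro a b hab
      have hab' : (1 : Perm D).SameCycle a b := hab
      have : a = b := by simpa using hab'
      subst this
      exact (SameCycle.setoid α).refl a
    have h3 : ncomp 1 α = nc α := by unfold ncomp nc; rw [h2]
    rw [nc_one, one_mul, h3]; omega
  · obtain ⟨x, hx⟩ : ∃ x, σ x ≠ x := by
      by_contra hcon
      push Not at hcon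
      exact h1 (Perm.ext fun x => by simpa using hcon x)
    set y := σ x with hy
    have hs : σ.SameCycle x y := ⟨1, by simp [hy]⟩
    have hne : x ≠ y := fun he => hx he.symm
    have hns := not_sameCycle_mul_swap hne hs
    have hnc := nc_mul_swap_of_same hne hs
    have hle := nc_le (σ * swap x y)
    have hih := ih (Nat.card D - nc (σ * swap x y)) (by omega) (σ * swap x y) rfl
    have hback : σ * swap x y * swap x y = σ := by rw [mul_assoc, swap_mul_self, mul_one]
    rcases merge_formula (α := α) hns with h | h | h <;> rw [hback] at h <;>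
      obtain ⟨_, _, e1, e2, e3⟩ := h <;> omega

theorem Planar.split {σ α : Perm D} (hp : Planar σ α) {x y : D} (hne : x ≠ y)
    (h : σ.SameCycle x y) : Planar (σ * swap x y) α := by
  have hns := not_sameCycle_mul_swap hne h
  have hle := euler_le (σ * swap x y) α
  have hback : σ * swap x y * swap x y = σ := by rw [mul_assoc, swap_mul_self, mul_one]
  unfold Planar at hp ⊢
  rcases merge_formula (α := α) hns with h | h | h <;> rw [hback] at h <;>
    obtain ⟨_, _, e1, e2, e3⟩ := h <;> omega

theorem Planar.merge_comp {σ α : Perm D} (hp : Planar σ α) {x y : D}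
    (h : ¬ comp σ α x y) : Planar (σ * swap x y) α := by
  have hns : ¬ σ.SameCycle x y := fun hs => h (comp_of_sigma hs)
  unfold Planar at hp ⊢
  rcases merge_formula (α := α) hns with h' | h' | h' <;>
    obtain ⟨e0, _, e1, e2, e3⟩ := h'
  · exact absurd e0 h
  · exact absurd e0 h
  · omega

theorem Planar.merge_face {σ α : Perm D} (hp : Planar σ α) {x y : D}
    (h : ¬ σ.SameCycle x y) (h' : (σ * α).SameCycle (α⁻¹ x) (α⁻¹ y)) :
    Planar (σ * swap x y) α := by
  unfold Planar at hp ⊢
  rcases merge_formula (α := α) h with h'' | h'' | h'' <;>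
    obtain ⟨e0, e4, e1, e2, e3⟩ := h''
  · omega
  · exact absurd h' e4
  · exact absurd h' e4

theorem nc_conj (π τ : Perm D) : nc (τ * π * τ⁻¹) = nc π := by
  unfold nc
  refine (Nat.card_congr (Quotient.congr τ ?_)).symm
  intro a b
  show π.SameCycle a b ↔ (τ * π * τ⁻¹).SameCycle (τ a) (τ b)
  rw [sameCycle_conj]
  simp

theorem Planar.symm {σ α : Perm D} (hp : Planar σ α) : Planar α σ := by
  unfold Planar at hp ⊢
  have h1 : nc (α * σ) = nc (σ * α) := by
    rw [← nc_conj (σ * α) α]
    congr 1
    group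
  have h2 : ncomp α σ = ncomp σ α := by
    unfold ncomp comp
    rw [sup_comm]
  rw [h1, h2]; omega

theorem Planar.contract {σ α : Perm D} (hp : Planar σ α) (_hα : ∀ d, α (α d) = d) {d : D}
    (h : ¬ σ.SameCycle d (α d)) : Planar (σ * swap (σ⁻¹ d) (α d)) α := by
  apply hp.merge_face
  · intro hc
    exact h (SameCycle.trans ⟨-1, by simp⟩ hc)
  · have h1 : α⁻¹ (α d) = d := by simp
    rw [h1]
    exact ⟨1, by simp⟩

/-- disjoint union of two setoids -/
def sumSetoid {A B : Type} (r : Setoid A) (s : Setoid B) : Setoid (A ⊕ B) where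
  r a b := match a, b with
    | Sum.inl a, Sum.inl b => r a b
    | Sum.inr a, Sum.inr b => s a b
    | _, _ => False
  iseqv := by
    refine ⟨?_, ?_, ?_⟩
    · rintro (a | a)
      · exact r.refl a
      · exact s.refl a
    · rintro (a | a) (b | b) h
      · exact r.symm h
      · exact h
      · exact h
      · exact s.symm h
    · rintro (a | a) (b | b) (c | c) h h'
      · exact r.trans h h'
      · exact h'
      · exact h'.elim
      · exact h
      · exact h
      · exact h'.elim
      · exact h'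
      · exact s.trans h h'

theorem sumCongr_pow {A B : Type} (σ : Perm A) (τ : Perm B) (n : ℕ) :
    (Equiv.sumCongr σ τ : Perm (A ⊕ B)) ^ n = Equiv.sumCongr (σ ^ n) (τ ^ n) := by
  induction n with
  | zero => ext x; rcases x with x | x <;> rfl
  | succ n ih => rw [pow_succ, ih, pow_succ, pow_succ]; ext x; rcases x with x | x <;> rfl

theorem setoid_sumCongr {A B : Type} [Fintype A] [Fintype B] (σ : Perm A) (τ : Perm B) :
    SameCycle.setoid (Equiv.sumCongr σ τ : Perm (A ⊕ B)) =
      sumSetoid (SameCycle.setoid σ) (SameCycle.setoid τ) := by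
  ext a b
  show SameCycle (Equiv.sumCongr σ τ : Perm (A ⊕ B)) a b ↔ _
  rcases a with a | a <;> rcases b with b | b
  · show _ ↔ σ.SameCycle a b
    constructor
    · intro h
      obtain ⟨n, hn⟩ := h.exists_nat_pow_eq
      rw [sumCongr_pow] at hn
      exact ⟨n, by simpa using hn⟩
    · intro h
      obtain ⟨n, hn⟩ := h.exists_nat_pow_eq
      refine ⟨n, ?_⟩
      rw [zpow_natCast, sumCongr_pow]
      simpa using hn
  · show _ ↔ False
    refine ⟨fun h => ?_, False.elim⟩
    obtain ⟨n, hn⟩ := h.exists_nat_pow_eq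
    rw [sumCongr_pow] at hn
    simp at hn
  · show _ ↔ False
    refine ⟨fun h => ?_, False.elim⟩
    obtain ⟨n, hn⟩ := h.exists_nat_pow_eq
    rw [sumCongr_pow] at hn
    simp at hn
  · show _ ↔ τ.SameCycle a b
    constructor
    · intro h
      obtain ⟨n, hn⟩ := h.exists_nat_pow_eq
      rw [sumCongr_pow] at hn
      exact ⟨n, by simpa using hn⟩
    · intro h
      obtain ⟨n, hn⟩ := h.exists_nat_pow_eq
      refine ⟨n, ?_⟩
      rw [zpow_natCast, sumCongr_pow]
      simpa using hn

theorem card_sumSetoid {A B : Type} [Finite A] [Finite B] (r : Setoid A) (s : Setoid B) :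
    Nat.card (Quotient (sumSetoid r s)) = Nat.card (Quotient r) + Nat.card (Quotient s) := by
  rw [← Nat.card_sum]
  let f : Quotient (sumSetoid r s) → Quotient r ⊕ Quotient s :=
    Quotient.lift (fun x => match x with
      | Sum.inl a => Sum.inl (Quotient.mk r a)
      | Sum.inr b => Sum.inr (Quotient.mk s b)) (by
        rintro (a | a) (b | b) h
        · exact congrArg Sum.inl (Quotient.sound h)
        · exact (h : False).elim
        · exact (h : False).elim
        · exact congrArg Sum.inr (Quotient.sound h))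
  refine Nat.card_congr (Equiv.ofBijective f ⟨?_, ?_⟩)
  · intro p q
    induction p using Quotient.inductionOn with | _ a => ?_
    induction q using Quotient.inductionOn with | _ b => ?_
    rcases a with a | a <;> rcases b with b | b <;> intro h
    · apply Quotient.sound
      show r a b
      exact Quotient.exact (Sum.inl.inj h)
    · exact absurd h (by simp [f])
    · exact absurd h (by simp [f])
    · apply Quotient.sound
      show s a b
      exact Quotient.exact (Sum.inr.inj h)
  · rintro (p | p)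
    · induction p using Quotient.inductionOn with | _ a => ?_
      exact ⟨Quotient.mk _ (Sum.inl a), rfl⟩
    · induction p using Quotient.inductionOn with | _ a => ?_
      exact ⟨Quotient.mk _ (Sum.inr a), rfl⟩

theorem sumSetoid_sup {A B : Type} (r r' : Setoid A) (s s' : Setoid B) :
    sumSetoid r s ⊔ sumSetoid r' s' = sumSetoid (r ⊔ r') (s ⊔ s') := by
  apply le_antisymm
  · refine sup_le ?_ ?_
    · rintro (a | a) (b | b) h
      · exact (le_sup_left : r ≤ r ⊔ r') h
      · exact h
      · exact h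
      · exact (le_sup_left : s ≤ s ⊔ s') h
    · rintro (a | a) (b | b) h
      · exact (le_sup_right : r' ≤ r ⊔ r') h
      · exact h
      · exact h
      · exact (le_sup_right : s' ≤ s ⊔ s') h
  · set t := sumSetoid r s ⊔ sumSetoid r' s' with ht
    have h1 : r ⊔ r' ≤ Setoid.comap Sum.inl t := by
      refine sup_le ?_ ?_
      · intro a b h
        exact (le_sup_left : sumSetoid r s ≤ t) (show sumSetoid r s (Sum.inl a) (Sum.inl b) from h)
      · intro a b h
        exact (le_sup_right : sumSetoid r' s' ≤ t)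
          (show sumSetoid r' s' (Sum.inl a) (Sum.inl b) from h)
    have h2 : s ⊔ s' ≤ Setoid.comap Sum.inr t := by
      refine sup_le ?_ ?_
      · intro a b h
        exact (le_sup_left : sumSetoid r s ≤ t) (show sumSetoid r s (Sum.inr a) (Sum.inr b) from h)
      · intro a b h
        exact (le_sup_right : sumSetoid r' s' ≤ t)
          (show sumSetoid r' s' (Sum.inr a) (Sum.inr b) from h)
    rintro (a | a) (b | b) h
    · exact h1 h
    · exact (h : False).elim
    · exact (h : False).elim
    · exact h2 h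

theorem nc_sumCongr {A B : Type} [Fintype A] [Fintype B] (σ : Perm A) (τ : Perm B) :
    nc (Equiv.sumCongr σ τ : Perm (A ⊕ B)) = nc σ + nc τ := by
  unfold nc
  rw [setoid_sumCongr, card_sumSetoid]

theorem comp_sumCongr {A B : Type} [Fintype A] [Fintype B] (σ α : Perm A) (σ' α' : Perm B) :
    comp (Equiv.sumCongr σ σ' : Perm (A ⊕ B)) (Equiv.sumCongr α α') =
      sumSetoid (comp σ α) (comp σ' α') := by
  unfold comp
  rw [setoid_sumCongr, setoid_sumCongr, sumSetoid_sup]

theorem Planar.sum {D' : Type} [Fintype D'] [DecidableEq D'] {σ α : Perm D} {σ' α' : Perm D'}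
    (h : Planar σ α) (h' : Planar σ' α') :
    Planar (Equiv.sumCongr σ σ') (Equiv.sumCongr α α') := by
  unfold Planar at h h' ⊢
  have h1 : (Equiv.sumCongr σ σ' : Perm (D ⊕ D')) * (Equiv.sumCongr α α') =
      Equiv.sumCongr (σ * α) (σ' * α') := by
    ext x; rcases x with x | x <;> rfl
  have h2 : ncomp (Equiv.sumCongr σ σ' : Perm (D ⊕ D')) (Equiv.sumCongr α α') =
      ncomp σ α + ncomp σ' α' := by
    unfold ncomp
    rw [comp_sumCongr, card_sumSetoid]
  rw [h1, h2, nc_sumCongr, nc_sumCongr, nc_sumCongr, Nat.card_sum]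
  omega

theorem comp_sum {D' : Type} [Fintype D'] {σ α : Perm D} {σ' α' : Perm D'} (x : D) (y : D') :
    ¬ comp (Equiv.sumCongr σ σ') (Equiv.sumCongr α α') (Sum.inl x) (Sum.inr y) := by
  rw [comp_sumCongr]
  exact fun h => h

end M2
end Helper5.CR
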