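import Pool.Agent.Helper5.CR.Defs

open Equiv Equiv.Perm

namespace Helper5.CR

section M1
set_option linter.unusedSectionVars false
variable {D : Type} [Fintype D] [DecidableEq D]

theorem sameCycle_of_forall {π : Perm D} (r : Setoid D) (h : ∀ a, r a (π a)) {a b : D}
    (hab : π.SameCycle a b) : r a b := by
  obtain ⟨n, rfl⟩ := hab.exists_nat_pow_eq
  induction n with
  | zero => exact r.refl a
  | succ n ih =>
    rw [pow_succ']
    exact r.trans (ih ⟨n, by simp⟩) (h _)

theorem sameCycle_mul_swap_self {π : Perm D} {x y : D} (h : ¬ π.SameCycle x y) :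
    (π * swap x y).SameCycle x y := by
  classical
  have hex : ∃ k, 0 < k ∧ (π ^ k) x = x := ⟨orderOf π, orderOf_pos π, by simp [pow_orderOf_eq_one]⟩
  let k := Nat.find hex
  have hk : 0 < k ∧ (π ^ k) x = x := Nat.find_spec hex
  have hmin : ∀ i, 0 < i → i < k → (π ^ i) x ≠ x := fun i hi hik he =>
    Nat.find_min hex hik ⟨hi, he⟩
  have key : ∀ i, 0 < i → i ≤ k → ((π * swap x y) ^ i) y = (π ^ i) x := by
    intro i
    induction i with
    | zero => intro h; omega
    | succ i ih =>
      intro _ hi
      rcases Nat.eq_zero_or_pos i with h0 | h0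
      · subst h0; simp
      · rw [pow_succ', pow_succ', Perm.mul_apply, ih h0 (by omega), Perm.mul_apply, Perm.mul_apply,
          swap_apply_of_ne_of_ne]
        · exact hmin i h0 (by omega)
        · intro he
          exact h ⟨i, by simpa using he⟩
  have := key k hk.1 le_rfl
  rw [hk.2] at this
  exact SameCycle.symm ⟨k, by simpa using this⟩

theorem sameCycle_mul_swap {π : Perm D} {x y : D} (h : ¬ π.SameCycle x y) (a b : D) :
    (π * swap x y).SameCycle a b ↔
      π.SameCycle a b ∨ (π.SameCycle a x ∧ π.SameCycle b y) ∨
        (π.SameCycle a y ∧ π.SameCycle b x) := by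
  classical
  have hself := sameCycle_mul_swap_self h
  have hle : ∀ {a b}, π.SameCycle a b → (π * swap x y).SameCycle a b := by
    intro a b hab
    refine sameCycle_of_forall (SameCycle.setoid (π * swap x y)) ?_ hab
    intro a
    show (π * swap x y).SameCycle a (π a)
    by_cases hx : a = x
    · subst hx
      refine hself.trans ⟨1, by simp⟩
    · by_cases hy : a = y
      · subst hy
        refine hself.symm.trans ⟨1, by simp⟩
      · exact ⟨1, by simp [swap_apply_of_ne_of_ne hx hy]⟩
  constructor
  · intro hab
    obtain ⟨n, rfl⟩ := hab.exists_nat_pow_eq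
    clear hab
    induction n with
    | zero => left; exact SameCycle.refl _ _
    | succ n ih =>
      rw [pow_succ', Perm.mul_apply]
      set c := ((π * swap x y) ^ n) a with hc
      by_cases hx : c = x
      · have e : (π * swap x y) c = π y := by rw [hx]; simp
        rw [e]
        rw [hx] at ih
        have h1 : π.SameCycle (π y) y := SameCycle.symm ⟨1, by simp⟩
        rcases ih with ih | ih | ih
        · right; left; exact ⟨ih, h1⟩
        · exact absurd ih.2 h
        · left; exact ih.1.trans h1.symm
      · by_cases hy : c = y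
        · have e : (π * swap x y) c = π x := by rw [hy]; simp
          rw [e]
          rw [hy] at ih
          have h1 : π.SameCycle (π x) x := SameCycle.symm ⟨1, by simp⟩
          rcases ih with ih | ih | ih
          · right; right; exact ⟨ih, h1⟩
          · left; exact ih.1.trans h1.symm
          · exact absurd ih.2.symm h
        · have e : (π * swap x y) c = π c := by
            rw [Perm.mul_apply, swap_apply_of_ne_of_ne hx hy]
          rw [e]
          have h1 : π.SameCycle c (π c) := ⟨1, by simp⟩
          rcases ih with ih | ih | ih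
          · left; exact ih.trans h1
          · right; left; exact ⟨ih.1, h1.symm.trans ih.2⟩
          · right; right; exact ⟨ih.1, h1.symm.trans ih.2⟩
  · rintro (hab | ⟨h1, h2⟩ | ⟨h1, h2⟩)
    · exact hle hab
    · exact (hle h1).trans (hself.trans (hle h2).symm)
    · exact (hle h1).trans (hself.symm.trans (hle h2).symm)

theorem not_sameCycle_mul_swap {π : Perm D} {x y : D} (hne : x ≠ y) (h : π.SameCycle x y) :
    ¬ (π * swap x y).SameCycle x y := by
  classical
  have hex : ∃ m, 0 < m ∧ (π ^ m) y = x := by
    obtain ⟨n, hn⟩ := h.symm.exists_nat_pow_eq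
    refine ⟨n, ?_, hn⟩
    rcases Nat.eq_zero_or_pos n with h0 | h0
    · subst h0; exact absurd (by simpa using hn.symm) hne
    · exact h0
  let m := Nat.find hex
  have hm : 0 < m ∧ (π ^ m) y = x := Nat.find_spec hex
  have hmin : ∀ i, 0 < i → i < m → (π ^ i) y ≠ x := fun i hi hik he =>
    Nat.find_min hex hik ⟨hi, he⟩
  have hminy : ∀ i, 0 < i → i < m → (π ^ i) y ≠ y := by
    intro i hi him he
    refine hmin (m - i) (by omega) (by omega) ?_
    have : (π ^ (m - i)) ((π ^ i) y) = x := by
      rw [← Perm.mul_apply, ← pow_add, Nat.sub_add_cancel (by omega)]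
      exact hm.2
    rwa [he] at this
  have key : ∀ n, ∃ i, 0 < i ∧ i ≤ m ∧ ((π * swap x y) ^ n) x = (π ^ i) y := by
    intro n
    induction n with
    | zero => exact ⟨m, hm.1, le_rfl, by simpa using hm.2.symm⟩
    | succ n ih =>
      obtain ⟨i, hi, him, he⟩ := ih
      rw [pow_succ', Perm.mul_apply, he]
      rcases Nat.lt_or_ge i m with hlt | hge
      · refine ⟨i + 1, by omega, by omega, ?_⟩
        rw [pow_succ', Perm.mul_apply, Perm.mul_apply,
          swap_apply_of_ne_of_ne (hmin i hi hlt) (hminy i hi hlt)]
      · have : i = m := by omega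
        subst this
        refine ⟨1, by omega, by omega, ?_⟩
        rw [hm.2]
        simp
  intro hc
  obtain ⟨n, hn⟩ := hc.exists_nat_pow_eq
  obtain ⟨i, hi, him, he⟩ := key n
  rw [hn] at he
  rcases Nat.lt_or_ge i m with hlt | hge
  · exact hminy i hi hlt he.symm
  · have : i = m := by omega
    subst this
    exact hne (hm.2.symm.trans he.symm)

/-- adding the pair `x y` to an equivalence relation `r` -/
theorem card_quotient_sup_pair (r s : Setoid D) (x y : D) (h : ¬ r x y)
    (hs : ∀ a b, s a b ↔ r a b ∨ (r a x ∧ r b y) ∨ (r a y ∧ r b x)) :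
    Nat.card (Quotient s) + 1 = Nat.card (Quotient r) := by
  classical
  have hle : r ≤ s := by
    rw [Setoid.le_def]
    intro a b hab
    exact (hs a b).2 (Or.inl hab)
  let f : Quotient r → Quotient s := Quotient.map id (fun a b hab => (hs a b).2 (Or.inl hab))
  let q : Quotient r := Quotient.mk r y
  let g : {p : Quotient r // p ≠ q} → Quotient s := fun p => f p.1
  have hg : Function.Bijective g := by
    constructor
    · rintro ⟨p1, h1⟩ ⟨p2, h2⟩ he
      induction p1 using Quotient.inductionOn with | _ a => ?_
      induction p2 using Quotient.inductionOn with | _ b => ?_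
      have he' : s a b := Quotient.exact he
      have ha : ¬ r a y := fun hh => h1 (Quotient.sound hh)
      have hb : ¬ r b y := fun hh => h2 (Quotient.sound hh)
      rcases (hs a b).1 he' with h3 | h3 | h3
      · exact Subtype.ext (Quotient.sound h3)
      · exact absurd h3.2 hb
      · exact absurd h3.1 ha
    · intro p
      induction p using Quotient.inductionOn with | _ a => ?_
      by_cases ha : r a y
      · refine ⟨⟨Quotient.mk r x, fun he => h (Quotient.exact he)⟩, ?_⟩
        apply Quotient.sound
        show s x a
        exact (hs x a).2 (Or.inr (Or.inl ⟨r.refl x, ha⟩))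
      · refine ⟨⟨Quotient.mk r a, fun he => ha (Quotient.exact he)⟩, rfl⟩
  have h1 := Nat.card_congr (Equiv.ofBijective g hg)
  have h2 := Nat.card_congr (Equiv.optionSubtypeNe q)
  rw [Finite.card_option] at h2
  rw [← h2, h1]

theorem nc_mul_swap_of_not {π : Perm D} {x y : D} (h : ¬ π.SameCycle x y) :
    nc (π * swap x y) + 1 = nc π :=
  card_quotient_sup_pair (SameCycle.setoid π) (SameCycle.setoid (π * swap x y)) x y h
    (sameCycle_mul_swap h)

theorem nc_mul_swap_of_same {π : Perm D} {x y : D} (hne : x ≠ y) (h : π.SameCycle x y) :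
    nc (π * swap x y) = nc π + 1 := by
  have h1 := nc_mul_swap_of_not (not_sameCycle_mul_swap hne h)
  rw [mul_assoc, swap_mul_self, mul_one] at h1
  exact h1.symm

end M1
end Helper5.CR
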