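import Pool.Agent.Helper5.CR.M3

/-!
M6: inserting a crossing next to a point with many passes.
-/

open Equiv Equiv.Perm

namespace Helper5.CR

namespace M6

open Classical in
/-- Replacement of the darts in the routes. `a` and `c` are the darts to be exchanged. -/
noncomputable def sub {D : Type} (α : Perm D) (a c : D) (d : D) : List (D ⊕ Fin 4) :=
  if d = a then [Sum.inl c, Sum.inr 0]
  else if d = α a then [Sum.inl (α a), Sum.inr 2]
  else if d = c then [Sum.inl a, Sum.inr 1]
  else if d = α c then [Sum.inl (α c), Sum.inr 3]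
  else [Sum.inl d]

open Classical in
/-- The dart replaced by a list containing the given one. -/
noncomputable def pre {D : Type} (α : Perm D) (a c : D) : D ⊕ Fin 4 → D
  | Sum.inl d => if d = a then c else if d = c then a else d
  | Sum.inr i => if i = 0 then a else if i = 1 then c else if i = 2 then α a else α c

/-- The data for the insertion of a crossing. -/
structure Data {D : Type} (α : Perm D) (α' : Perm (D ⊕ Fin 4)) (a c : D) : Prop where
  hα : ∀ d, α (α d) = d
  ha : α a ≠ a
  hc : α c ≠ c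
  hne : a ≠ c
  hac : α a ≠ c
  hα' : ∀ d, α' (α' d) = d
  h1 : α' (Sum.inl a) = Sum.inr 3
  h2 : α' (Sum.inl c) = Sum.inr 2
  h3 : α' (Sum.inl (α a)) = Sum.inr 0
  h4 : α' (Sum.inl (α c)) = Sum.inr 1
  h5 : ∀ d, d ≠ a → d ≠ c → d ≠ α a → d ≠ α c → α' (Sum.inl d) = Sum.inl (α d)

section
variable {D : Type} {α : Perm D} {α' : Perm (D ⊕ Fin 4)} {a c : D}

namespace Data

lemma hca (h : Data α α' a c) : α c ≠ a := fun h' => h.hac (by rw [← h', h.hα])

lemma hcc (h : Data α α' a c) : α c ≠ α a := fun h' => h.hne (α.injective h').symm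

lemma h1' (h : Data α α' a c) : α' (Sum.inr 3) = Sum.inl a := by rw [← h.h1, h.hα']
lemma h2' (h : Data α α' a c) : α' (Sum.inr 2) = Sum.inl c := by rw [← h.h2, h.hα']
lemma h3' (h : Data α α' a c) : α' (Sum.inr 0) = Sum.inl (α a) := by rw [← h.h3, h.hα']
lemma h4' (h : Data α α' a c) : α' (Sum.inr 1) = Sum.inl (α c) := by rw [← h.h4, h.hα']

lemma sub_a (_h : Data α α' a c) : sub α a c a = [Sum.inl c, Sum.inr 0] := by simp [sub]

lemma sub_αa (h : Data α α' a c) : sub α a c (α a) = [Sum.inl (α a), Sum.inr 2] := by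
  simp [sub, h.ha]

lemma sub_c (h : Data α α' a c) : sub α a c c = [Sum.inl a, Sum.inr 1] := by
  simp [sub, h.hne.symm, h.hac.symm]

lemma sub_αc (h : Data α α' a c) : sub α a c (α c) = [Sum.inl (α c), Sum.inr 3] := by
  simp [sub, h.hca, h.hcc, h.hc]

lemma sub_other (_h : Data α α' a c) {d : D} (h1 : d ≠ a) (h2 : d ≠ c) (h3 : d ≠ α a)
    (h4 : d ≠ α c) : sub α a c d = [Sum.inl d] := by
  simp [sub, h1, h2, h3, h4]

lemma cases (_h : Data α α' a c) (d : D) :
    d = a ∨ d = α a ∨ d = c ∨ d = α c ∨ (d ≠ a ∧ d ≠ c ∧ d ≠ α a ∧ d ≠ α c) := by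
  tauto

lemma pre_comm (h : Data α α' a c) (d' : D ⊕ Fin 4) : pre α a c (α' d') = α (pre α a c d') := by
  have g1 := h.ha
  have g2 := h.hc
  have g3 := h.hne
  have g4 := h.hac
  have g5 := h.hca
  have g6 := h.hcc
  rcases d' with d | i
  · rcases h.cases d with rfl | rfl | rfl | rfl | ⟨k1, k2, k3, k4⟩
    · rw [h.h1]; simp [pre]
    · rw [h.h3]; simp [pre, g1, g4, h.hα]
    · rw [h.h2]; simp [pre, g3.symm]
    · rw [h.h4]; simp [pre, g5, g2, h.hα]
    · rw [h.h5 d k1 k2 k3 k4]
      have e1 : α d ≠ a := fun e => k3 (by rw [← e, h.hα])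
      have e2 : α d ≠ c := fun e => k4 (by rw [← e, h.hα])
      simp [pre, k1, k2, e1, e2]
  · fin_cases i
    · simp only [Fin.zero_eta]
      rw [h.h3']; simp [pre, g1, g4]
    · simp only [Fin.mk_one]
      rw [h.h4']; simp [pre, g5, g2]
    · have : (⟨2, by norm_num⟩ : Fin 4) = 2 := rfl
      rw [this, h.h2']; simp [pre, g3.symm, h.hα]
    · have : (⟨3, by norm_num⟩ : Fin 4) = 3 := rfl
      rw [this, h.h1']; simp [pre, h.hα]

lemma mem_sub (h : Data α α' a c) (d' : D ⊕ Fin 4) (d : D) :
    d' ∈ sub α a c d ↔ d = pre α a c d' := by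
  have g1 := h.ha
  have g2 := h.hc
  have g3 := h.hne
  have g4 := h.hac
  have g5 := h.hca
  have g6 := h.hcc
  rcases h.cases d with rfl | rfl | rfl | rfl | ⟨k1, k2, k3, k4⟩
  · rw [h.sub_a]
    rcases d' with d' | i
    · by_cases e1 : d' = d
      · subst e1; simp [pre, g3]
      · by_cases e2 : d' = c
        · subst e2; simp [pre, e1]
        · simp [pre, e1, e2, Ne.symm e1]
    · fin_cases i <;> simp [pre, g1.symm, g3, g5.symm]
  · rw [h.sub_αa]
    rcases d' with d' | i
    · by_cases e1 : d' = a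
      · subst e1; simp [pre, g1.symm, g4]
      · by_cases e2 : d' = c
        · subst e2; simp [pre, e1, g1, g4.symm]
        · simp [pre, e1, e2, eq_comm]
    · fin_cases i <;> simp [pre, g1, g4, g6.symm]
  · rw [h.sub_c]
    rcases d' with d' | i
    · by_cases e1 : d' = a
      · subst e1; simp [pre]
      · by_cases e2 : d' = d
        · subst e2; simp [pre, e1]
        · simp [pre, e1, e2, Ne.symm e2]
    · fin_cases i <;> simp [pre, g3.symm, g4.symm, g2.symm]
  · rw [h.sub_αc]
    rcases d' with d' | i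
    · by_cases e1 : d' = a
      · subst e1; simp [pre, g5.symm, g2]
      · by_cases e2 : d' = c
        · subst e2; simp [pre, e1, g5, g2.symm]
        · simp [pre, e1, e2, eq_comm]
    · fin_cases i <;> simp [pre, g5, g2, g6]
  · rw [h.sub_other k1 k2 k3 k4]
    rcases d' with d' | i
    · by_cases e1 : d' = a
      · subst e1; simp [pre, k1.symm, k2]
      · by_cases e2 : d' = c
        · subst e2; simp [pre, e1, k1, k2.symm]
        · simp [pre, e1, e2, eq_comm]
    · fin_cases i <;> simp [pre, k1, k2, k3, k4]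

lemma nodup_sub (h : Data α α' a c) (d : D) : (sub α a c d).Nodup := by
  rcases h.cases d with rfl | rfl | rfl | rfl | ⟨k1, k2, k3, k4⟩
  · rw [h.sub_a]; simp
  · rw [h.sub_αa]; simp
  · rw [h.sub_c]; simp
  · rw [h.sub_αc]; simp
  · rw [h.sub_other k1 k2 k3 k4]; simp

lemma mem_flatMap (h : Data α α' a c) (d' : D ⊕ Fin 4) (l : List D) :
    d' ∈ l.flatMap (sub α a c) ↔ pre α a c d' ∈ l := by
  rw [List.mem_flatMap]
  constructor
  · rintro ⟨d, h1, h2⟩
    rw [h.mem_sub] at h2
    rwa [← h2]
  · intro h1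
    exact ⟨_, h1, (h.mem_sub _ _).2 rfl⟩

lemma count_flatMap (h : Data α α' a c) [BEq D] [LawfulBEq D] [BEq (D ⊕ Fin 4)]
    [LawfulBEq (D ⊕ Fin 4)] (d' : D ⊕ Fin 4) (l : List D) :
    (l.flatMap (sub α a c)).count d' = l.count (pre α a c d') := by
  induction l with
  | nil => simp
  | cons d l ih =>
    rw [List.flatMap_cons, List.count_append, ih, List.count_cons]
    by_cases e : d = pre α a c d'
    · rw [List.count_eq_one_of_mem (h.nodup_sub d) ((h.mem_sub _ _).2 e)]
      simp [e, add_comm]
    · rw [List.count_eq_zero_of_not_mem (fun h' => e ((h.mem_sub _ _).1 h'))]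
      simp [e]

/-! Points -/

variable {X : Type}

end Data

/-- The new points. -/
def pt' {D X : Type} (pt : D → X) : D ⊕ Fin 4 → Option X
  | Sum.inl d => some (pt d)
  | Sum.inr _ => none

lemma isWalk_append {D X : Type} {pt : D → X} {α : Perm D} :
    ∀ {l₁ : List D} {x y z : X} {l₂ : List D}, IsWalk pt α x y l₁ → IsWalk pt α y z l₂ →
      IsWalk pt α x z (l₁ ++ l₂)
  | [], x, y, z, l₂, h1, h2 => by
    have : x = y := h1
    subst this
    exact h2
  | d :: l, x, y, z, l₂, h1, h2 => ⟨h1.1, isWalk_append h1.2 h2⟩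

namespace Data

variable {X : Type} {pt : D → X}

lemma walk_sub (h : Data α α' a c) (hpt : pt a = pt c) (d : D) :
    IsWalk (pt' pt) α' (some (pt d)) (some (pt (α d))) (sub α a c d) := by
  rcases h.cases d with rfl | rfl | rfl | rfl | ⟨k1, k2, k3, k4⟩
  · rw [h.sub_a]
    refine ⟨?_, ?_, ?_⟩
    · simp [pt', hpt]
    · rw [h.h2]; rfl
    · rw [h.h3']; rfl
  · rw [h.sub_αa]
    refine ⟨rfl, ?_, ?_⟩
    · rw [h.h3]; rfl
    · rw [h.h2', h.hα]; simp [pt', hpt, IsWalk]
  · rw [h.sub_c]
    refine ⟨?_, ?_, ?_⟩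
    · simp [pt', hpt]
    · rw [h.h1]; rfl
    · rw [h.h4']; rfl
  · rw [h.sub_αc]
    refine ⟨rfl, ?_, ?_⟩
    · rw [h.h4]; rfl
    · rw [h.h1', h.hα]; simp [pt', hpt, IsWalk]
  · rw [h.sub_other k1 k2 k3 k4]
    refine ⟨rfl, ?_⟩
    rw [h.h5 d k1 k2 k3 k4]
    rfl

lemma walk_flatMap (h : Data α α' a c) (hpt : pt a = pt c) :
    ∀ (l : List D) (x y : X), IsWalk pt α x y l →
      IsWalk (pt' pt) α' (some x) (some y) (l.flatMap (sub α a c))
  | [], x, y, hw => by
    have : x = y := hw
    subst this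
    rfl
  | d :: l, x, y, hw => by
    rw [List.flatMap_cons]
    obtain ⟨h1, h2⟩ := hw
    rw [← h1]
    exact isWalk_append (h.walk_sub hpt d) (h.walk_flatMap hpt l _ _ h2)

/-- number of new darts in `sub d` -/
lemma sub_head (h : Data α α' a c) (hpt : pt a = pt c) (d : D) :
    ∃ (u : D) (r : List (D ⊕ Fin 4)), sub α a c d = Sum.inl u :: r ∧ pt u = pt d ∧
      (∀ q ∈ r, ∃ i, q = Sum.inr i) ∧
      ((d = a ∨ d = α a ∨ d = c ∨ d = α c) → r.length = 1) ∧
      (¬ (d = a ∨ d = α a ∨ d = c ∨ d = α c) → r = []) := by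
  rcases h.cases d with rfl | rfl | rfl | rfl | ⟨k1, k2, k3, k4⟩
  · exact ⟨c, [Sum.inr 0], h.sub_a, hpt.symm, by simp, by simp, by simp⟩
  · exact ⟨α a, [Sum.inr 2], h.sub_αa, rfl, by simp, by simp, by simp⟩
  · exact ⟨a, [Sum.inr 1], h.sub_c, hpt, by simp, by simp, by simp⟩
  · exact ⟨α c, [Sum.inr 3], h.sub_αc, rfl, by simp, by simp, by simp⟩
  · exact ⟨d, [], h.sub_other k1 k2 k3 k4, rfl, by simp, by simp [k1, k2, k3, k4], by simp⟩

lemma count_some (h : Data α α' a c) (hpt : pt a = pt c) [BEq X] [LawfulBEq X]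
    [BEq (Option X)] [LawfulBEq (Option X)] (x : X) (l : List D) :
    ((l.flatMap (sub α a c)).map (pt' pt)).count (some x) = (l.map pt).count x := by
  induction l with
  | nil => simp
  | cons d l ih =>
    rw [List.flatMap_cons, List.map_append, List.count_append, ih, List.map_cons, List.count_cons]
    obtain ⟨u, r, h1, h2, h3, -, -⟩ := h.sub_head hpt d
    rw [h1, List.map_cons, List.count_cons]
    have h4 : (r.map (pt' pt)).count (some x) = 0 := by
      apply List.count_eq_zero_of_not_mem
      intro h5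
      obtain ⟨q, hq, hq'⟩ := List.mem_map.1 h5
      obtain ⟨i, rfl⟩ := h3 q hq
      simp [pt'] at hq'
    rw [h4]
    have h5 : pt' pt (Sum.inl u) = some (pt d) := by simp [pt', h2]
    rw [h5]
    by_cases e : pt d = x
    · simp [e, add_comm]
    · simp [e]

lemma count_some_tail (h : Data α α' a c) (hpt : pt a = pt c) [BEq X] [LawfulBEq X]
    [BEq (Option X)] [LawfulBEq (Option X)] (x : X) (l : List D) :
    ((l.flatMap (sub α a c)).tail.map (pt' pt)).count (some x) = (l.tail.map pt).count x := by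
  cases l with
  | nil => simp
  | cons d l =>
    obtain ⟨u, r, h1, h2, h3, -, -⟩ := h.sub_head hpt d
    rw [List.flatMap_cons, h1, List.cons_append, List.tail_cons, List.tail_cons,
      List.map_append, List.count_append, h.count_some hpt]
    have h4 : (r.map (pt' pt)).count (some x) = 0 := by
      apply List.count_eq_zero_of_not_mem
      intro h5
      obtain ⟨q, hq, hq'⟩ := List.mem_map.1 h5
      obtain ⟨i, rfl⟩ := h3 q hq
      simp [pt'] at hq'
    rw [h4, zero_add]

lemma count_none (h : Data α α' a c) (hpt : pt a = pt c) [BEq D] [LawfulBEq D]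
    [BEq (Option X)] [LawfulBEq (Option X)] (l : List D) :
    ((l.flatMap (sub α a c)).map (pt' pt)).count none =
      (l.count a + l.count (α a)) + (l.count c + l.count (α c)) := by
  have g1 := h.ha
  have g2 := h.hc
  have g3 := h.hne
  have g4 := h.hac
  have g5 := h.hca
  have g6 := h.hcc
  induction l with
  | nil => simp
  | cons d l ih =>
    rw [List.flatMap_cons, List.map_append, List.count_append, ih]
    rcases h.cases d with rfl | rfl | rfl | rfl | ⟨k1, k2, k3, k4⟩
    · rw [h.sub_a]
      simp [pt', g3, g1.symm, g5.symm]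
      omega
    · rw [h.sub_αa]
      simp [pt', g1, g4, g6.symm]
      omega
    · rw [h.sub_c]
      simp [pt', g3.symm, g4.symm, g2.symm]
      omega
    · rw [h.sub_αc]
      simp [pt', g5, g2, g6]
      omega
    · rw [h.sub_other k1 k2 k3 k4]
      simp [pt', k1, k2, k3, k4]

lemma count_none_tail (h : Data α α' a c) (hpt : pt a = pt c) [BEq D] [LawfulBEq D]
    [BEq (Option X)] [LawfulBEq (Option X)] (l : List D) :
    ((l.flatMap (sub α a c)).tail.map (pt' pt)).count none =
      (l.count a + l.count (α a)) + (l.count c + l.count (α c)) := by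
  rw [← h.count_none hpt]
  cases l with
  | nil => simp
  | cons d l =>
    obtain ⟨u, r, h1, h2, h3, -, -⟩ := h.sub_head hpt d
    rw [List.flatMap_cons, h1, List.cons_append, List.tail_cons, List.map_cons, List.count_cons]
    simp [pt']

lemma count_flatMap' (h : Data α α' a c) {i1 : DecidableEq D} {i2 : DecidableEq (D ⊕ Fin 4)}
    (d' : D ⊕ Fin 4) (l : List D) :
    @List.count _ (@instBEqOfDecidableEq _ i2) d' (l.flatMap (sub α a c)) =
      @List.count _ (@instBEqOfDecidableEq _ i1) (pre α a c d') l :=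
  @count_flatMap _ _ _ _ _ h (@instBEqOfDecidableEq _ i1) inferInstance
    (@instBEqOfDecidableEq _ i2) inferInstance d' l

lemma count_some_tail' (h : Data α α' a c) (hpt : pt a = pt c) {i1 : DecidableEq X}
    {i2 : DecidableEq (Option X)} (x : X) (l : List D) :
    @List.count _ (@instBEqOfDecidableEq _ i2) (some x)
      ((l.flatMap (sub α a c)).tail.map (pt' pt)) =
      @List.count _ (@instBEqOfDecidableEq _ i1) x (l.tail.map pt) :=
  @count_some_tail _ _ _ _ _ _ _ h hpt (@instBEqOfDecidableEq _ i1) inferInstance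
    (@instBEqOfDecidableEq _ i2) inferInstance x l

lemma count_none_tail' (h : Data α α' a c) (hpt : pt a = pt c) {i1 : DecidableEq D}
    {i2 : DecidableEq (Option X)} (l : List D) :
    @List.count _ (@instBEqOfDecidableEq _ i2) none
      ((l.flatMap (sub α a c)).tail.map (pt' pt)) =
      (@List.count _ (@instBEqOfDecidableEq _ i1) a l +
        @List.count _ (@instBEqOfDecidableEq _ i1) (α a) l) +
      (@List.count _ (@instBEqOfDecidableEq _ i1) c l +
        @List.count _ (@instBEqOfDecidableEq _ i1) (α c) l) :=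
  @count_none_tail _ _ _ _ _ _ _ h hpt (@instBEqOfDecidableEq _ i1) inferInstance
    (@instBEqOfDecidableEq _ i2) inferInstance l

lemma inner (h : Data α α' a c) (hpt : pt a = pt c) (l : List D) (x : X)
    (hl : ∀ d ∈ l.tail, pt d ≠ x) : ∀ d ∈ (l.flatMap (sub α a c)).tail, pt' pt d ≠ some x := by
  classical
  intro d hd he
  have h1 : 0 < ((l.flatMap (sub α a c)).tail.map (pt' pt)).count (some x) := by
    rw [List.count_pos_iff, ← he]
    exact List.mem_map_of_mem hd
  rw [h.count_some_tail hpt] at h1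
  obtain ⟨d', hd', he'⟩ := List.mem_map.1 (List.count_pos_iff.1 h1)
  exact hl d' hd' he'

end Data

end

end M6

namespace PreDrawing

variable {V E : Type} [Fintype E] {src tgt : E → V}

open Classical in
/-- The drawing with an inserted crossing. -/
noncomputable def insertCrossing (P : PreDrawing src tgt) {a c : P.D} (hpt : P.pt a = P.pt c)
    (σ' α' : Perm (P.D ⊕ Fin 4)) (hp : Planar σ' α') (hne : ∀ d, α' d ≠ d)
    (hσ : ∀ d, σ' (Sum.inl d) = Sum.inl (P.σ d)) (hσ' : ∀ i, σ' (Sum.inr i) = Sum.inr (i + 1))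
    (h : M6.Data P.α α' a c) : PreDrawing src tgt where
  D := P.D ⊕ Fin 4
  X := Option P.X
  finD := inferInstance
  finX := inferInstance
  σ := σ'
  α := α'
  α_invol := h.hα'
  α_ne := hne
  planar := hp
  pt := M6.pt' P.pt
  pt_iff := by
    have hs : σ' = Equiv.sumCongr P.σ (Equiv.addRight (1 : Fin 4)) := by
      ext d
      rcases d with d | i
      · rw [hσ]; rfl
      · rw [hσ']; rfl
    have hpow : ∀ k : ℤ, σ' ^ k = Equiv.sumCongr (P.σ ^ k) ((Equiv.addRight (1 : Fin 4)) ^ k) := by
      intro k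
      rw [hs]
      exact (map_zpow (Equiv.Perm.sumCongrHom P.D (Fin 4))
        (P.σ, Equiv.addRight (1 : Fin 4)) k).symm
    rintro (d | i) (d' | i')
    · constructor
      · intro he
        have he' : P.pt d = P.pt d' := Option.some_injective _ he
        obtain ⟨k, hk⟩ := (P.pt_iff d d').1 he'
        refine ⟨k, ?_⟩
        rw [hpow, Equiv.sumCongr_apply, Sum.map_inl, hk]
      · rintro ⟨k, hk⟩
        rw [hpow, Equiv.sumCongr_apply, Sum.map_inl] at hk
        have hk' := Sum.inl_injective hk
        exact congrArg some ((P.pt_iff d d').2 ⟨k, hk'⟩)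
    · constructor
      · intro he
        exact absurd he (by simp [M6.pt'])
      · rintro ⟨k, hk⟩
        rw [hpow, Equiv.sumCongr_apply, Sum.map_inl] at hk
        exact absurd hk (by simp)
    · constructor
      · intro he
        exact absurd he (by simp [M6.pt'])
      · rintro ⟨k, hk⟩
        rw [hpow, Equiv.sumCongr_apply, Sum.map_inr] at hk
        exact absurd hk (by simp)
    · constructor
      · intro _
        have s1 : ∀ i : Fin 4, σ'.SameCycle (Sum.inr i) (Sum.inr (i + 1)) := fun i =>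
          ⟨1, by rw [zpow_one, hσ']⟩
        have s2 : ∀ i : Fin 4, σ'.SameCycle (Sum.inr 0) (Sum.inr i) := by
          intro i
          fin_cases i
          · exact SameCycle.refl _ _
          · exact s1 0
          · exact (s1 0).trans (s1 1)
          · exact ((s1 0).trans (s1 1)).trans (s1 2)
        exact (s2 i).symm.trans (s2 i')
      · intro _
        rfl
  loc := fun v => some (P.loc v)
  loc_inj := fun u v huv => P.loc_inj (Option.some_injective _ huv)
  route := fun e => (P.route e).flatMap (M6.sub P.α a c)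
  route_walk := fun e => h.walk_flatMap hpt _ _ _ (P.route_walk e)
  route_inner := fun e d hd v => h.inner hpt _ _ (fun d' hd' => P.route_inner e d' hd' v) d hd
  route_use := by
    intro d
    have h1 := P.route_use (M6.pre P.α a c d)
    rw [← h.pre_comm] at h1
    refine le_trans (le_of_eq ?_) h1
    refine Finset.sum_congr rfl fun e _ => ?_
    rw [h.count_flatMap', h.count_flatMap']

theorem exists_swap (P : PreDrawing src tgt) (hP : P.Clean)
    (hL : ∀ d, P.Used d → P.pt d ≠ P.pt (P.α d)) (e : E) (l₁ l₂ : List P.D) (c b : P.D)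
    (hr : P.route e = l₁ ++ c :: b :: l₂) (j : ℕ) (hb : (P.σ ^ (j + 2)) (P.α c) = b)
    (hfirst : ∀ i, 0 < i → i < j + 2 → (P.σ ^ i) (P.α c) ≠ b ∧ (P.σ ^ i) (P.α c) ≠ P.α c) :
    ∃ P' : PreDrawing src tgt, P'.Clean ∧ (∀ d, P'.Used d → P'.pt d ≠ P'.pt (P'.α d)) ∧
      (∀ g : ℕ → ℕ, g 0 = 0 → P'.cost g = P.cost g + g 2) ∧
      ∃ (l₁' l₂' : List P'.D) (c' b' : P'.D), P'.route e = l₁' ++ c' :: b' :: l₂' ∧
        P'.passes (P'.pt b') = P.passes (P.pt b) ∧ (P'.σ ^ (j + 1)) (P'.α c') = b' ∧
        (∀ i, 0 < i → i < j + 1 →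
          (P'.σ ^ i) (P'.α c') ≠ b' ∧ (P'.σ ^ i) (P'.α c') ≠ P'.α c') := by
  classical
  -- the segment of `a` and of `c₂` are used
  have hce : c ∈ P.route e := by rw [hr]; simp
  have hbe : b ∈ P.route e := by rw [hr]; simp
  set a : P.D := P.α c with ha
  have hαa : P.α a = c := by rw [ha, P.α_invol]
  have hUc : P.Used c := ⟨e, Or.inl hce⟩
  have hUa : P.Used a := ⟨e, Or.inr (by rw [hαa]; exact hce)⟩
  have hUb : P.Used b := ⟨e, Or.inl hbe⟩
  set c₂ : P.D := P.σ a with hc₂
  have hptac : P.pt a = P.pt c₂ := (P.pt_iff _ _).2 ⟨1, by rw [zpow_one]⟩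
  have hUc₂ : P.Used c₂ := hP _ _ hptac hUa
  have hne : a ≠ c₂ := by
    have := (hfirst 1 one_pos (by omega)).2
    rw [pow_one] at this
    exact this.symm
  have hbc₂ : c₂ ≠ b := by
    have := (hfirst 1 one_pos (by omega)).1
    rwa [pow_one] at this
  have hac : P.α a ≠ c₂ := by
    intro h'
    apply hL a hUa
    rw [h', hptac]
  have hptab : P.pt a = P.pt b := (P.pt_iff _ _).2 ⟨(j + 2 : ℕ), by rw [zpow_natCast]; exact hb⟩
  obtain ⟨σ', α', hp', hα', hne', hσ', hσ'', h1, h2, h3, h4, h5⟩ :=
    exists_cross_perm P.planar P.α_invol P.α_ne a c₂ rfl hne hac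
  have hD : M6.Data P.α α' a c₂ :=
    ⟨P.α_invol, P.α_ne _, P.α_ne _, hne, hac, hα', h1, h2, h3, h4, h5⟩
  -- usage of the segments
  have huse : ∀ d, P.Used d → ∑ e, ((P.route e).count d + (P.route e).count (P.α d)) = 1 := by
    intro d hd
    refine le_antisymm (P.route_use d) ?_
    obtain ⟨f, hf⟩ := hd
    have h6 : 1 ≤ (P.route f).count d + (P.route f).count (P.α d) := by
      rcases hf with hf | hf
      · have := List.count_pos_iff.2 hf
        omega
      · have := List.count_pos_iff.2 hf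
        omega
    exact h6.trans (Finset.single_le_sum (f := fun f => (P.route f).count d +
      (P.route f).count (P.α d)) (fun _ _ => Nat.zero_le _) (Finset.mem_univ f))
  have hba : b ≠ a := by
    intro h'
    have h6 := P.route_use c
    have h7 : 2 ≤ (P.route e).count c + (P.route e).count (P.α c) := by
      rw [← ha, ← h', hr]
      have hcb : c ≠ b := by rw [h', ha]; exact (P.α_ne c).symm
      simp [hcb, hcb.symm]
      omega
    have h8 := h7.trans (Finset.single_le_sum (f := fun f => (P.route f).count c +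
      (P.route f).count (P.α c)) (fun _ _ => Nat.zero_le _) (Finset.mem_univ e))
    omega
  have hbc : b ≠ c := by
    intro h'
    have h6 := P.route_use c
    have h7 : 2 ≤ (P.route e).count c + (P.route e).count (P.α c) := by
      rw [hr, h']
      simp
      omega
    have h8 := h7.trans (Finset.single_le_sum (f := fun f => (P.route f).count c +
      (P.route f).count (P.α c)) (fun _ _ => Nat.zero_le _) (Finset.mem_univ e))
    omega
  have hbαc₂ : b ≠ P.α c₂ := by
    intro h'
    apply hL b hUb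
    rw [h', P.α_invol, ← hptac, hptab, h']
  set P' := P.insertCrossing hptac σ' α' hp' hne' hσ' hσ'' hD with hP'
  -- passes
  have hpass : ∀ x, P'.passes (some x) = P.passes x := by
    intro x
    refine Finset.sum_congr rfl fun f _ => ?_
    exact hD.count_some_tail' hptac x _
  have hpassn : P'.passes none = 2 := by
    have : P'.passes none = ∑ f, (((P.route f).count a + (P.route f).count (P.α a)) +
        ((P.route f).count c₂ + (P.route f).count (P.α c₂))) :=
      Finset.sum_congr rfl fun f _ => hD.count_none_tail' hptac _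
    rw [this, Finset.sum_add_distrib, huse a hUa, huse c₂ hUc₂]
  -- used darts
  have hused : ∀ d, P'.Used d ↔ P.Used (M6.pre P.α a c₂ d) := by
    intro d
    constructor
    · rintro ⟨f, hf | hf⟩
      · exact ⟨f, Or.inl ((hD.mem_flatMap _ _).1 hf)⟩
      · refine ⟨f, Or.inr ?_⟩
        have h6 := (hD.mem_flatMap _ _).1 hf
        have h7 : M6.pre P.α a c₂ (P'.α d) = P.α (M6.pre P.α a c₂ d) := hD.pre_comm d
        rwa [h7] at h6
    · rintro ⟨f, hf | hf⟩
      · exact ⟨f, Or.inl ((hD.mem_flatMap _ _).2 hf)⟩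
      · refine ⟨f, Or.inr ?_⟩
        have h7 : M6.pre P.α a c₂ (P'.α d) = P.α (M6.pre P.α a c₂ d) := hD.pre_comm d
        rw [← h7] at hf
        exact (hD.mem_flatMap _ _).2 hf
  have hptpre : ∀ d, P.pt (M6.pre P.α a c₂ (Sum.inl d)) = P.pt d := by
    intro d
    by_cases e1 : d = a
    · simp [M6.pre, e1, hptac]
    · by_cases e2 : d = c₂
      · simp [M6.pre, e2, hptac, hne.symm]
      · simp [M6.pre, e1, e2]
  have hUα : ∀ d, P.Used d → P.Used (P.α d) := by
    rintro d ⟨f, hf⟩
    refine ⟨f, ?_⟩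
    rw [P.α_invol]
    exact hf.symm
  refine ⟨P', ?_, ?_, ?_, ?_⟩
  · -- clean
    rintro (d | i) (d' | i') he hu
    · have hu' := (hused (Sum.inl d)).1 hu
      refine (hused (Sum.inl d')).2 (hP _ _ ?_ hu')
      rw [hptpre, hptpre]
      exact Option.some_injective _ he
    · have he' : some (P.pt d) = none := he
      cases he'
    · have he' : none = some (P.pt d') := he
      cases he'
    · refine (hused (Sum.inr i')).2 ?_
      fin_cases i'
      · simpa [M6.pre] using hUa
      · simpa [M6.pre] using hUc₂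
      · simpa [M6.pre] using hUα _ hUa
      · simpa [M6.pre] using hUα _ hUc₂
  · -- no loops
    rintro (d | i) hu
    · rcases hD.cases d with h' | h' | h' | h' | ⟨k1, k2, k3, k4⟩
      · subst h'
        show M6.pt' P.pt (Sum.inl _) ≠ M6.pt' P.pt (α' (Sum.inl _))
        rw [h1]; simp [M6.pt']
      · subst h'
        show M6.pt' P.pt (Sum.inl _) ≠ M6.pt' P.pt (α' (Sum.inl _))
        rw [h3]; simp [M6.pt']
      · subst h'
        show M6.pt' P.pt (Sum.inl _) ≠ M6.pt' P.pt (α' (Sum.inl _))
        rw [h2]; simp [M6.pt']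
      · subst h'
        show M6.pt' P.pt (Sum.inl _) ≠ M6.pt' P.pt (α' (Sum.inl _))
        rw [h4]; simp [M6.pt']
      · have hu := (hused (Sum.inl d)).1 hu
        have h6 : M6.pre P.α a c₂ (Sum.inl d) = d := by simp [M6.pre, k1, k2]
        rw [h6] at hu
        show M6.pt' P.pt (Sum.inl _) ≠ M6.pt' P.pt (α' (Sum.inl _))
        rw [h5 d k1 k2 k3 k4]
        intro h7
        exact hL d hu (Option.some_injective _ h7)
    · have key : ∀ i : Fin 4, M6.pt' P.pt (Sum.inr i) ≠ M6.pt' P.pt (α' (Sum.inr i)) := by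
        intro i
        fin_cases i
        · simp only [Fin.zero_eta]
          rw [hD.h3']; simp [M6.pt']
        · simp only [Fin.mk_one]
          rw [hD.h4']; simp [M6.pt']
        · have : (⟨2, by norm_num⟩ : Fin 4) = 2 := rfl
          rw [this, hD.h2']; simp [M6.pt']
        · have : (⟨3, by norm_num⟩ : Fin 4) = 3 := rfl
          rw [this, hD.h1']; simp [M6.pt']
      exact key i
  · -- cost
    intro g _
    have h6 : P'.cost g = ∑ x : Option P.X, g (P'.passes x) := rfl
    rw [h6, Fintype.sum_option, hpassn, add_comm]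
    congr 1
    exact Finset.sum_congr rfl fun x _ => by rw [hpass]
  · refine ⟨(l₁.flatMap (M6.sub P.α a c₂)) ++ [Sum.inl c], l₂.flatMap (M6.sub P.α a c₂),
      Sum.inr 2, Sum.inl b, ?_, ?_, ?_, ?_⟩
    · show (P.route e).flatMap (M6.sub P.α a c₂) = _
      rw [hr, List.flatMap_append, List.flatMap_cons, List.flatMap_cons]
      have h6 : M6.sub P.α a c₂ c = [Sum.inl c, Sum.inr 2] := by
        have := hD.sub_αa
        rwa [hαa] at this
      rw [h6, hD.sub_other hba hbc₂.symm (by rw [hαa]; exact hbc) hbαc₂]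
      exact (List.append_assoc _ [Sum.inl c] (Sum.inr 2 :: Sum.inl b :: _)).symm
    · exact hpass _
    · have h6 : ∀ (n : ℕ) (d : P.D), (σ' ^ n) (Sum.inl d) = Sum.inl ((P.σ ^ n) d) := by
        intro n
        induction n with
        | zero => intro d; rfl
        | succ n ih => intro d; rw [pow_succ', Equiv.Perm.mul_apply, ih, hσ', pow_succ',
            Equiv.Perm.mul_apply]
      show (σ' ^ (j + 1)) (α' (Sum.inr 2)) = Sum.inl b
      rw [hD.h2', h6, ← hb, hc₂]
      rw [← Equiv.Perm.mul_apply, ← pow_succ]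
    · have h6 : ∀ (n : ℕ) (d : P.D), (σ' ^ n) (Sum.inl d) = Sum.inl ((P.σ ^ n) d) := by
        intro n
        induction n with
        | zero => intro d; rfl
        | succ n ih => intro d; rw [pow_succ', Equiv.Perm.mul_apply, ih, hσ', pow_succ',
            Equiv.Perm.mul_apply]
      intro i hi0 hi
      show (σ' ^ i) (α' (Sum.inr 2)) ≠ Sum.inl b ∧ (σ' ^ i) (α' (Sum.inr 2)) ≠ α' (Sum.inr 2)
      rw [hD.h2', h6]
      have h7 : (P.σ ^ i) c₂ = (P.σ ^ (i + 1)) a := by
        rw [hc₂, ← Equiv.Perm.mul_apply, ← pow_succ]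
      constructor
      · intro h8
        have h9 := Sum.inl_injective h8
        rw [h7] at h9
        exact (hfirst (i + 1) (by omega) (by omega)).1 h9
      · intro h8
        have h9 := Sum.inl_injective h8
        rw [h7, hc₂, pow_succ', Equiv.Perm.mul_apply] at h9
        exact (hfirst i hi0 (by omega)).2 (P.σ.injective h9)

end PreDrawing

end Helper5.CR
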