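import Mathlib

namespace Helper5.CR

open Finset

section A1
variable {V : Type} [Fintype V] [DecidableEq V]

theorem card_col_fixed (T : Finset V) (g : V → Bool) :
    (univ.filter (fun col : V → Bool => ∀ v ∈ T, col v = g v)).card * 2 ^ T.card =
      2 ^ Fintype.card V := by
  have h1 : (univ.filter (fun col : V → Bool => ∀ v ∈ T, col v = g v)) =
      Fintype.piFinset (fun v => if v ∈ T then {g v} else univ) := by
    ext col
    simp only [mem_filter, mem_univ, true_and, Fintype.mem_piFinset]
    constructor
    · intro h v
      by_cases hv : v ∈ T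
      · simp [hv, h v hv]
      · simp [hv]
    · intro h v hv
      have := h v
      simpa [hv] using this
  have h2 : ∀ v, (if v ∈ T then ({g v} : Finset Bool) else univ).card = if v ∈ T then 1 else 2 := by
    intro v
    split_ifs <;> simp
  rw [h1, Fintype.card_piFinset, Finset.prod_congr rfl (fun v _ => h2 v)]
  rw [Finset.prod_ite]
  simp only [prod_const, one_pow, one_mul]
  rw [← pow_add]
  congr 1
  have h3 := Finset.card_filter_add_card_filter_not (s := (univ : Finset V)) (fun v => v ∈ T)
  simp only [filter_mem_eq_inter, univ_inter, card_univ] at h3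
  omega

theorem sum_col_four {a b c d : V} (hab : a ≠ b) (hac : a ≠ c) (had : a ≠ d) (hbc : b ≠ c)
    (hbd : b ≠ d) (hcd : c ≠ d) (F : Bool → Bool → Bool → Bool → ℕ) :
    16 * ∑ col : V → Bool, F (col a) (col b) (col c) (col d) =
      2 ^ Fintype.card V * ∑ p : Bool, ∑ q : Bool, ∑ r : Bool, ∑ s : Bool, F p q r s := by
  have hcard : ({a, b, c, d} : Finset V).card = 4 := by
    rw [card_insert_of_notMem, card_insert_of_notMem, card_insert_of_notMem, card_singleton]
    · simpa using hcd
    · simp [hbc, hbd]
    · simp [hab, hac, had]
  have key : ∀ p q r s : Bool,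
      16 * (univ.filter (fun col : V → Bool => col a = p ∧ col b = q ∧ col c = r ∧ col d = s)).card
        = 2 ^ Fintype.card V := by
    intro p q r s
    let g : V → Bool := fun v => if v = a then p else if v = b then q else if v = c then r else s
    have := card_col_fixed ({a, b, c, d} : Finset V) g
    rw [hcard] at this
    rw [← this, mul_comm]
    congr 2
    ext col
    simp only [mem_filter, mem_univ, true_and, mem_insert, mem_singleton, forall_eq_or_imp,
      forall_eq, g]
    simp [Ne.symm hab, Ne.symm hac, Ne.symm had, Ne.symm hbc, Ne.symm hbd, Ne.symm hcd]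
  have h1 : ∀ col : V → Bool, F (col a) (col b) (col c) (col d) =
      ∑ p : Bool, ∑ q : Bool, ∑ r : Bool, ∑ s : Bool,
        if col a = p ∧ col b = q ∧ col c = r ∧ col d = s then F p q r s else 0 := by
    intro col
    rcases ha : col a <;> rcases hb : col b <;> rcases hc : col c <;> rcases hd : col d <;> simp
  have h2 : ∑ col : V → Bool, F (col a) (col b) (col c) (col d) =
      ∑ p : Bool, ∑ q : Bool, ∑ r : Bool, ∑ s : Bool,
        (univ.filter (fun col : V → Bool => col a = p ∧ col b = q ∧ col c = r ∧ col d = s)).card
          * F p q r s := by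
    rw [Finset.sum_congr rfl (fun col _ => h1 col)]
    rw [Finset.sum_comm]
    refine Finset.sum_congr rfl fun p _ => ?_
    rw [Finset.sum_comm]
    refine Finset.sum_congr rfl fun q _ => ?_
    rw [Finset.sum_comm]
    refine Finset.sum_congr rfl fun r _ => ?_
    rw [Finset.sum_comm]
    refine Finset.sum_congr rfl fun s _ => ?_
    rw [← Finset.sum_filter, Finset.sum_const, smul_eq_mul]
  rw [h2]
  simp only [Finset.mul_sum]
  refine Finset.sum_congr rfl fun p _ => Finset.sum_congr rfl fun q _ =>
    Finset.sum_congr rfl fun r _ => Finset.sum_congr rfl fun s _ => ?_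
  rw [← mul_assoc, key]

end A1
end Helper5.CR
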