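import Pool.Agent.Helper5.CR.A1

namespace Helper5.CR

open Finset

/-- An abstract crossing system: crossings `x` between the edges `e₁ x` and `e₂ x`, whose four
endpoints are distinct; two edges cross at most once. -/
structure CSys (V E X : Type) where
  src : E → V
  tgt : E → V
  e₁ : X → E
  e₂ : X → E
  loop : ∀ e, src e ≠ tgt e
  ne : ∀ x, e₁ x ≠ e₂ x
  h1 : ∀ x, src (e₁ x) ≠ src (e₂ x)
  h2 : ∀ x, src (e₁ x) ≠ tgt (e₂ x)
  h3 : ∀ x, tgt (e₁ x) ≠ src (e₂ x)
  h4 : ∀ x, tgt (e₁ x) ≠ tgt (e₂ x)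
  once : ∀ x y, ((e₁ x = e₁ y ∧ e₂ x = e₂ y) ∨ (e₁ x = e₂ y ∧ e₂ x = e₁ y)) → x = y

namespace CSys

set_option linter.unusedSectionVars false

variable {V E X : Type} [Fintype V] [DecidableEq V] [Fintype E] [DecidableEq E] [Fintype X]
  [DecidableEq X]

variable (C : CSys V E X)

/-- number of crossings on the edge `e` -/
def k (e : E) : ℕ := (univ.filter (fun x => C.e₁ x = e ∨ C.e₂ x = e)).card

/-- the edge is monochromatic -/
def mono (col : V → Bool) (e : E) : Prop := col (C.src e) = col (C.tgt e)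

instance (col : V → Bool) : DecidablePred (C.mono col) := fun _ => decEq _ _

/-- base cost -/
def base (col : V → Bool) (x : X) : ℕ :=
  (if C.mono col (C.e₁ x) ∧ C.mono col (C.e₂ x) ∧ col (C.src (C.e₁ x)) = col (C.src (C.e₂ x))
    then 1 else 0) +
  (if ¬ C.mono col (C.e₁ x) ∧ ¬ C.mono col (C.e₂ x) then 1 else 0)

theorem sum_four (F : Bool → Bool → Bool → Bool → ℕ) (x : X) :
    16 * ∑ col : V → Bool, F (col (C.src (C.e₁ x))) (col (C.tgt (C.e₁ x))) (col (C.src (C.e₂ x)))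
      (col (C.tgt (C.e₂ x))) =
      2 ^ Fintype.card V * ∑ p : Bool, ∑ q : Bool, ∑ r : Bool, ∑ s : Bool, F p q r s :=
  sum_col_four (C.loop _) (C.h1 x) (C.h2 x) (C.h3 x) (C.h4 x) (C.loop _) F

theorem sum_base (x : X) : 8 * ∑ col : V → Bool, C.base col x = 3 * 2 ^ Fintype.card V := by
  have := C.sum_four (fun p q r s => (if p = q ∧ r = s ∧ p = r then 1 else 0) +
    (if ¬ p = q ∧ ¬ r = s then 1 else 0)) x
  simp only [Fintype.sum_bool] at this
  have h2 : ∑ col : V → Bool, C.base col x = ∑ col : V → Bool,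
      ((if col (C.src (C.e₁ x)) = col (C.tgt (C.e₁ x)) ∧ col (C.src (C.e₂ x)) =
        col (C.tgt (C.e₂ x)) ∧ col (C.src (C.e₁ x)) = col (C.src (C.e₂ x)) then 1 else 0) +
      (if ¬ col (C.src (C.e₁ x)) = col (C.tgt (C.e₁ x)) ∧ ¬ col (C.src (C.e₂ x)) =
        col (C.tgt (C.e₂ x)) then 1 else 0)) := rfl
  rw [h2]
  simp at this ⊢
  omega

theorem sum_base_total :
    8 * ∑ col : V → Bool, ∑ x, C.base col x = 3 * Fintype.card X * 2 ^ Fintype.card V := by
  rw [Finset.sum_comm, Finset.mul_sum, Finset.sum_congr rfl (fun x _ => C.sum_base x)]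
  simp
  ring

/-- strict improvement -/
theorem exists_base_lt (hX : 0 < Fintype.card X) :
    ∃ col : V → Bool, 8 * ∑ x, C.base col x < 3 * Fintype.card X := by
  by_contra hcon
  push Not at hcon
  have h1 := C.sum_base_total
  have h2 : ∑ x, C.base (fun _ => true) x = Fintype.card X := by
    simp [base, mono]
  have h3 : ∑ col : V → Bool, 3 * Fintype.card X < ∑ col : V → Bool, 8 * ∑ x, C.base col x := by
    apply Finset.sum_lt_sum (fun col _ => hcon col)
    exact ⟨fun _ => true, mem_univ _, by rw [h2]; omega⟩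
  rw [Finset.sum_const, ← Finset.mul_sum, h1, card_univ, smul_eq_mul] at h3
  have : Fintype.card (V → Bool) = 2 ^ Fintype.card V := by simp
  rw [this, mul_comm] at h3
  exact lt_irrefl _ h3

theorem sum_k (W : Finset E) :
    ∑ e ∈ W, C.k e = ∑ x, ((if C.e₁ x ∈ W then 1 else 0) + (if C.e₂ x ∈ W then 1 else 0)) := by
  have h1 : ∀ e, C.k e = ∑ x, ((if C.e₁ x = e then 1 else 0) + (if C.e₂ x = e then 1 else 0)) := by
    intro e
    rw [k, Finset.card_filter]
    refine Finset.sum_congr rfl fun x _ => ?_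
    have := C.ne x
    by_cases h1 : C.e₁ x = e
    · have h2 : C.e₂ x ≠ e := fun h => this (h1.trans h.symm)
      simp [h1, h2]
    · simp [h1]
  rw [Finset.sum_congr rfl (fun e _ => h1 e), Finset.sum_comm]
  refine Finset.sum_congr rfl fun x _ => ?_
  rw [Finset.sum_add_distrib]
  simp

/-! ### the dense case -/

/-- the function to be summed, for given booleans -/
def FF (f1 f2 w1 w2 b1 b2 : Bool) (p q r s : Bool) : ℕ :=
  (if f1 = false ∧ f2 = false ∧ (p = q ∨ w1 = true) ∧ (r = s ∨ w2 = true) ∧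
    (if b1 then p else q) = (if b2 then r else s) then 1 else 0) +
  (if (f1 = true ∨ (p ≠ q ∧ w1 = false)) ∧ (f2 = true ∨ (r ≠ s ∧ w2 = false)) then 1 else 0)

theorem FF_bound : ∀ f1 f2 w1 w2 b1 b2 : Bool, ¬ (f1 = true ∧ w1 = true) →
    ¬ (f2 = true ∧ w2 = true) → ¬ (f1 = true ∧ f2 = true) →
    (∑ p : Bool, ∑ q : Bool, ∑ r : Bool, ∑ s : Bool, FF f1 f2 w1 w2 b1 b2 p q r s) +
      2 * ((if w1 then 1 else 0) + (if w2 then 1 else 0)) ≤
    2 * (3 + ((if f1 then 1 else 0) + (if f2 then 1 else 0)) +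
      3 * (if w1 = true ∧ w2 = true then 1 else 0)) := by decide

/-- plane 1 cost at `x` in the dense construction -/
def pl1 (f : E) (W : Finset E) (c₁ c₂ : X → V) (col : V → Bool) (x : X) : ℕ :=
  if C.e₁ x ≠ f ∧ C.e₂ x ≠ f ∧ (C.mono col (C.e₁ x) ∨ C.e₁ x ∈ W) ∧
    (C.mono col (C.e₂ x) ∨ C.e₂ x ∈ W) ∧ col (c₁ x) = col (c₂ x) then 1 else 0

/-- plane 2 cost at `x` in the dense construction -/
def pl2 (f : E) (W : Finset E) (col : V → Bool) (x : X) : ℕ :=
  if (C.e₁ x = f ∨ (¬ C.mono col (C.e₁ x) ∧ C.e₁ x ∉ W)) ∧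
    (C.e₂ x = f ∨ (¬ C.mono col (C.e₂ x) ∧ C.e₂ x ∉ W)) then 1 else 0

theorem sum_dense (f : E) (W : Finset E) (hf : f ∉ W) (c₁ c₂ : X → V)
    (hc₁ : ∀ x, c₁ x = C.src (C.e₁ x) ∨ c₁ x = C.tgt (C.e₁ x))
    (hc₂ : ∀ x, c₂ x = C.src (C.e₂ x) ∨ c₂ x = C.tgt (C.e₂ x)) (x : X) :
    8 * ∑ col : V → Bool, (C.pl1 f W c₁ c₂ col x + C.pl2 f W col x) + 2 ^ Fintype.card V *
      ((if C.e₁ x ∈ W then 1 else 0) + (if C.e₂ x ∈ W then 1 else 0)) ≤
    2 ^ Fintype.card V * (3 + ((if C.e₁ x = f then 1 else 0) + (if C.e₂ x = f then 1 else 0)) +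
      3 * (if C.e₁ x ∈ W ∧ C.e₂ x ∈ W then 1 else 0)) := by
  classical
  set f1 : Bool := decide (C.e₁ x = f) with hf1
  set f2 : Bool := decide (C.e₂ x = f) with hf2
  set w1 : Bool := decide (C.e₁ x ∈ W) with hw1
  set w2 : Bool := decide (C.e₂ x ∈ W) with hw2
  set b1 : Bool := decide (c₁ x = C.src (C.e₁ x)) with hb1
  set b2 : Bool := decide (c₂ x = C.src (C.e₂ x)) with hb2
  have h1 := C.sum_four (FF f1 f2 w1 w2 b1 b2) x
  have h2 := FF_bound f1 f2 w1 w2 b1 b2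
    (by rintro ⟨h, h'⟩; exact hf (by rw [← of_decide_eq_true h]; exact of_decide_eq_true h'))
    (by rintro ⟨h, h'⟩; exact hf (by rw [← of_decide_eq_true h]; exact of_decide_eq_true h'))
    (by rintro ⟨h, h'⟩; exact C.ne x ((of_decide_eq_true h).trans (of_decide_eq_true h').symm))
  have h3 : ∀ col : V → Bool, C.pl1 f W c₁ c₂ col x + C.pl2 f W col x =
      FF f1 f2 w1 w2 b1 b2 (col (C.src (C.e₁ x))) (col (C.tgt (C.e₁ x))) (col (C.src (C.e₂ x)))
      (col (C.tgt (C.e₂ x))) := by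
    intro col
    have e1 : col (c₁ x) = if b1 then col (C.src (C.e₁ x)) else col (C.tgt (C.e₁ x)) := by
      by_cases h : c₁ x = C.src (C.e₁ x)
      · rw [if_pos (by simp [hb1, h]), h]
      · rw [if_neg (by simp [hb1, h]), (hc₁ x).resolve_left h]
    have e2 : col (c₂ x) = if b2 then col (C.src (C.e₂ x)) else col (C.tgt (C.e₂ x)) := by
      by_cases h : c₂ x = C.src (C.e₂ x)
      · rw [if_pos (by simp [hb2, h]), h]
      · rw [if_neg (by simp [hb2, h]), (hc₂ x).resolve_left h]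
    unfold pl1 pl2 FF mono
    rw [e1, e2]
    refine congrArg₂ (· + ·) (if_congr ?_ rfl rfl) (if_congr ?_ rfl rfl)
    · simp only [hf1, hf2, hw1, hw2, decide_eq_false_iff_not, decide_eq_true_eq, ne_eq]
    · simp only [hf1, hf2, hw1, hw2, decide_eq_false_iff_not, decide_eq_true_eq, ne_eq]
  rw [Finset.sum_congr rfl (fun col _ => h3 col)]
  have g1 : (if C.e₁ x ∈ W then 1 else 0 : ℕ) = if w1 then 1 else 0 := by simp [hw1]
  have g2 : (if C.e₂ x ∈ W then 1 else 0 : ℕ) = if w2 then 1 else 0 := by simp [hw2]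
  have g3 : (if C.e₁ x = f then 1 else 0 : ℕ) = if f1 then 1 else 0 := by simp [hf1]
  have g4 : (if C.e₂ x = f then 1 else 0 : ℕ) = if f2 then 1 else 0 := by simp [hf2]
  have g5 : (if C.e₁ x ∈ W ∧ C.e₂ x ∈ W then 1 else 0 : ℕ) =
      if w1 = true ∧ w2 = true then 1 else 0 := by simp [hw1, hw2]
  rw [g1, g2, g3, g4, g5]
  have h4 := Nat.mul_le_mul_left (2 ^ Fintype.card V) h2
  rw [Nat.mul_add, ← h1] at h4
  have h5 : 2 * (8 * ∑ col : V → Bool, FF f1 f2 w1 w2 b1 b2 (col (C.src (C.e₁ x)))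
      (col (C.tgt (C.e₁ x))) (col (C.src (C.e₂ x))) (col (C.tgt (C.e₂ x))) +
      2 ^ Fintype.card V * ((if w1 then 1 else 0) + (if w2 then 1 else 0))) ≤
      2 * (2 ^ Fintype.card V * (3 + ((if f1 then 1 else 0) + (if f2 then 1 else 0)) +
        3 * (if w1 = true ∧ w2 = true then 1 else 0))) := by
    calc _ = _ := by ring
      _ ≤ _ := h4
      _ = _ := by ring
  omega

theorem card_both (W : Finset E) :
    ∑ x, (if C.e₁ x ∈ W ∧ C.e₂ x ∈ W then 1 else 0) ≤ W.card ^ 2 := by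
  rw [← Finset.card_filter, sq, ← Finset.card_product]
  refine Finset.card_le_card_of_injOn (fun x => (C.e₁ x, C.e₂ x)) ?_ ?_
  · intro x hx
    simpa using hx
  · intro x _ y _ h
    simp only [Prod.mk.injEq] at h
    exact C.once x y (Or.inl h)

/-- the average in the dense construction -/
theorem exists_dense (f : E) (W : Finset E) (hf : f ∉ W) (c₁ c₂ : X → V)
    (hc₁ : ∀ x, c₁ x = C.src (C.e₁ x) ∨ c₁ x = C.tgt (C.e₁ x))
    (hc₂ : ∀ x, c₂ x = C.src (C.e₂ x) ∨ c₂ x = C.tgt (C.e₂ x)) :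
    ∃ col : V → Bool, 8 * ∑ x, (C.pl1 f W c₁ c₂ col x + C.pl2 f W col x) + ∑ e ∈ W, C.k e ≤
      3 * Fintype.card X + C.k f + 3 * W.card ^ 2 := by
  by_contra hcon
  push Not at hcon
  have h1 : 8 * ∑ col : V → Bool, ∑ x, (C.pl1 f W c₁ c₂ col x + C.pl2 f W col x) +
      2 ^ Fintype.card V * ∑ e ∈ W, C.k e ≤
      2 ^ Fintype.card V * (3 * Fintype.card X + C.k f + 3 * W.card ^ 2) := by
    have h2 := Finset.sum_le_sum (fun x (_ : x ∈ (univ : Finset X)) =>
      C.sum_dense f W hf c₁ c₂ hc₁ hc₂ x)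
    rw [Finset.sum_add_distrib, ← Finset.mul_sum, ← Finset.mul_sum, ← C.sum_k, ← Finset.mul_sum,
      Finset.sum_add_distrib, Finset.sum_add_distrib, ← Finset.mul_sum] at h2
    rw [Finset.sum_comm]
    refine h2.trans ?_
    apply Nat.mul_le_mul_left
    have h3 := C.card_both W
    have h4 := C.sum_k {f}
    simp only [Finset.sum_singleton, Finset.mem_singleton] at h4
    rw [← h4]
    simp only [Finset.sum_const, card_univ, smul_eq_mul]
    omega
  have h3 : ∑ col : V → Bool, (3 * Fintype.card X + C.k f + 3 * W.card ^ 2) <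
      ∑ col : V → Bool, (8 * ∑ x, (C.pl1 f W c₁ c₂ col x + C.pl2 f W col x) +
        ∑ e ∈ W, C.k e) := by
    apply Finset.sum_lt_sum_of_nonempty
    · exact ⟨fun _ => true, mem_univ _⟩
    · intro col _
      exact hcon col
  have : Fintype.card (V → Bool) = 2 ^ Fintype.card V := by simp
  rw [Finset.sum_const, card_univ, smul_eq_mul, this, Finset.sum_add_distrib, ← Finset.mul_sum,
    Finset.sum_const, card_univ, smul_eq_mul, this] at h3
  omega

end CSys

end Helper5.CR
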