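import Pool.Agent.Helper5.CR.A2

namespace Helper5.CR

open Finset

namespace CSys

set_option linter.unusedSectionVars false

variable {V E X : Type} [Fintype V] [DecidableEq V] [Fintype E] [DecidableEq E] [Fintype X]
  [DecidableEq X]

variable (C : CSys V E X)

/-! ### the sparse case -/

/-- number of crossings of `e` with monochromatic edges of the same colour, minus number of
crossings of `e` with bichromatic edges -/
def diff (col : V → Bool) (e : E) : ℤ :=
  ∑ x, ((if C.e₁ x = e then
      ((if C.mono col (C.e₂ x) ∧ col (C.src (C.e₂ x)) = col (C.src e) then 1 else 0) -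
        (if ¬ C.mono col (C.e₂ x) then 1 else 0)) else 0) +
    (if C.e₂ x = e then
      ((if C.mono col (C.e₁ x) ∧ col (C.src (C.e₁ x)) = col (C.src e) then 1 else 0) -
        (if ¬ C.mono col (C.e₁ x) then 1 else 0)) else 0))

/-- the edges moved to the second plane -/
def moved (I : Finset E) (col : V → Bool) (e : E) : Prop :=
  e ∈ I ∧ C.mono col e ∧ 0 < C.diff col e

instance (I : Finset E) (col : V → Bool) : DecidablePred (C.moved I col) := fun _ =>
  instDecidableAnd

/-- cost of the modified decomposition -/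
def cost1 (I : Finset E) (col : V → Bool) (x : X) : ℕ :=
  (if (C.mono col (C.e₁ x) ∧ ¬ C.moved I col (C.e₁ x)) ∧
      (C.mono col (C.e₂ x) ∧ ¬ C.moved I col (C.e₂ x)) ∧
      col (C.src (C.e₁ x)) = col (C.src (C.e₂ x)) then 1 else 0) +
  (if (¬ C.mono col (C.e₁ x) ∨ C.moved I col (C.e₁ x)) ∧
      (¬ C.mono col (C.e₂ x) ∨ C.moved I col (C.e₂ x)) then 1 else 0)

theorem cost1_eq (I : Finset E) (hI : ∀ x, ¬ (C.e₁ x ∈ I ∧ C.e₂ x ∈ I)) (col : V → Bool) :
    ((∑ x, C.cost1 I col x : ℕ) : ℤ) + ∑ e ∈ univ.filter (C.moved I col), C.diff col e =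
      ((∑ x, C.base col x : ℕ) : ℤ) := by
  unfold diff
  rw [Finset.sum_comm]
  push_cast
  rw [← Finset.sum_add_distrib]
  refine Finset.sum_congr rfl fun x _ => ?_
  rw [Finset.sum_add_distrib, Finset.sum_ite_eq, Finset.sum_ite_eq]
  simp only [mem_filter, mem_univ, true_and]
  have h1 : C.moved I col (C.e₁ x) → ¬ C.moved I col (C.e₂ x) := fun h h' => hI x ⟨h.1, h'.1⟩
  have h2 : C.moved I col (C.e₁ x) → C.mono col (C.e₁ x) := fun h => h.2.1
  have h3 : C.moved I col (C.e₂ x) → C.mono col (C.e₂ x) := fun h => h.2.1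
  have h4 : (col (C.src (C.e₁ x)) = col (C.src (C.e₂ x))) ↔
    (col (C.src (C.e₂ x)) = col (C.src (C.e₁ x))) := eq_comm
  unfold cost1 base
  by_cases g1 : C.moved I col (C.e₁ x)
  · have g2 := h1 g1
    have g3 := h2 g1
    by_cases g4 : C.mono col (C.e₂ x)
    · by_cases g5 : col (C.src (C.e₂ x)) = col (C.src (C.e₁ x)) <;> simp [g1, g2, g3, g4, g5, h4]
    · simp [g1, g2, g3, g4]
  · by_cases g2 : C.moved I col (C.e₂ x)
    · have g3 := h3 g2
      by_cases g4 : C.mono col (C.e₁ x)
      · by_cases g5 : col (C.src (C.e₁ x)) = col (C.src (C.e₂ x)) <;> simp [g1, g2, g3, g4, g5]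
      · simp [g1, g2, g3, g4]
    · simp [g1, g2]

/-- the vertices of `e` and of the edges crossing it -/
def nbv (e : E) : Finset V :=
  {C.src e, C.tgt e} ∪ (univ.filter (fun x => C.e₁ x = e ∨ C.e₂ x = e)).biUnion
    (fun x => if C.e₁ x = e then {C.src (C.e₂ x), C.tgt (C.e₂ x)}
      else {C.src (C.e₁ x), C.tgt (C.e₁ x)})

theorem card_nbv (e : E) : (C.nbv e).card ≤ 2 + 2 * C.k e := by
  unfold nbv k
  refine (card_union_le _ _).trans ?_
  refine add_le_add (card_insert_le _ _ |>.trans (by simp)) ?_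
  refine card_biUnion_le.trans ?_
  rw [mul_comm]
  refine (Finset.sum_le_card_nsmul _ _ 2 ?_).trans (by simp)
  intro x _
  split_ifs
  · exact card_insert_le _ _ |>.trans (by simp)
  · exact card_insert_le _ _ |>.trans (by simp)

theorem diff_pos (e : E) (hk : 0 < C.k e) (col : V → Bool) (h : ∀ v ∈ C.nbv e, col v = true) :
    0 < C.diff col e := by
  have hmem : ∀ x, C.e₁ x = e → C.src (C.e₂ x) ∈ C.nbv e ∧ C.tgt (C.e₂ x) ∈ C.nbv e := by
    intro x hx
    unfold nbv
    simp only [mem_union, mem_biUnion, mem_filter, mem_univ, true_and]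
    refine ⟨Or.inr ⟨x, Or.inl hx, by simp [hx]⟩, Or.inr ⟨x, Or.inl hx, by simp [hx]⟩⟩
  have hmem' : ∀ x, C.e₂ x = e → C.src (C.e₁ x) ∈ C.nbv e ∧ C.tgt (C.e₁ x) ∈ C.nbv e := by
    intro x hx
    have hx' : C.e₁ x ≠ e := fun h' => C.ne x (h'.trans hx.symm)
    unfold nbv
    simp only [mem_union, mem_biUnion, mem_filter, mem_univ, true_and]
    refine ⟨Or.inr ⟨x, Or.inr hx, by simp [hx']⟩, Or.inr ⟨x, Or.inr hx, by simp [hx']⟩⟩
  have hs : col (C.src e) = true := h _ (by unfold nbv; simp)
  have hval : ∀ x, (((if C.e₁ x = e then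
      ((if C.mono col (C.e₂ x) ∧ col (C.src (C.e₂ x)) = col (C.src e) then 1 else 0) -
        (if ¬ C.mono col (C.e₂ x) then 1 else 0)) else 0) +
    (if C.e₂ x = e then
      ((if C.mono col (C.e₁ x) ∧ col (C.src (C.e₁ x)) = col (C.src e) then 1 else 0) -
        (if ¬ C.mono col (C.e₁ x) then 1 else 0)) else 0)) : ℤ) =
      if C.e₁ x = e ∨ C.e₂ x = e then 1 else 0 := by
    intro x
    by_cases h1 : C.e₁ x = e
    · have h2 : C.e₂ x ≠ e := fun h' => C.ne x (h1.trans h'.symm)
      have h3 := h _ (hmem x h1).1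
      have h4 := h _ (hmem x h1).2
      simp [h1, h2, mono, h3, h4, hs]
    · by_cases h2 : C.e₂ x = e
      · have h3 := h _ (hmem' x h2).1
        have h4 := h _ (hmem' x h2).2
        simp [h1, h2, mono, h3, h4, hs]
      · simp [h1, h2]
  unfold diff
  rw [Finset.sum_congr rfl (fun x _ => hval x), ← Finset.sum_filter]
  simp only [sum_const, nsmul_eq_mul, mul_one]
  exact_mod_cast hk

theorem card_moved (I : Finset E) (hk : ∀ e ∈ I, 0 < C.k e) (K : ℕ) (hK : ∀ e ∈ I, C.k e ≤ K)
    (e : E) (he : e ∈ I) :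
    2 ^ Fintype.card V ≤
      2 ^ (2 + 2 * K) * (univ.filter (fun col : V → Bool => C.moved I col e)).card := by
  have h1 := card_col_fixed (C.nbv e) (fun _ => true)
  have h2 : (univ.filter (fun col : V → Bool => ∀ v ∈ C.nbv e, col v = true)) ⊆
      (univ.filter (fun col : V → Bool => C.moved I col e)) := by
    intro col hcol
    simp only [mem_filter, mem_univ, true_and] at hcol ⊢
    refine ⟨he, ?_, C.diff_pos e (hk e he) col hcol⟩
    unfold mono
    rw [hcol (C.src e) (by unfold nbv; simp), hcol (C.tgt e) (by unfold nbv; simp)]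
  rw [← h1, mul_comm]
  refine Nat.mul_le_mul ?_ (card_le_card h2)
  apply Nat.pow_le_pow_right (by norm_num)
  exact (C.card_nbv e).trans (by have := hK e he; omega)

/-- the average in the sparse construction -/
theorem exists_sparse (I : Finset E) (hI : ∀ x, ¬ (C.e₁ x ∈ I ∧ C.e₂ x ∈ I))
    (hk : ∀ e ∈ I, 0 < C.k e) (K : ℕ) (hK : ∀ e ∈ I, C.k e ≤ K) :
    ∃ col : V → Bool, 2 ^ (2 + 2 * K) * (8 * ∑ x, C.cost1 I col x) + 8 * I.card ≤
      2 ^ (2 + 2 * K) * (3 * Fintype.card X) := by
  by_contra hcon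
  push Not at hcon
  have h1 : ∀ col : V → Bool, ∑ x, C.cost1 I col x + (univ.filter (C.moved I col)).card ≤
      ∑ x, C.base col x := by
    intro col
    have h2 := C.cost1_eq I hI col
    have h3 : ((univ.filter (C.moved I col)).card : ℤ) ≤
        ∑ e ∈ univ.filter (C.moved I col), C.diff col e := by
      rw [Finset.card_eq_sum_ones]
      push_cast
      apply Finset.sum_le_sum
      intro e he
      simp only [mem_filter, mem_univ, true_and] at he
      exact he.2.2
    have : ((∑ x, C.cost1 I col x + (univ.filter (C.moved I col)).card : ℕ) : ℤ) ≤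
        ((∑ x, C.base col x : ℕ) : ℤ) := by
      rw [← h2]; push_cast; push_cast at h3; linarith
    exact_mod_cast this
  have h4 := Finset.sum_le_sum (fun col (_ : col ∈ (univ : Finset (V → Bool))) => h1 col)
  rw [Finset.sum_add_distrib] at h4
  have h5 := C.sum_base_total
  have h6 : I.card * 2 ^ Fintype.card V ≤
      2 ^ (2 + 2 * K) * ∑ col : V → Bool, (univ.filter (C.moved I col)).card := by
    have h7 : ∑ col : V → Bool, (univ.filter (C.moved I col)).card =
        ∑ e : E, (univ.filter (fun col : V → Bool => C.moved I col e)).card := by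
      simp only [Finset.card_filter]
      rw [Finset.sum_comm]
    have h8 : ∑ e ∈ I, (univ.filter (fun col : V → Bool => C.moved I col e)).card ≤
        ∑ e : E, (univ.filter (fun col : V → Bool => C.moved I col e)).card :=
      Finset.sum_le_sum_of_subset (subset_univ _)
    rw [h7]
    refine le_trans ?_ (Nat.mul_le_mul_left _ h8)
    rw [Finset.mul_sum, ← smul_eq_mul, ← Finset.sum_const]
    exact Finset.sum_le_sum (fun e he => C.card_moved I hk K hK e he)
  have h9 : ∑ col : V → Bool, 2 ^ (2 + 2 * K) * (3 * Fintype.card X) <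
      ∑ col : V → Bool, (2 ^ (2 + 2 * K) * (8 * ∑ x, C.cost1 I col x) + 8 * I.card) := by
    apply Finset.sum_lt_sum_of_nonempty
    · exact ⟨fun _ => true, mem_univ _⟩
    · intro col _
      exact hcon col
  have : Fintype.card (V → Bool) = 2 ^ Fintype.card V := by simp
  rw [Finset.sum_const, card_univ, smul_eq_mul, this, Finset.sum_add_distrib, ← Finset.mul_sum,
    ← Finset.mul_sum, Finset.sum_const, card_univ, smul_eq_mul, this] at h9
  have h10 := Nat.mul_le_mul_left (2 ^ (2 + 2 * K) * 8) h4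
  have h11 : 2 ^ (2 + 2 * K) * (8 * ∑ col : V → Bool, ∑ x, C.base col x) =
      2 ^ (2 + 2 * K) * (3 * Fintype.card X * 2 ^ Fintype.card V) := by rw [h5]
  nlinarith [h6, h9, h10, h11]

end CSys

end Helper5.CR
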