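import Pool.Agent.Helper5.CR.A3

namespace Helper5.CR

open Finset

/-! ### choosing a window in a list -/

theorem exists_prefix {α : Type} (b : α → Bool) (t : List α) (k : ℕ) (hk : k ≤ t.countP b) :
    ∃ p r, t = p ++ r ∧ p.countP b = k := by
  induction t generalizing k with
  | nil => simp at hk; subst hk; exact ⟨[], [], rfl, rfl⟩
  | cons d t ih =>
    rcases Nat.eq_zero_or_pos k with h0 | h0
    · subst h0; exact ⟨[], d :: t, rfl, rfl⟩
    · rw [List.countP_cons] at hk
      by_cases hd : b d = true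
      · rw [if_pos hd] at hk
        obtain ⟨p, r, h1, h2⟩ := ih (k - 1) (by omega)
        exact ⟨d :: p, r, by rw [h1]; rfl, by rw [List.countP_cons, if_pos hd, h2]; omega⟩
      · rw [if_neg hd] at hk
        obtain ⟨p, r, h1, h2⟩ := ih k (by omega)
        exact ⟨d :: p, r, by rw [h1]; rfl, by rw [List.countP_cons, if_neg hd, h2]; omega⟩

theorem exists_chunk {α : Type} (a : α → ℕ) (b : α → Bool) (w : ℕ) (q : ℕ) (hq : 1 ≤ q)
    (t : List α) (ht : t.countP b ≤ q * w) :
    ∃ t₀ t₁ t₂, t = t₀ ++ t₁ ++ t₂ ∧ t₁.countP b ≤ w ∧ (t.map a).sum ≤ q * (t₁.map a).sum := by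
  induction q, hq using Nat.le_induction generalizing t with
  | base => exact ⟨[], t, [], by simp, by simpa using ht, by simp⟩
  | succ q hq ih =>
    by_cases hw : t.countP b ≤ w
    · exact ⟨[], t, [], by simp, hw, Nat.le_mul_of_pos_left _ (by omega)⟩
    · obtain ⟨p, r, h1, h2⟩ := exists_prefix b t w (by omega)
      have h3 : r.countP b ≤ q * w := by
        rw [h1, List.countP_append, h2] at ht
        have : (q + 1) * w = q * w + w := by ring
        omega
      obtain ⟨t₀, t₁, t₂, h4, h5, h6⟩ := ih r h3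
      have h7 : (t.map a).sum = (p.map a).sum + (r.map a).sum := by rw [h1]; simp
      by_cases hc : (p.map a).sum ≤ (t₁.map a).sum
      · refine ⟨p ++ t₀, t₁, t₂, by rw [h1, h4]; simp, h5, ?_⟩
        rw [h7]; nlinarith
      · refine ⟨[], p, r, by rw [h1]; simp, h2.le, ?_⟩
        rw [h7]; nlinarith

theorem exists_window {α : Type} (a : α → ℕ) (b : α → Bool) (w : ℕ) (hw : 2 ≤ w) (q : ℕ)
    (hq : 1 ≤ q) (t : List α) (ht : t.countP b ≤ q * w) (ht2 : 2 ≤ t.length) :
    ∃ t₀ t₁ t₂, t = t₀ ++ t₁ ++ t₂ ∧ 2 ≤ t₁.length ∧ t₁.countP b ≤ w ∧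
      (t.map a).sum ≤ q * (t₁.map a).sum := by
  obtain ⟨t₀, t₁, t₂, h1, h2, h3⟩ := exists_chunk a b w q hq t ht
  match t₁, h1, h2, h3 with
  | [], h1, h2, h3 =>
    match t, ht2 with
    | x :: y :: l, _ =>
      refine ⟨[], [x, y], l, rfl, by simp, ?_, ?_⟩
      · exact List.countP_le_length.trans (by simpa using hw)
      · refine h3.trans (by simp)
  | [d], h1, h2, h3 =>
    rcases List.eq_nil_or_concat t₀ with h0 | ⟨l, y, h0⟩
    · subst h0
      match t₂, h1 with
      | [], h1 => rw [h1] at ht2; simp at ht2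
      | y :: l, h1 =>
        refine ⟨[], [d, y], l, by rw [h1]; simp, by simp, ?_, ?_⟩
        · exact List.countP_le_length.trans (by simpa using hw)
        · refine h3.trans ?_
          apply Nat.mul_le_mul_left
          simp
    · subst h0
      refine ⟨l, [y, d], t₂, by rw [h1]; simp, by simp, ?_, ?_⟩
      · exact List.countP_le_length.trans (by simpa using hw)
      · refine h3.trans ?_
        apply Nat.mul_le_mul_left
        simp
  | d :: d' :: l, h1, h2, h3 => exact ⟨t₀, d :: d' :: l, t₂, h1, by simp, h2, h3⟩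

namespace CSys

set_option linter.unusedSectionVars false

variable {V E X : Type} [Fintype V] [DecidableEq V] [Fintype E] [DecidableEq E] [Fintype X]
  [DecidableEq X]

variable (C : CSys V E X)

/-- the crossed edges -/
def crossed : Finset E := univ.filter (fun e => 0 < C.k e)

theorem sum_k_univ : ∑ e, C.k e = 2 * Fintype.card X := by
  have := C.sum_k univ
  simp at this
  rw [this]; ring

theorem sum_k_crossed (g : ℕ → ℕ) (h0 : g 0 = 0) :
    ∑ e ∈ C.crossed, g (C.k e) = ∑ e, g (C.k e) := by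
  unfold crossed
  rw [Finset.sum_filter]
  refine Finset.sum_congr rfl fun e _ => ?_
  split_ifs with h
  · rfl
  · have : C.k e = 0 := by omega
    rw [this, h0]

theorem k_le (e : E) : C.k e ≤ C.crossed.card := by
  unfold k
  refine Finset.card_le_card_of_injOn (fun x => if C.e₁ x = e then C.e₂ x else C.e₁ x) ?_ ?_
  · intro x hx
    simp only [coe_filter, mem_univ, true_and, Set.mem_ofPred_eq] at hx
    have h1 : ∀ x, 0 < C.k (C.e₁ x) := fun x => Finset.card_pos.2 ⟨x, by simp⟩
    have h2 : ∀ x, 0 < C.k (C.e₂ x) := fun x => Finset.card_pos.2 ⟨x, by simp⟩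
    unfold crossed
    simp only [coe_filter, mem_univ, true_and, Set.mem_ofPred_eq]
    split_ifs
    · exact h2 x
    · exact h1 x
  · intro x hx y hy hxy
    simp only [coe_filter, mem_univ, true_and, Set.mem_ofPred_eq] at hx hy hxy
    apply C.once
    have hnx := C.ne x
    have hny := C.ne y
    by_cases h1 : C.e₁ x = e
    · by_cases h2 : C.e₁ y = e
      · rw [if_pos h1, if_pos h2] at hxy
        exact Or.inl ⟨h1.trans h2.symm, hxy⟩
      · rw [if_pos h1, if_neg h2] at hxy
        exact Or.inr ⟨h1.trans (hy.resolve_left h2).symm, hxy⟩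
    · by_cases h2 : C.e₁ y = e
      · rw [if_neg h1, if_pos h2] at hxy
        exact Or.inr ⟨hxy, (hx.resolve_left h1).trans h2.symm⟩
      · rw [if_neg h1, if_neg h2] at hxy
        exact Or.inl ⟨hxy, (hx.resolve_left h1).trans (hy.resolve_left h2).symm⟩

theorem card_X_le : 2 * Fintype.card X ≤ C.crossed.card ^ 2 := by
  rw [← C.sum_k_univ, ← C.sum_k_crossed (fun n => n) rfl]
  refine (Finset.sum_le_card_nsmul _ _ C.crossed.card (fun e _ => C.k_le e)).trans ?_
  rw [smul_eq_mul, sq]

/-- sum of the crossing numbers of the edges crossing `f` -/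
def Sf (f : E) : ℕ :=
  ∑ x, ((if C.e₁ x = f then C.k (C.e₂ x) else 0) + (if C.e₂ x = f then C.k (C.e₁ x) else 0))

theorem sum_Sf : ∑ f, C.Sf f = ∑ e, C.k e ^ 2 := by
  have h1 : ∑ e, C.k e ^ 2 = ∑ x, (C.k (C.e₁ x) + C.k (C.e₂ x)) := by
    have h2 : ∀ e, C.k e ^ 2 = ∑ x, ((if C.e₁ x = e then C.k e else 0) +
        (if C.e₂ x = e then C.k e else 0)) := by
      intro e
      have h3 := C.sum_k {e}
      simp only [Finset.sum_singleton, Finset.mem_singleton] at h3
      rw [sq]
      nth_rewrite 1 [h3]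
      rw [Finset.sum_mul]
      refine Finset.sum_congr rfl fun x _ => ?_
      split_ifs <;> ring
    rw [Finset.sum_congr rfl (fun e _ => h2 e), Finset.sum_comm]
    refine Finset.sum_congr rfl fun x _ => ?_
    rw [Finset.sum_add_distrib]
    simp
  rw [h1]
  unfold Sf
  rw [Finset.sum_comm]
  refine Finset.sum_congr rfl fun x _ => ?_
  rw [Finset.sum_add_distrib]
  simp
  ring

theorem exists_f (hX : 0 < Fintype.card X) :
    ∃ f, 4 * Fintype.card X ^ 2 ≤ C.crossed.card ^ 2 * C.Sf f := by
  have hcs : (∑ e ∈ C.crossed, C.k e) ^ 2 ≤ C.crossed.card * ∑ e ∈ C.crossed, C.k e ^ 2 :=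
    sq_sum_le_card_mul_sum_sq
  rw [C.sum_k_crossed (fun n => n) rfl, C.sum_k_univ, C.sum_k_crossed (fun n => n ^ 2) rfl,
    ← C.sum_Sf] at hcs
  have hzero : ∀ f, f ∉ C.crossed → C.Sf f = 0 := by
    intro f hf
    have hk : C.k f = 0 := by
      unfold crossed at hf
      simpa using hf
    unfold k at hk
    rw [Finset.card_eq_zero, Finset.filter_eq_empty_iff] at hk
    unfold Sf
    apply Finset.sum_eq_zero
    intro x _
    have := hk (mem_univ x)
    push Not at this
    simp [this.1, this.2]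
  have hs : ∑ f, C.Sf f = ∑ f ∈ C.crossed, C.Sf f := by
    rw [← Finset.sum_subset (subset_univ C.crossed) (fun f _ hf => hzero f hf)]
  rw [hs] at hcs
  have hne : C.crossed.Nonempty := by
    rw [Finset.nonempty_iff_ne_empty]
    intro h
    rw [h] at hcs
    simp at hcs
    omega
  obtain ⟨f, hf, hmax⟩ := C.crossed.exists_max_image C.Sf hne
  refine ⟨f, ?_⟩
  have h1 : ∑ f ∈ C.crossed, C.Sf f ≤ C.crossed.card * C.Sf f := by
    refine (Finset.sum_le_card_nsmul _ _ _ hmax).trans ?_
    rw [smul_eq_mul]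
  calc 4 * Fintype.card X ^ 2 = (2 * Fintype.card X) ^ 2 := by ring
    _ ≤ C.crossed.card * ∑ f ∈ C.crossed, C.Sf f := hcs
    _ ≤ C.crossed.card * (C.crossed.card * C.Sf f) := Nat.mul_le_mul_left _ h1
    _ = _ := by ring

theorem Sf_le (f : E) : C.Sf f ≤ C.k f * C.crossed.card := by
  have h3 := C.sum_k {f}
  simp only [Finset.sum_singleton, Finset.mem_singleton] at h3
  rw [h3, Finset.sum_mul]
  unfold Sf
  apply Finset.sum_le_sum
  intro x _
  have h1 := C.k_le (C.e₁ x)
  have h2 := C.k_le (C.e₂ x)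
  split_ifs <;> omega

/-- a large independent set of edges with few crossings -/
theorem exists_indep (K : ℕ) :
    ∃ I : Finset E, (∀ x, ¬ (C.e₁ x ∈ I ∧ C.e₂ x ∈ I)) ∧ (∀ e ∈ I, 0 < C.k e) ∧
      (∀ e ∈ I, C.k e ≤ K) ∧
      (univ.filter (fun e => 0 < C.k e ∧ C.k e ≤ K)).card ≤ (K + 1) * I.card := by
  classical
  set L := univ.filter (fun e => 0 < C.k e ∧ C.k e ≤ K) with hL
  have hex : ∃ I ∈ (L.powerset.filter (fun I => ∀ x, ¬ (C.e₁ x ∈ I ∧ C.e₂ x ∈ I))),
      ∀ J ∈ (L.powerset.filter (fun I => ∀ x, ¬ (C.e₁ x ∈ I ∧ C.e₂ x ∈ I))), J.card ≤ I.card :=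
    Finset.exists_max_image _ _ ⟨∅, by simp⟩
  obtain ⟨I, hI, hmax⟩ := hex
  rw [mem_filter, mem_powerset] at hI
  refine ⟨I, hI.2, fun e he => ?_, fun e he => ?_, ?_⟩
  · have := hI.1 he
    rw [hL, mem_filter] at this
    exact this.2.1
  · have := hI.1 he
    rw [hL, mem_filter] at this
    exact this.2.2
  · -- every `e ∈ L` is in `I` or crossed by an element of `I`
    have hcov : L ⊆ I.biUnion (fun e => insert e ((univ.filter (fun x => C.e₁ x = e ∨ C.e₂ x = e)).image
        (fun x => if C.e₁ x = e then C.e₂ x else C.e₁ x))) := by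
      intro e he
      by_contra hcon
      simp only [mem_biUnion, mem_insert, mem_image, mem_filter, mem_univ, true_and, not_exists,
        not_and, not_or] at hcon
      have heI : e ∉ I := fun h => (hcon e h).1 rfl
      have h1 : insert e I ∈ (L.powerset.filter (fun I => ∀ x, ¬ (C.e₁ x ∈ I ∧ C.e₂ x ∈ I))) := by
        rw [mem_filter, mem_powerset]
        refine ⟨insert_subset he hI.1, ?_⟩
        intro x hx
        rw [mem_insert, mem_insert] at hx
        rcases hx with ⟨h2 | h2, h3 | h3⟩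
        · exact C.ne x (h2.trans h3.symm)
        · refine (hcon (C.e₂ x) h3).2 x (Or.inr rfl) ?_
          rw [if_neg (C.ne x), h2]
        · refine (hcon (C.e₁ x) h2).2 x (Or.inl rfl) ?_
          rw [if_pos rfl, h3]
        · exact hI.2 x ⟨h2, h3⟩
      have h2 := hmax _ h1
      rw [card_insert_of_notMem heI] at h2
      omega
    refine (card_le_card hcov).trans (card_biUnion_le.trans ?_)
    rw [mul_comm, ← smul_eq_mul]
    apply Finset.sum_le_card_nsmul
    intro e he
    refine (card_insert_le _ _).trans ?_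
    have h1 := (hI.1 he)
    rw [hL, mem_filter] at h1
    have h2 : ((univ.filter (fun x => C.e₁ x = e ∨ C.e₂ x = e)).image
        (fun x => if C.e₁ x = e then C.e₂ x else C.e₁ x)).card ≤ C.k e := card_image_le
    omega

theorem low_edges (K : ℕ) (h : Fintype.card X ≤ K * C.crossed.card) :
    C.crossed.card ≤ 2 * (univ.filter (fun e => 0 < C.k e ∧ C.k e ≤ 4 * K)).card := by
  have h1 : (univ.filter (fun e => 4 * K < C.k e)).card * (4 * K + 1) ≤ ∑ e, C.k e := by
    rw [← smul_eq_mul]
    refine le_trans (Finset.card_nsmul_le_sum _ C.k _ ?_) (Finset.sum_le_sum_of_subset (subset_univ _))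
    intro e he
    simp only [mem_filter, mem_univ, true_and] at he
    omega
  rw [C.sum_k_univ] at h1
  have h2 : C.crossed.card ≤ (univ.filter (fun e => 0 < C.k e ∧ C.k e ≤ 4 * K)).card +
      (univ.filter (fun e => 4 * K < C.k e)).card := by
    refine (card_le_card ?_).trans (card_union_le _ _)
    intro e he
    unfold crossed at he
    simp only [mem_filter, mem_univ, true_and, mem_union] at he ⊢
    omega
  have h3 : 2 * (univ.filter (fun e => 4 * K < C.k e)).card ≤ C.crossed.card := by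
    by_contra hcon
    push Not at hcon
    nlinarith
  omega

end CSys
end Helper5.CR
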