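import Pool.Agent.Helper5.CR.Defs
import Pool.Agent.Helper5.CR.A3

namespace Helper5.CR

open Finset

namespace PreDrawing

variable {V E : Type} [Fintype E] {src tgt : E → V}

/-- the edge `e` passes through `x` -/
def thru (P : PreDrawing src tgt) (e : E) (x : P.X) : Prop := x ∈ (P.route e).tail.map P.pt

open Classical in
theorem count_eq (P : PreDrawing src tgt) (hG : P.Good) (e : E) (x : P.X) :
    ((P.route e).tail.map P.pt).count x = if P.thru e x then 1 else 0 := by
  unfold thru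
  split_ifs with h
  · exact List.count_eq_one_of_mem (hG.self e) h
  · exact List.count_eq_zero_of_not_mem h

open Classical in
theorem passes_eq (P : PreDrawing src tgt) (hG : P.Good) (x : P.X) :
    P.passes x = (univ.filter (fun e => P.thru e x)).card := by
  unfold passes
  rw [Finset.card_filter]
  exact Finset.sum_congr rfl fun e _ => P.count_eq hG e x

theorem exists_pair (P : PreDrawing src tgt) (hG : P.Good) (x : P.X) (hx : P.passes x = 2) :
    ∃ e₁ e₂ : E, e₁ ≠ e₂ ∧ ∀ e, P.thru e x ↔ (e = e₁ ∨ e = e₂) := by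
  classical
  rw [P.passes_eq hG] at hx
  obtain ⟨a, b, hab, h⟩ := Finset.card_eq_two.1 hx
  refine ⟨a, b, hab, fun e => ?_⟩
  have : e ∈ univ.filter (fun e => P.thru e x) ↔ e ∈ ({a, b} : Finset E) := by rw [h]
  simpa using this

/-- the crossings of a good drawing -/
abbrev X2 (P : PreDrawing src tgt) : Type := {x : P.X // P.passes x = 2}

instance (P : PreDrawing src tgt) : Finite P.X := by
  have := P.finX
  infer_instance

noncomputable instance (P : PreDrawing src tgt) : Fintype P.X2 := Fintype.ofFinite _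

noncomputable def ed₁ (P : PreDrawing src tgt) (hG : P.Good) (x : P.X2) : E :=
  (P.exists_pair hG x.1 x.2).choose

noncomputable def ed₂ (P : PreDrawing src tgt) (hG : P.Good) (x : P.X2) : E :=
  (P.exists_pair hG x.1 x.2).choose_spec.choose

theorem ed_ne (P : PreDrawing src tgt) (hG : P.Good) (x : P.X2) : P.ed₁ hG x ≠ P.ed₂ hG x :=
  (P.exists_pair hG x.1 x.2).choose_spec.choose_spec.1

theorem thru_iff (P : PreDrawing src tgt) (hG : P.Good) (x : P.X2) (e : E) :
    P.thru e x.1 ↔ (e = P.ed₁ hG x ∨ e = P.ed₂ hG x) :=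
  (P.exists_pair hG x.1 x.2).choose_spec.choose_spec.2 e

theorem thru₁ (P : PreDrawing src tgt) (hG : P.Good) (x : P.X2) : P.thru (P.ed₁ hG x) x.1 :=
  (P.thru_iff hG x _).2 (Or.inl rfl)

theorem thru₂ (P : PreDrawing src tgt) (hG : P.Good) (x : P.X2) : P.thru (P.ed₂ hG x) x.1 :=
  (P.thru_iff hG x _).2 (Or.inr rfl)

theorem adj_of_thru (P : PreDrawing src tgt) (hG : P.Good) {e f : E} (hef : e ≠ f) {x : P.X}
    (he : P.thru e x) (hf : P.thru f x) :
    src e ≠ src f ∧ src e ≠ tgt f ∧ tgt e ≠ src f ∧ tgt e ≠ tgt f := by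
  unfold thru at he hf
  obtain ⟨d, hd, rfl⟩ := List.mem_map.1 he
  obtain ⟨d', hd', h'⟩ := List.mem_map.1 hf
  exact hG.adj e f hef ⟨d, hd, d', hd', h'.symm⟩

theorem eq_of_thru (P : PreDrawing src tgt) (hG : P.Good) {e f : E} (hef : e ≠ f) {x y : P.X}
    (he : P.thru e x) (hf : P.thru f x) (he' : P.thru e y) (hf' : P.thru f y) : x = y := by
  unfold thru at he hf he' hf'
  obtain ⟨d1, hd1, rfl⟩ := List.mem_map.1 he
  obtain ⟨d1', hd1', h1⟩ := List.mem_map.1 hf
  obtain ⟨d2, hd2, rfl⟩ := List.mem_map.1 he'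
  obtain ⟨d2', hd2', h2⟩ := List.mem_map.1 hf'
  exact hG.twice e f hef d1 hd1 d1' hd1' d2 hd2 d2' hd2' h1.symm h2.symm

/-- the abstract crossing system of a good drawing -/
noncomputable def toCSys (P : PreDrawing src tgt) (hG : P.Good) (hne : ∀ e, src e ≠ tgt e) :
    CSys V E P.X2 where
  src := src
  tgt := tgt
  e₁ := P.ed₁ hG
  e₂ := P.ed₂ hG
  loop := hne
  ne := P.ed_ne hG
  h1 x := (P.adj_of_thru hG (P.ed_ne hG x) (P.thru₁ hG x) (P.thru₂ hG x)).1
  h2 x := (P.adj_of_thru hG (P.ed_ne hG x) (P.thru₁ hG x) (P.thru₂ hG x)).2.1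
  h3 x := (P.adj_of_thru hG (P.ed_ne hG x) (P.thru₁ hG x) (P.thru₂ hG x)).2.2.1
  h4 x := (P.adj_of_thru hG (P.ed_ne hG x) (P.thru₁ hG x) (P.thru₂ hG x)).2.2.2
  once x y h := by
    apply Subtype.ext
    rcases h with ⟨h1, h2⟩ | ⟨h1, h2⟩
    · exact P.eq_of_thru hG (P.ed_ne hG x) (P.thru₁ hG x) (P.thru₂ hG x)
        (h1 ▸ P.thru₁ hG y) (h2 ▸ P.thru₂ hG y)
    · exact P.eq_of_thru hG (P.ed_ne hG x) (P.thru₁ hG x) (P.thru₂ hG x)
        (h1 ▸ P.thru₂ hG y) (h2 ▸ P.thru₁ hG y)

theorem card_X2 (P : PreDrawing src tgt) : Fintype.card P.X2 = P.crossings := by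
  unfold crossings
  rw [Nat.card_eq_fintype_card]

open Classical in
theorem sum_sub (S : E → Prop) (g : E → ℕ) :
    ∑ e : {e // S e}, g e.1 = ∑ e, if S e then g e else 0 := by
  rw [← Finset.sum_filter]
  exact (Finset.sum_subtype (univ.filter S) (by simp) g).symm

open Classical in
/-- a sum over the selected edges which equals 2 selects both edges -/
theorem sum_eq_two (P : PreDrawing src tgt) (hG : P.Good) (S T : E → Prop) (x : P.X)
    (h : ∑ e : {e // S e}, (if T e.1 then ((P.route e.1).tail.map P.pt).count x else 0) = 2) :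
    ∃ hx : P.passes x = 2, (S (P.ed₁ hG ⟨x, hx⟩) ∧ T (P.ed₁ hG ⟨x, hx⟩)) ∧
      (S (P.ed₂ hG ⟨x, hx⟩) ∧ T (P.ed₂ hG ⟨x, hx⟩)) := by
  have h1 : (univ.filter (fun e => S e ∧ T e ∧ P.thru e x)).card = 2 := by
    rw [Finset.card_filter, ← h, sum_sub S
      (fun e => if T e then ((P.route e).tail.map P.pt).count x else 0)]
    refine Finset.sum_congr rfl fun e _ => ?_
    rw [P.count_eq hG e x]
    by_cases h1 : S e <;> by_cases h2 : T e <;> by_cases h3 : P.thru e x <;> simp [h1, h2, h3]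
  have h2 : univ.filter (fun e => S e ∧ T e ∧ P.thru e x) ⊆ univ.filter (fun e => P.thru e x) := by
    intro e he
    simp only [mem_filter, mem_univ, true_and] at he ⊢
    exact he.2.2
  have h3 := Finset.card_le_card h2
  have h4 := hG.simple x
  rw [P.passes_eq hG] at h4
  have hx : P.passes x = 2 := by rw [P.passes_eq hG]; omega
  have h5 := Finset.eq_of_subset_of_card_le h2 (by omega)
  have h6 : ∀ e, P.thru e x → S e ∧ T e := by
    intro e he
    have : e ∈ univ.filter (fun e => P.thru e x) := by simpa using he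
    rw [← h5] at this
    simp only [mem_filter, mem_univ, true_and] at this
    exact ⟨this.1, this.2.1⟩
  exact ⟨hx, h6 _ (P.thru₁ hG ⟨x, hx⟩), h6 _ (P.thru₂ hG ⟨x, hx⟩)⟩

end PreDrawing
end Helper5.CR
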