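import Pool.Agent.Helper34.CR.Resolution

/-!
M8: optimal drawings are good.
-/

set_option linter.unusedSectionVars false

open Equiv Equiv.Perm

namespace Helper5.CR

namespace M8

variable {D X : Type} {pt : D → X} {α : Perm D}

theorem isWalk_append {y : X} : ∀ {l₁ l₂ : List D} {x : X},
    IsWalk pt α x y (l₁ ++ l₂) ↔ ∃ z, IsWalk pt α x z l₁ ∧ IsWalk pt α z y l₂
  | [], l₂, x => by simp [IsWalk]
  | d :: l₁, l₂, x => by
    simp only [List.cons_append, IsWalk]
    rw [isWalk_append]
    constructor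
    · rintro ⟨h1, z, h2, h3⟩
      exact ⟨z, ⟨h1, h2⟩, h3⟩
    · rintro ⟨z, ⟨h1, h2⟩, h3⟩
      exact ⟨h1, z, h2, h3⟩

/-- The reversed walk. -/
def rev (α : Perm D) (l : List D) : List D := (l.map α).reverse

theorem rev_cons (d : D) (l : List D) : rev α (d :: l) = rev α l ++ [α d] := by
  simp [rev]

theorem isWalk_rev (hα : ∀ d, α (α d) = d) {y : X} : ∀ {l : List D} {x : X},
    IsWalk pt α x y l → IsWalk pt α y x (rev α l)
  | [], x, h => by
    have : x = y := h
    subst this
    rfl
  | d :: l, x, h => by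
    rw [rev_cons, isWalk_append]
    refine ⟨pt (α d), isWalk_rev hα h.2, rfl, ?_⟩
    show pt (α (α d)) = x
    rw [hα]
    exact h.1

theorem rev_ne_nil {l : List D} (h : l ≠ []) : rev α l ≠ [] := by
  simpa [rev] using h

section count
variable [BEq X] [LawfulBEq X] [BEq D] [LawfulBEq D]

/-- number of interior points equal to `z` -/
def inner (pt : D → X) (z : X) (l : List D) : ℕ := (l.tail.map pt).count z

/-- number of uses of the segment of `d` -/
def use (α : Perm D) (d : D) (l : List D) : ℕ := l.count d + l.count (α d)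

theorem use_append (d : D) (l₁ l₂ : List D) :
    use α d (l₁ ++ l₂) = use α d l₁ + use α d l₂ := by
  simp only [use, List.count_append]
  omega

theorem count_map_α (hα : ∀ d, α (α d) = d) (d : D) (l : List D) :
    (l.map α).count d = l.count (α d) := by
  have h1 : d = α (α d) := (hα d).symm
  conv_lhs => rw [h1]
  exact List.count_map_of_injective l α α.injective (α d)

theorem use_rev (hα : ∀ d, α (α d) = d) (d : D) (l : List D) :
    use α d (rev α l) = use α d l := by
  simp only [use, rev, List.count_reverse]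
  rw [count_map_α hα, count_map_α hα, hα, add_comm]

theorem count_pts {y : X} (z : X) : ∀ {l : List D} {x : X}, IsWalk pt α x y l →
    (l.map pt).count z + [y].count z = [x].count z + (l.map (fun d => pt (α d))).count z
  | [], x, h => by
    have : x = y := h
    subst this
    simp
  | d :: l, x, h => by
    have ih := count_pts z h.2
    obtain ⟨h1, -⟩ := h
    subst h1
    simp only [List.map_cons, List.count_cons, List.count_nil] at ih ⊢
    omega

theorem inner_add {x y : X} (z : X) {l : List D} (hl : l ≠ []) (h : IsWalk pt α x y l) :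
    (l.map pt).count z = [x].count z + inner pt z l := by
  cases l with
  | nil => exact absurd rfl hl
  | cons d l =>
    obtain ⟨h1, -⟩ := h
    subst h1
    simp only [inner, List.map_cons, List.count_cons, List.count_nil, List.tail_cons]
    omega

theorem inner_rev (hα : ∀ d, α (α d) = d) {x y : X} (z : X) {l : List D} (hl : l ≠ [])
    (h : IsWalk pt α x y l) : inner pt z (rev α l) = inner pt z l := by
  have h1 := inner_add z hl h
  have h2 := inner_add z (rev_ne_nil (α := α) hl) (isWalk_rev hα h)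
  have h3 := count_pts z h
  have h4 : ((rev α l).map pt).count z = (l.map (fun d => pt (α d))).count z := by
    rw [rev, List.map_reverse, List.count_reverse, List.map_map]
    rfl
  omega

theorem inner_three {u v : X} (z : X) {A B C : List D} (hB : B ≠ [])
    (h : IsWalk pt α u v B) :
    inner pt z (A ++ B ++ C) = (inner pt z A + if A = [] then 0 else [u].count z) +
      inner pt z B + (C.map pt).count z := by
  cases A with
  | nil =>
    cases B with
    | nil => exact absurd rfl hB
    | cons d B => simp [inner]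
  | cons a A =>
    have h1 := inner_add z hB h
    simp only [inner, List.cons_append, List.tail_cons, List.map_append, List.count_append] at h1 ⊢
    rw [if_neg (by simp)]
    omega

end count

theorem isWalk_det {x y x' y' : X} : ∀ {l : List D}, l ≠ [] → IsWalk pt α x y l →
    IsWalk pt α x' y' l → x = x' ∧ y = y' := by
  intro l
  induction l generalizing x x' with
  | nil => intro h; exact absurd rfl h
  | cons d l ih =>
    rintro - ⟨h1, h2⟩ ⟨h3, h4⟩
    refine ⟨h1.symm.trans h3, ?_⟩
    cases l with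
    | nil =>
      have e1 : pt (α d) = y := h2
      have e2 : pt (α d) = y' := h4
      exact e1.symm.trans e2
    | cons d' l => exact (ih (by simp) h2 h4).2

theorem isWalk_replace {x y u v : X} {A B C G : List D} (hB : B ≠ [])
    (h : IsWalk pt α x y (A ++ B ++ C)) (hu : IsWalk pt α u v B) (hG : IsWalk pt α u v G) :
    IsWalk pt α x y (A ++ G ++ C) := by
  rw [isWalk_append] at h ⊢
  obtain ⟨z, h1, h2⟩ := h
  rw [isWalk_append] at h1
  obtain ⟨w, h3, h4⟩ := h1
  obtain ⟨e1, e2⟩ := isWalk_det hB h4 hu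
  subst e1 e2
  exact ⟨z, isWalk_append.2 ⟨w, h3, hG⟩, h2⟩

theorem exists_pred : ∀ {l : List D} {d : D}, d ∈ l.tail → ∃ l₁ c l₂, l = l₁ ++ c :: d :: l₂
  | [], d, h => by simp at h
  | [a], d, h => by simp at h
  | a :: b :: l, d, h => by
    rcases List.mem_cons.1 h with rfl | h
    · exact ⟨[], a, l, rfl⟩
    · obtain ⟨l₁, c, l₂, e⟩ := exists_pred (l := b :: l) h
      exact ⟨a :: l₁, c, l₂, by rw [e]; rfl⟩

theorem exists_order {l : List D} {d₁ d₂ : D} (h₁ : d₁ ∈ l.tail) (h₂ : d₂ ∈ l.tail)
    (hne : d₁ ≠ d₂) : (∃ l₁ c m l₂, l = (l₁ ++ [c]) ++ (d₁ :: m) ++ (d₂ :: l₂)) ∨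
      (∃ l₁ c m l₂, l = (l₁ ++ [c]) ++ (d₂ :: m) ++ (d₁ :: l₂)) := by
  obtain ⟨l₁, c, l₂, rfl⟩ := exists_pred h₁
  have h3 : d₂ ∈ l₁ ++ [c] ∨ d₂ ∈ l₂ := by
    have h4 := List.mem_of_mem_tail h₂
    rw [List.mem_append, List.mem_cons, List.mem_cons] at h4
    rw [List.mem_append, List.mem_singleton]
    rcases h4 with h4 | h4 | h4 | h4
    · exact Or.inl (Or.inl h4)
    · exact Or.inl (Or.inr h4)
    · exact absurd h4.symm hne
    · exact Or.inr h4
  by_cases h4 : d₂ ∈ l₂
  · obtain ⟨s, t, rfl⟩ := List.append_of_mem h4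
    exact Or.inl ⟨l₁, c, s, t, by simp⟩
  · have h5 := h3.resolve_right h4
    right
    -- `d₂` lies in the tail of `l₁ ++ [c]`
    have h6 : d₂ ∈ (l₁ ++ [c]).tail := by
      have e : l₁ ++ c :: d₁ :: l₂ = (l₁ ++ [c]) ++ (d₁ :: l₂) := by simp
      rw [e, List.tail_append_of_ne_nil (by simp), List.mem_append] at h₂
      rcases h₂ with h₂ | h₂
      · exact h₂
      · rcases List.mem_cons.1 h₂ with h₂ | h₂
        · exact absurd h₂.symm hne
        · exact absurd h₂ h4
    obtain ⟨s, c', t, e⟩ := exists_pred h6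
    refine ⟨s, c', t, l₂, ?_⟩
    have e' : l₁ ++ c :: d₁ :: l₂ = (l₁ ++ [c]) ++ (d₁ :: l₂) := by simp
    rw [e', e]
    simp

theorem exists_dup {f : D → X} : ∀ {t : List D}, ¬ (t.map f).Nodup →
    ∃ t₁ d₁ t₂ d₂ t₃, t = t₁ ++ d₁ :: t₂ ++ d₂ :: t₃ ∧ f d₁ = f d₂
  | [], h => by simp at h
  | d :: t, h => by
    rw [List.map_cons, List.nodup_cons, not_and_or, not_not] at h
    rcases h with h | h
    · obtain ⟨d₂, h1, h2⟩ := List.mem_map.1 h
      obtain ⟨t₂, t₃, rfl⟩ := List.append_of_mem h1
      exact ⟨[], d, t₂, d₂, t₃, by simp, h2.symm⟩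
    · obtain ⟨t₁, d₁, t₂, d₂, t₃, rfl, h2⟩ := exists_dup h
      exact ⟨d :: t₁, d₁, t₂, d₂, t₃, by simp, h2⟩

theorem pair_closed [Finite D] {σ : Perm D} {b b' d : D} (h1 : σ b = b') (h2 : σ b' = b)
    (h : σ.SameCycle b d) : d = b ∨ d = b' := by
  obtain ⟨n, hn⟩ := h.exists_nat_pow_eq
  have key : ∀ n : ℕ, (σ ^ n) b = b ∨ (σ ^ n) b = b' := by
    intro n
    induction n with
    | zero => exact Or.inl rfl
    | succ n ih =>
      rw [pow_succ', Equiv.Perm.mul_apply]
      rcases ih with ih | ih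
      · rw [ih]; exact Or.inr h1
      · rw [ih]; exact Or.inl h2
  rw [← hn]
  exact key n

theorem four_cycle [Finite D] {σ : Perm D} {a b a' b' : D} (d1 : a ≠ b) (d2 : a ≠ a')
    (d3 : a ≠ b') (d4 : b ≠ a') (d5 : b ≠ b') (d6 : a' ≠ b')
    (hS : ∀ d, σ.SameCycle a d → d = a ∨ d = b ∨ d = a' ∨ d = b') (hb : σ.SameCycle a b)
    (ha' : σ.SameCycle a a') (hb' : σ.SameCycle a b') (h1 : σ a ≠ b) (h2 : σ b ≠ a) :
    (σ a = a' ∨ σ a' = a) ∧ (σ a = b' ∨ σ b' = a) ∧ (σ b = a' ∨ σ a' = b) ∧
      (σ b = b' ∨ σ b' = b) := by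
  have hσ : ∀ d, σ.SameCycle a d → σ.SameCycle a (σ d) := fun d hd =>
    hd.trans ⟨1, by rw [zpow_one]⟩
  have e1 := hS _ (hσ a (SameCycle.refl _ _))
  have e2 := hS _ (hσ b hb)
  have e3 := hS _ (hσ a' ha')
  have e4 := hS _ (hσ b' hb')
  have f1 : σ a ≠ a := fun h => by
    rcases pair_closed h h hb with h' | h' <;> exact d1 h'.symm
  have f2 : σ b ≠ b := fun h => by
    rcases pair_closed h h hb.symm with h' | h' <;> exact d1 h'
  have i1 : σ a ≠ σ b := fun h => d1 (σ.injective h)
  have i2 : σ a ≠ σ a' := fun h => d2 (σ.injective h)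
  have i3 : σ a ≠ σ b' := fun h => d3 (σ.injective h)
  have i4 : σ b ≠ σ a' := fun h => d4 (σ.injective h)
  have i5 : σ b ≠ σ b' := fun h => d5 (σ.injective h)
  have i6 : σ a' ≠ σ b' := fun h => d6 (σ.injective h)
  have g1 : σ a = a' ∨ σ a = b' := by
    rcases e1 with h | h | h
    · exact absurd h f1
    · exact absurd h h1
    · exact h
  have g2 : σ b = a' ∨ σ b = b' := by
    rcases e2 with h | h | h
    · exact absurd h h2
    · exact absurd h f2
    · exact h
  rcases g1 with g1 | g1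
  · have g3 : σ b = b' := by
      rcases g2 with g2 | g2
      · exact absurd (g1.trans g2.symm) i1
      · exact g2
    have g4 : σ b' = a := by
      rcases e4 with e4 | e4 | e4 | e4
      · exact e4
      · exfalso
        rcases pair_closed g3 e4 hb.symm with h' | h'
        · exact d1 h'
        · exact d3 h'
      · exact absurd (g1.trans e4.symm) i3
      · exact absurd (g3.trans e4.symm) i5
    have g5 : σ a' = b := by
      rcases e3 with e3 | e3 | e3 | e3
      · exact absurd (e3.trans g4.symm) i6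
      · exact e3
      · exact absurd (g1.trans e3.symm) i2
      · exact absurd (g3.trans e3.symm) i4
    exact ⟨Or.inl g1, Or.inr g4, Or.inr g5, Or.inl g3⟩
  · have g3 : σ b = a' := by
      rcases g2 with g2 | g2
      · exact g2
      · exact absurd (g1.trans g2.symm) i1
    have g4 : σ a' = a := by
      rcases e3 with e3 | e3 | e3 | e3
      · exact e3
      · exfalso
        rcases pair_closed g3 e3 hb.symm with h' | h'
        · exact d1 h'
        · exact d2 h'
      · exact absurd (g3.trans e3.symm) i4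
      · exact absurd (g1.trans e3.symm) i2
    have g5 : σ b' = b := by
      rcases e4 with e4 | e4 | e4 | e4
      · exact absurd (e4.trans g4.symm).symm i6
      · exact e4
      · exact absurd (g3.trans e4.symm) i5
      · exact absurd (g1.trans e4.symm) i3
    exact ⟨Or.inr g4, Or.inl g1, Or.inl g3, Or.inr g5⟩

end M8

namespace PreDrawing

variable {V E : Type} [Fintype E] {src tgt : E → V}

open Classical in
/-- The same map with other routes. -/
noncomputable def reroute (P : PreDrawing src tgt) (r : E → List P.D)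
    (hw : ∀ e, IsWalk P.pt P.α (P.loc (src e)) (P.loc (tgt e)) (r e))
    (hi : ∀ e, ∀ d ∈ (r e).tail, ∀ v, P.pt d ≠ P.loc v)
    (hu : ∀ d, ∑ e, M8.use P.α d (r e) ≤ 1) : PreDrawing src tgt :=
  { P with route := r, route_walk := hw, route_inner := hi, route_use := hu }

theorem crM_le (P : PreDrawing src tgt) (hs : P.Simple) : crM src tgt ≤ P.crossings :=
  Nat.sInf_le ⟨P, hs, rfl⟩

theorem crossings_eq_cost (P : PreDrawing src tgt) :
    P.crossings = P.cost (fun n => if n = 2 then 1 else 0) := by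
  classical
  rw [crossings, cost, Nat.card_eq_fintype_card, Fintype.card_subtype, Finset.card_filter]

theorem simple_iff_cost (P : PreDrawing src tgt) :
    P.Simple ↔ P.cost (fun n => if 3 ≤ n then 1 else 0) = 0 := by
  rw [cost, Finset.sum_eq_zero_iff]
  constructor
  · intro h x _
    have := h x
    simp
    omega
  · intro h x
    have := h x (Finset.mem_univ x)
    simp at this
    omega

/-- In an optimal drawing the darts of a pass at a crossing are not adjacent. -/
theorem not_adjacent (P : PreDrawing src tgt) (hs : P.Simple)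
    (ho : P.crossings = crM src tgt) (e : E) (l₁ l₂ : List P.D) (c b : P.D)
    (hr : P.route e = l₁ ++ c :: b :: l₂) (hp : P.passes (P.pt b) = 2) :
    ¬ (P.σ (P.α c) = b ∨ P.σ b = P.α c) := by
  intro hab
  obtain ⟨P', -, -, h⟩ := exists_split P e l₁ l₂ c b hr hab
  have h2 := h (fun n => if n = 2 then 1 else 0) (by simp)
  have h3 := h (fun n => if 3 ≤ n then 1 else 0) (by simp)
  rw [hp] at h2 h3
  simp only [if_true, Nat.add_one_sub_one, show ¬ (3 ≤ 2) by omega, show ¬ (3 ≤ 2 - 1) by omega,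
    show ¬ (2 - 1 = 2) by omega, if_false, add_zero] at h2 h3
  rw [← crossings_eq_cost, ← crossings_eq_cost] at h2
  have hs' : P'.Simple := by
    rw [simple_iff_cost, h3]
    exact (simple_iff_cost P).1 hs
  have := P'.crM_le hs'
  omega

theorem pt_next (P : PreDrawing src tgt) {e : E} {l₁ l₂ : List P.D} {c b : P.D}
    (hr : P.route e = l₁ ++ c :: b :: l₂) : P.pt (P.α c) = P.pt b := by
  have h := P.route_walk e
  rw [hr, M8.isWalk_append] at h
  obtain ⟨z, -, h2⟩ := h
  exact h2.2.1.symm

theorem use_le (P : PreDrawing src tgt) {e f : E} (hef : e ≠ f) {d d' : P.D}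
    (hd : d ∈ P.route e ∨ P.α d ∈ P.route e) (hd' : d' ∈ P.route f ∨ P.α d' ∈ P.route f) :
    d ≠ d' ∧ d ≠ P.α d' := by
  classical
  have key : ∀ d, (d ∈ P.route e ∨ P.α d ∈ P.route e) →
      (d ∈ P.route f ∨ P.α d ∈ P.route f) → False := by
    intro d h1 h2
    have h3 := P.route_use d
    have h4 : ∑ g ∈ ({e, f} : Finset E), ((P.route g).count d + (P.route g).count (P.α d)) ≤ 1 :=
      (Finset.sum_le_sum_of_subset (Finset.subset_univ _)).trans h3
    rw [Finset.sum_pair hef] at h4
    have h5 : 1 ≤ (P.route e).count d + (P.route e).count (P.α d) := by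
      rcases h1 with h1 | h1
      · have := List.count_pos_iff.2 h1
        omega
      · have := List.count_pos_iff.2 h1
        omega
    have h6 : 1 ≤ (P.route f).count d + (P.route f).count (P.α d) := by
      rcases h2 with h2 | h2
      · have := List.count_pos_iff.2 h2
        omega
      · have := List.count_pos_iff.2 h2
        omega
    omega
  constructor
  · rintro rfl
    exact key _ hd hd'
  · rintro rfl
    refine key _ hd ?_
    rw [P.α_invol]
    exact hd'.symm

theorem use_self (P : PreDrawing src tgt) {e : E} {l₁ l₂ : List P.D} {c b : P.D}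
    (hr : P.route e = l₁ ++ c :: b :: l₂) : P.α c ≠ b := by
  classical
  rintro rfl
  have h3 := P.route_use c
  have h4 := (Finset.single_le_sum (f := fun f => (P.route f).count c +
      (P.route f).count (P.α c)) (fun _ _ => Nat.zero_le _) (Finset.mem_univ e)).trans h3
  have h5 : 1 ≤ (P.route e).count c := List.count_pos_iff.2 (by rw [hr]; simp)
  have h6 : 1 ≤ (P.route e).count (P.α c) := List.count_pos_iff.2 (by rw [hr]; simp)
  omega

theorem mem_tail (P : PreDrawing src tgt) {e : E} {l₁ l₂ : List P.D} {c b : P.D}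
    (hr : P.route e = l₁ ++ c :: b :: l₂) : b ∈ (P.route e).tail := by
  rw [hr]
  cases l₁ with
  | nil => simp
  | cons d l => simp

theorem passes_eq_two (P : PreDrawing src tgt) (hs : P.Simple) {e f : E} (hef : e ≠ f)
    {d d' : P.D} (hd : d ∈ (P.route e).tail) (hd' : d' ∈ (P.route f).tail)
    (hdd : P.pt d = P.pt d') : P.passes (P.pt d) = 2 := by
  classical
  refine le_antisymm (hs _) ?_
  have h4 : ∑ g ∈ ({e, f} : Finset E), ((P.route g).tail.map P.pt).count (P.pt d) ≤
      P.passes (P.pt d) := Finset.sum_le_sum_of_subset (Finset.subset_univ _)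
  rw [Finset.sum_pair hef] at h4
  have h5 : 1 ≤ ((P.route e).tail.map P.pt).count (P.pt d) :=
    List.count_pos_iff.2 (List.mem_map_of_mem hd)
  have h6 : 1 ≤ ((P.route f).tail.map P.pt).count (P.pt d) := by
    rw [hdd]
    exact List.count_pos_iff.2 (List.mem_map_of_mem hd')
  omega

/-- At a crossing of an optimal clean drawing each dart of one pass is adjacent to each dart of
the other pass. -/
theorem all_adjacent (P : PreDrawing src tgt) (hP : P.Clean) (hs : P.Simple)
    (ho : P.crossings = crM src tgt) {e f : E} (hef : e ≠ f) {l₁ l₂ l₁' l₂' : List P.D}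
    {c b c' b' : P.D} (hr : P.route e = l₁ ++ c :: b :: l₂)
    (hr' : P.route f = l₁' ++ c' :: b' :: l₂') (hbb : P.pt b = P.pt b') :
    (P.σ (P.α c) = P.α c' ∨ P.σ (P.α c') = P.α c) ∧ (P.σ (P.α c) = b' ∨ P.σ b' = P.α c) ∧
      (P.σ b = P.α c' ∨ P.σ (P.α c') = b) ∧ (P.σ b = b' ∨ P.σ b' = b) := by
  classical
  have hp := P.passes_eq_two hs hef (P.mem_tail hr) (P.mem_tail hr') hbb
  have hna := P.not_adjacent hs ho e l₁ l₂ c b hr hp
  rw [not_or] at hna
  have p1 := P.pt_next hr
  have p2 := P.pt_next hr'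
  have mc : c ∈ P.route e := by rw [hr]; simp
  have mb : b ∈ P.route e := by rw [hr]; simp
  have mc' : c' ∈ P.route f := by rw [hr']; simp
  have mb' : b' ∈ P.route f := by rw [hr']; simp
  have ia : P.α c ∈ P.route e ∨ P.α (P.α c) ∈ P.route e := Or.inr (by rw [P.α_invol]; exact mc)
  have ia' : P.α c' ∈ P.route f ∨ P.α (P.α c') ∈ P.route f :=
    Or.inr (by rw [P.α_invol]; exact mc')
  have d1 : P.α c ≠ b := P.use_self hr
  have d6 : P.α c' ≠ b' := P.use_self hr'
  have d2 : P.α c ≠ P.α c' := (P.use_le hef ia ia').1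
  have d3 : P.α c ≠ b' := (P.use_le hef ia (Or.inl mb')).1
  have d4 : b ≠ P.α c' := (P.use_le hef (Or.inl mb) ia').1
  have d5 : b ≠ b' := (P.use_le hef (Or.inl mb) (Or.inl mb')).1
  have sc : ∀ d, P.pt d = P.pt b → P.σ.SameCycle (P.α c) d := fun d hd =>
    (P.pt_iff _ _).1 (p1.trans hd.symm)
  refine M8.four_cycle d1 d2 d3 d4 d5 d6 ?_ (sc b rfl) (sc _ (p2.trans hbb.symm))
    (sc b' hbb.symm) hna.1 hna.2
  intro d hd
  have hpd : P.pt d = P.pt b := ((P.pt_iff _ _).2 hd).symm.trans p1
  have hUb : P.Used b := ⟨e, Or.inl mb⟩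
  have hcard := P.card_used (P.pt b) (fun v => P.route_inner e b (P.mem_tail hr) v)
  rw [hp, Nat.card_eq_fintype_card, Fintype.card_subtype] at hcard
  have hsub : ({P.α c, b, P.α c', b'} : Finset P.D) ⊆
      Finset.univ.filter (fun d => P.pt d = P.pt b ∧ P.Used d) := by
    intro x hx
    simp only [Finset.mem_insert, Finset.mem_singleton] at hx
    rw [Finset.mem_filter]
    refine ⟨Finset.mem_univ _, ?_⟩
    have hpx : P.pt x = P.pt b := by
      rcases hx with rfl | rfl | rfl | rfl
      · exact p1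
      · rfl
      · exact p2.trans hbb.symm
      · exact hbb.symm
    exact ⟨hpx, hP _ _ hpx.symm hUb⟩
  have hc4 : ({P.α c, b, P.α c', b'} : Finset P.D).card = 4 := by
    rw [Finset.card_insert_of_notMem, Finset.card_insert_of_notMem,
      Finset.card_insert_of_notMem, Finset.card_singleton]
    · simpa using d6
    · simp [d4, d5]
    · simp [d1, d2, d3]
  have heq := Finset.eq_of_subset_of_card_le hsub (by rw [hcard, hc4])
  have hmem : d ∈ Finset.univ.filter (fun d => P.pt d = P.pt b ∧ P.Used d) :=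
    Finset.mem_filter.2 ⟨Finset.mem_univ _, hpd, hP _ _ hpd.symm hUb⟩
  rw [← heq] at hmem
  simpa only [Finset.mem_insert, Finset.mem_singleton] using hmem

theorem sum_update_two {β : Type} (r : E → β) [DecidableEq E] {e f : E} (hef : e ≠ f)
    (L₁ L₂ : β) (F : β → ℕ) (h : F L₁ + F L₂ = F (r e) + F (r f)) :
    ∑ g, F (Function.update (Function.update r e L₁) f L₂ g) = ∑ g, F (r g) := by
  rw [← Finset.sum_add_sum_compl ({e, f} : Finset E), ← Finset.sum_add_sum_compl
    ({e, f} : Finset E) (fun g => F (r g)), Finset.sum_pair hef, Finset.sum_pair hef]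
  rw [Function.update_self, Function.update_of_ne hef, Function.update_self]
  congr 1
  refine Finset.sum_congr rfl fun g hg => ?_
  simp only [Finset.mem_compl, Finset.mem_insert, Finset.mem_singleton, not_or] at hg
  rw [Function.update_of_ne hg.2, Function.update_of_ne hg.1]

open Classical in
/-- Exchanging pieces of two edges cannot produce a pass with adjacent darts. -/
theorem exchange_false (P : PreDrawing src tgt) (hs : P.Simple)
    (ho : P.crossings = crM src tgt) {e f : E} (hef : e ≠ f)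
    {A B C A' B' C' G H : List P.D} {u v u' v' : P.X} (hr : P.route e = A ++ B ++ C)
    (hr' : P.route f = A' ++ B' ++ C') (hB : B ≠ []) (hB' : B' ≠ [])
    (hwB : IsWalk P.pt P.α u v B) (hwB' : IsWalk P.pt P.α u' v' B') (hG : G ≠ []) (hH : H ≠ [])
    (hwG : IsWalk P.pt P.α u v G) (hwH : IsWalk P.pt P.α u' v' H)
    (useG : ∀ d, M8.use P.α d G = M8.use P.α d B') (useH : ∀ d, M8.use P.α d H = M8.use P.α d B)
    (inG : ∀ z, M8.inner P.pt z G = M8.inner P.pt z B')
    (inH : ∀ z, M8.inner P.pt z H = M8.inner P.pt z B)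
    {l₁ l₂ : List P.D} {c b : P.D} (hnew : A ++ G ++ C = l₁ ++ c :: b :: l₂)
    (hpass : P.passes (P.pt b) = 2) (hadj : P.σ (P.α c) = b ∨ P.σ b = P.α c) : False := by
  set r : E → List P.D :=
    Function.update (Function.update P.route e (A ++ G ++ C)) f (A' ++ H ++ C') with hrdef
  have re : r e = A ++ G ++ C := by
    rw [hrdef, Function.update_of_ne hef, Function.update_self]
  have rf : r f = A' ++ H ++ C' := by
    rw [hrdef, Function.update_self]
  have ro : ∀ g, g ≠ e → g ≠ f → r g = P.route g := by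
    intro g h1 h2
    rw [hrdef, Function.update_of_ne h2, Function.update_of_ne h1]
  have huse : ∀ d, ∑ g, M8.use P.α d (r g) = ∑ g, M8.use P.α d (P.route g) := by
    intro d
    apply sum_update_two P.route hef _ _ (fun l => M8.use P.α d l)
    rw [hr, hr', M8.use_append, M8.use_append, M8.use_append, M8.use_append, M8.use_append,
      M8.use_append, M8.use_append, M8.use_append, useG, useH]
    omega
  have hin1 : ∀ z, M8.inner P.pt z (A ++ G ++ C) + M8.inner P.pt z (A' ++ H ++ C') =
      M8.inner P.pt z (P.route e) + M8.inner P.pt z (P.route f) := by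
    intro z
    rw [hr, hr', M8.inner_three z hB hwB, M8.inner_three z hB' hwB', M8.inner_three z hG hwG,
      M8.inner_three z hH hwH, inG, inH]
    omega
  have hin : ∀ z, ∑ g, M8.inner P.pt z (r g) = ∑ g, M8.inner P.pt z (P.route g) := by
    intro z
    exact sum_update_two P.route hef _ _ (fun l => M8.inner P.pt z l) (hin1 z)
  have hw : ∀ g, IsWalk P.pt P.α (P.loc (src g)) (P.loc (tgt g)) (r g) := by
    intro g
    by_cases h1 : g = e
    · subst h1
      rw [re]
      have := P.route_walk g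
      rw [hr] at this
      exact M8.isWalk_replace hB this hwB hwG
    · by_cases h2 : g = f
      · subst h2
        rw [rf]
        have := P.route_walk g
        rw [hr'] at this
        exact M8.isWalk_replace hB' this hwB' hwH
      · rw [ro g h1 h2]
        exact P.route_walk g
  have hi : ∀ g, ∀ d ∈ (r g).tail, ∀ w, P.pt d ≠ P.loc w := by
    intro g d hd w hdw
    have h0 : ∑ g, M8.inner P.pt (P.loc w) (P.route g) = 0 := by
      refine Finset.sum_eq_zero fun g _ => ?_
      rw [M8.inner, List.count_eq_zero]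
      intro h1
      obtain ⟨d', h2, h3⟩ := List.mem_map.1 h1
      exact P.route_inner g d' h2 w h3
    rw [← hin, Finset.sum_eq_zero_iff] at h0
    have h1 := h0 g (Finset.mem_univ g)
    rw [M8.inner, List.count_eq_zero] at h1
    exact h1 (List.mem_map.2 ⟨d, hd, hdw⟩)
  have hu : ∀ d, ∑ g, M8.use P.α d (r g) ≤ 1 := by
    intro d
    rw [huse]
    exact P.route_use d
  set P' := P.reroute r hw hi hu with hP'
  have hpasses : ∀ x : P.X, P'.passes x = P.passes x := fun x => hin x
  have hs' : P'.Simple := fun x => (hpasses x).le.trans (hs x)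
  have ho' : P'.crossings = crM src tgt := by
    rw [← ho]
    have : ∀ x : P.X, P'.passes x = 2 ↔ P.passes x = 2 := fun x => by rw [hpasses]
    exact Nat.card_congr (Equiv.subtypeEquivRight this)
  exact not_adjacent P' hs' ho' e l₁ l₂ c b (re.trans hnew) ((hpasses _).trans hpass) hadj

/-- An edge does not pass twice through the same point of an optimal drawing. -/
theorem self_of_optimal (P : PreDrawing src tgt) (hs : P.Simple)
    (ho : P.crossings = crM src tgt) (e : E) : ((P.route e).tail.map P.pt).Nodup := by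
  classical
  by_contra hcon
  obtain ⟨t₁, d₁, t₂, d₂, t₃, ht, hd⟩ := M8.exists_dup hcon
  have hne : P.route e ≠ [] := by
    intro h
    rw [h] at ht
    simp at ht
  obtain ⟨a, t, hat⟩ := List.exists_cons_of_ne_nil hne
  rw [hat, List.tail_cons] at ht
  have hr : P.route e = (a :: t₁) ++ (d₁ :: t₂) ++ (d₂ :: t₃) := by
    rw [hat, ht]
    simp
  set r : E → List P.D := Function.update P.route e ((a :: t₁) ++ (d₂ :: t₃)) with hrdef
  have re : r e = (a :: t₁) ++ (d₂ :: t₃) := by rw [hrdef, Function.update_self]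
  have ro : ∀ g, g ≠ e → r g = P.route g := fun g h1 => by
    rw [hrdef, Function.update_of_ne h1]
  have hw : ∀ g, IsWalk P.pt P.α (P.loc (src g)) (P.loc (tgt g)) (r g) := by
    intro g
    by_cases h1 : g = e
    · subst h1
      have h2 := P.route_walk g
      rw [hr, M8.isWalk_append] at h2
      obtain ⟨z, h3, h4⟩ := h2
      rw [M8.isWalk_append] at h3
      obtain ⟨w, h5, h6⟩ := h3
      have e1 : P.pt d₁ = w := h6.1
      have e2 : P.pt d₂ = z := h4.1
      rw [re, M8.isWalk_append]
      refine ⟨w, h5, ?_⟩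
      rw [← e1, hd, e2]
      exact h4
    · rw [ro g h1]
      exact P.route_walk g
  have hle : ∀ (F : List P.D → ℕ), F (r e) ≤ F (P.route e) →
      ∑ g, F (r g) ≤ ∑ g, F (P.route g) := by
    intro F hF
    refine Finset.sum_le_sum fun g _ => ?_
    by_cases h1 : g = e
    · subst h1; exact hF
    · rw [ro g h1]
  have hin1 : ∀ z, M8.inner P.pt z (r e) ≤ M8.inner P.pt z (P.route e) := by
    intro z
    rw [re, hr]
    simp only [M8.inner, List.cons_append, List.tail_cons, List.map_append, List.count_append,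
      List.append_assoc, List.map_cons, List.count_cons]
    omega
  have hi : ∀ g, ∀ d ∈ (r g).tail, ∀ w, P.pt d ≠ P.loc w := by
    intro g d hd' w hdw
    have h0 : ∑ g, M8.inner P.pt (P.loc w) (P.route g) = 0 := by
      refine Finset.sum_eq_zero fun g _ => ?_
      rw [M8.inner, List.count_eq_zero]
      intro h1
      obtain ⟨d', h2, h3⟩ := List.mem_map.1 h1
      exact P.route_inner g d' h2 w h3
    have h0' : ∑ g, M8.inner P.pt (P.loc w) (r g) = 0 :=
      Nat.le_zero.1 (h0 ▸ hle (fun l => M8.inner P.pt (P.loc w) l) (hin1 _))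
    rw [Finset.sum_eq_zero_iff] at h0'
    have h1 := h0' g (Finset.mem_univ g)
    rw [M8.inner, List.count_eq_zero] at h1
    exact h1 (List.mem_map.2 ⟨d, hd', hdw⟩)
  have hu : ∀ d, ∑ g, M8.use P.α d (r g) ≤ 1 := by
    intro d
    refine (hle (fun l => M8.use P.α d l) ?_).trans (P.route_use d)
    rw [re, hr]
    simp only [M8.use, List.count_append]
    omega
  set P' := P.reroute r hw hi hu with hP'
  have hpasses : ∀ x : P.X, P'.passes x ≤ P.passes x := fun x =>
    hle (fun l => M8.inner P.pt x l) (hin1 x)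
  have hs' : P'.Simple := fun x => (hpasses x).trans (hs x)
  have hx : P'.passes (P.pt d₁) < P.passes (P.pt d₁) := by
    refine Finset.sum_lt_sum (fun g _ => ?_) ⟨e, Finset.mem_univ e, ?_⟩
    · by_cases h1 : g = e
      · subst h1; exact hin1 _
      · show M8.inner P.pt _ (r g) ≤ _
        rw [ro g h1]; exact le_rfl
    · show M8.inner P.pt (P.pt d₁) (r e) < M8.inner P.pt (P.pt d₁) (P.route e)
      rw [re, hr]
      simp only [M8.inner, List.cons_append, List.tail_cons, List.map_append, List.count_append,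
        List.append_assoc, List.map_cons, List.count_cons_self]
      omega
  have hlt : P'.crossings < P.crossings := by
    have hc := P.crossings_eq_cost
    have hc' := P'.crossings_eq_cost
    rw [hc, hc']
    have hp2 : P.passes (P.pt d₁) = 2 := by
      refine le_antisymm (hs _) ?_
      have h1 : ((P.route e).tail.map P.pt).count (P.pt d₁) ≤ P.passes (P.pt d₁) :=
        Finset.single_le_sum (f := fun g => ((P.route g).tail.map P.pt).count (P.pt d₁))
          (fun _ _ => Nat.zero_le _) (Finset.mem_univ e)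
      refine le_trans ?_ h1
      rw [hr]
      simp only [List.cons_append, List.tail_cons, List.map_append, List.count_append,
        List.append_assoc, List.map_cons, List.count_cons_self, hd]
      omega
    refine Finset.sum_lt_sum (fun x _ => ?_) ⟨P.pt d₁, Finset.mem_univ _, ?_⟩
    · have h1 := hpasses x
      have h2 := hs x
      show (if P'.passes x = 2 then 1 else 0) ≤ (if P.passes x = 2 then 1 else 0)
      split_ifs with k1 k2
      · exact le_rfl
      · exfalso; omega
      · omega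
      · exact le_rfl
    · show (if P'.passes (P.pt d₁) = 2 then 1 else 0) < (if P.passes (P.pt d₁) = 2 then 1 else 0)
      rw [if_neg (by omega), if_pos hp2]
      exact one_pos
  have := P'.crM_le hs'
  omega

theorem src_src_false (P : PreDrawing src tgt) (hP : P.Clean) (hs : P.Simple)
    (ho : P.crossings = crM src tgt) {e f : E} (hef : e ≠ f) {d d' : P.D}
    (hd : d ∈ (P.route e).tail) (hd' : d' ∈ (P.route f).tail) (hdd : P.pt d = P.pt d')
    (h : src e = src f) : False := by
  classical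
  have hp := P.passes_eq_two hs hef hd hd' hdd
  obtain ⟨l₁, c, l₂, hr⟩ := M8.exists_pred hd
  obtain ⟨l₁', c', l₂', hr'⟩ := M8.exists_pred hd'
  have hadj := P.all_adjacent hP hs ho hef hr hr' hdd
  have w1 := P.route_walk e
  have w2 := P.route_walk f
  have r1 : P.route e = [] ++ (l₁ ++ [c]) ++ (d :: l₂) := by rw [hr]; simp
  have r2 : P.route f = [] ++ (l₁' ++ [c']) ++ (d' :: l₂') := by rw [hr']; simp
  rw [r1, List.nil_append, M8.isWalk_append] at w1
  rw [r2, List.nil_append, M8.isWalk_append] at w2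
  obtain ⟨z, w1, w1'⟩ := w1
  obtain ⟨z', w2, w2'⟩ := w2
  have e1 : P.pt d = z := w1'.1
  have e2 : P.pt d' = z' := w2'.1
  subst e1 e2
  rw [← hdd, ← h] at w2
  refine P.exchange_false hs ho hef r1 r2 (by simp) (by simp) w1 w2 (G := l₁' ++ [c'])
    (H := l₁ ++ [c]) (by simp) (by simp) w2 w1 (fun _ => rfl) (fun _ => rfl) (fun _ => rfl)
    (fun _ => rfl) (l₁ := l₁') (l₂ := l₂) (c := c') (b := d) (by simp) hp ?_
  exact hadj.2.2.1.symm

theorem tgt_tgt_false (P : PreDrawing src tgt) (hP : P.Clean) (hs : P.Simple)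
    (ho : P.crossings = crM src tgt) {e f : E} (hef : e ≠ f) {d d' : P.D}
    (hd : d ∈ (P.route e).tail) (hd' : d' ∈ (P.route f).tail) (hdd : P.pt d = P.pt d')
    (h : tgt e = tgt f) : False := by
  classical
  have hp := P.passes_eq_two hs hef hd hd' hdd
  obtain ⟨l₁, c, l₂, hr⟩ := M8.exists_pred hd
  obtain ⟨l₁', c', l₂', hr'⟩ := M8.exists_pred hd'
  have hadj := P.all_adjacent hP hs ho hef hr hr' hdd
  have w1 := P.route_walk e
  have w2 := P.route_walk f
  have r1 : P.route e = (l₁ ++ [c]) ++ (d :: l₂) ++ [] := by rw [hr]; simp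
  have r2 : P.route f = (l₁' ++ [c']) ++ (d' :: l₂') ++ [] := by rw [hr']; simp
  rw [r1, List.append_nil, M8.isWalk_append] at w1
  rw [r2, List.append_nil, M8.isWalk_append] at w2
  obtain ⟨z, w1, w1'⟩ := w1
  obtain ⟨z', w2, w2'⟩ := w2
  have e1 : P.pt d = z := w1'.1
  have e2 : P.pt d' = z' := w2'.1
  subst e1 e2
  rw [← hdd, ← h] at w2'
  refine P.exchange_false hs ho hef r1 r2 (by simp) (by simp) w1' w2' (G := d' :: l₂')
    (H := d :: l₂) (by simp) (by simp) w2' w1' (fun _ => rfl) (fun _ => rfl) (fun _ => rfl)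
    (fun _ => rfl) (l₁ := l₁) (l₂ := l₂') (c := c) (b := d') (by simp) (hdd ▸ hp) ?_
  exact hadj.2.1

theorem src_tgt_false (P : PreDrawing src tgt) (hP : P.Clean) (hs : P.Simple)
    (ho : P.crossings = crM src tgt) {e f : E} (hef : e ≠ f) {d d' : P.D}
    (hd : d ∈ (P.route e).tail) (hd' : d' ∈ (P.route f).tail) (hdd : P.pt d = P.pt d')
    (h : src e = tgt f) : False := by
  classical
  have hp := P.passes_eq_two hs hef hd hd' hdd
  obtain ⟨l₁, c, l₂, hr⟩ := M8.exists_pred hd
  obtain ⟨l₁', c', l₂', hr'⟩ := M8.exists_pred hd'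
  have hadj := P.all_adjacent hP hs ho hef hr hr' hdd
  have w1 := P.route_walk e
  have w2 := P.route_walk f
  have r1 : P.route e = [] ++ (l₁ ++ [c]) ++ (d :: l₂) := by rw [hr]; simp
  have r2 : P.route f = (l₁' ++ [c']) ++ (d' :: l₂') ++ [] := by rw [hr']; simp
  rw [r1, List.nil_append, M8.isWalk_append] at w1
  rw [r2, List.append_nil, M8.isWalk_append] at w2
  obtain ⟨z, w1, w1'⟩ := w1
  obtain ⟨z', w2, w2'⟩ := w2
  have e1 : P.pt d = z := w1'.1
  have e2 : P.pt d' = z' := w2'.1
  subst e1 e2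
  rw [← hdd, ← h] at w2'
  have hne1 : l₁ ++ [c] ≠ [] := by simp
  have hne2 : d' :: l₂' ≠ [] := by simp
  refine P.exchange_false hs ho hef r1 r2 hne1 hne2 w1 w2' (G := M8.rev P.α (d' :: l₂'))
    (H := M8.rev P.α (l₁ ++ [c])) (M8.rev_ne_nil hne2) (M8.rev_ne_nil hne1)
    (M8.isWalk_rev P.α_invol w2') (M8.isWalk_rev P.α_invol w1)
    (fun _ => M8.use_rev P.α_invol _ _) (fun _ => M8.use_rev P.α_invol _ _)
    (fun _ => M8.inner_rev P.α_invol _ hne2 w2') (fun _ => M8.inner_rev P.α_invol _ hne1 w1)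
    (l₁ := M8.rev P.α l₂') (l₂ := l₂) (c := P.α d') (b := d)
    (by rw [M8.rev_cons]; simp) hp ?_
  rw [P.α_invol]
  exact hadj.2.2.2.symm

theorem twice_aux (P : PreDrawing src tgt) (hP : P.Clean) (hs : P.Simple)
    (ho : P.crossings = crM src tgt) {e f : E} (hef : e ≠ f) {d₁ d₂ d₁' d₂' : P.D}
    {l₁ m l₂ : List P.D} {c : P.D} (hr : P.route e = (l₁ ++ [c]) ++ (d₁ :: m) ++ (d₂ :: l₂))
    (h₁' : d₁' ∈ (P.route f).tail) (h₂' : d₂' ∈ (P.route f).tail) (h1 : P.pt d₁ = P.pt d₁')
    (h2 : P.pt d₂ = P.pt d₂') (hne : P.pt d₁ ≠ P.pt d₂) : False := by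
  classical
  have hr1 : P.route e = l₁ ++ c :: d₁ :: (m ++ (d₂ :: l₂)) := by rw [hr]; simp
  have h₁ : d₁ ∈ (P.route e).tail := P.mem_tail hr1
  have h₂ : d₂ ∈ (P.route e).tail := by
    rw [hr, List.append_assoc, List.tail_append_of_ne_nil (by simp)]
    simp
  have hp1 := P.passes_eq_two hs hef h₁ h₁' h1
  have hp2 := P.passes_eq_two hs hef h₂ h₂' h2
  have w1 := P.route_walk e
  rw [hr, M8.isWalk_append] at w1
  obtain ⟨z, w1, w1c⟩ := w1
  rw [M8.isWalk_append] at w1
  obtain ⟨y, w1a, w1b⟩ := w1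
  have e1 : P.pt d₂ = z := w1c.1
  have e2 : P.pt d₁ = y := w1b.1
  subst e1 e2
  have hne' : d₁' ≠ d₂' := by
    rintro rfl
    exact hne (h1.trans h2.symm)
  rcases M8.exists_order h₁' h₂' hne' with ⟨l₁', c', m', l₂', hr'⟩ | ⟨l₁', c', m', l₂', hr'⟩
  · -- same order
    have hr1' : P.route f = l₁' ++ c' :: d₁' :: (m' ++ (d₂' :: l₂')) := by rw [hr']; simp
    have hadj := P.all_adjacent hP hs ho hef hr1 hr1' h1
    have w2 := P.route_walk f
    rw [hr', M8.isWalk_append] at w2
    obtain ⟨z, w2, w2c⟩ := w2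
    rw [M8.isWalk_append] at w2
    obtain ⟨y, w2a, w2b⟩ := w2
    have e1 : P.pt d₂' = z := w2c.1
    have e2 : P.pt d₁' = y := w2b.1
    subst e1 e2
    rw [← h1, ← h2] at w2b
    refine P.exchange_false hs ho hef hr hr' (by simp) (by simp) w1b w2b (G := d₁' :: m')
      (H := d₁ :: m) (by simp) (by simp) w2b w1b (fun _ => rfl) (fun _ => rfl) (fun _ => rfl)
      (fun _ => rfl) (l₁ := l₁) (l₂ := m' ++ d₂ :: l₂) (c := c) (b := d₁') (by simp)
      (h1 ▸ hp1) ?_
    exact hadj.2.1
  · -- opposite order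
    obtain ⟨s, c₂, t, hs2⟩ := M8.exists_pred h₂
    have hr2' : P.route f = l₁' ++ c' :: d₂' :: (m' ++ (d₁' :: l₂')) := by rw [hr']; simp
    have hadj := P.all_adjacent hP hs ho hef hs2 hr2' h2
    have w2 := P.route_walk f
    rw [hr', M8.isWalk_append] at w2
    obtain ⟨z, w2, w2c⟩ := w2
    rw [M8.isWalk_append] at w2
    obtain ⟨y, w2a, w2b⟩ := w2
    have e1 : P.pt d₁' = z := w2c.1
    have e2 : P.pt d₂' = y := w2b.1
    subst e1 e2
    rw [← h1, ← h2] at w2b
    have hne1 : d₁ :: m ≠ [] := by simp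
    have hne2 : d₂' :: m' ≠ [] := by simp
    refine P.exchange_false hs ho hef hr hr' hne1 hne2 w1b w2b (G := M8.rev P.α (d₂' :: m'))
      (H := M8.rev P.α (d₁ :: m)) (M8.rev_ne_nil hne2) (M8.rev_ne_nil hne1)
      (M8.isWalk_rev P.α_invol w2b) (M8.isWalk_rev P.α_invol w1b)
      (fun _ => M8.use_rev P.α_invol _ _) (fun _ => M8.use_rev P.α_invol _ _)
      (fun _ => M8.inner_rev P.α_invol _ hne2 w2b) (fun _ => M8.inner_rev P.α_invol _ hne1 w1b)
      (l₁ := (l₁ ++ [c]) ++ M8.rev P.α m') (l₂ := l₂) (c := P.α d₂') (b := d₂)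
      (by rw [M8.rev_cons]; simp) hp2 ?_
    rw [P.α_invol]
    exact hadj.2.2.2.symm

/-- M8 (optimal drawings are good). -/
theorem good_of_optimal (P : PreDrawing src tgt) (hne : ∀ e, src e ≠ tgt e) (hs : P.Simple)
    (ho : P.crossings = crM src tgt) : P.Good := by
  classical
  obtain ⟨P', hP', i, j, hj, hα, hroute, hpt, hpj, hpn⟩ := exists_clean P
  have hs' : P'.Simple := by
    intro x
    by_cases hx : x ∈ Set.range j
    · obtain ⟨y, rfl⟩ := hx
      rw [hpj]
      exact hs y
    · rw [hpn x hx]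
      omega
  have ho' : P'.crossings = crM src tgt := by
    rw [← ho]
    refine (Nat.card_congr (Equiv.ofBijective
      (fun x : {x : P.X // P.passes x = 2} => (⟨j x.1, (hpj x.1).trans x.2⟩ :
        {x : P'.X // P'.passes x = 2})) ⟨?_, ?_⟩)).symm
    · rintro ⟨x, hx⟩ ⟨y, hy⟩ hxy
      exact Subtype.ext (hj (congrArg Subtype.val hxy))
    · rintro ⟨x, hx⟩
      have hx' : x ∈ Set.range j := by
        by_contra hcon
        rw [hpn x hcon] at hx
        omega
      obtain ⟨y, rfl⟩ := hx'
      exact ⟨⟨y, (hpj y).symm.trans hx⟩, rfl⟩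
  have htail : ∀ e, (P'.route e).tail.map i = (P.route e).tail := by
    intro e
    rw [← hroute e, List.map_tail]
  have hlift : ∀ e, ∀ d ∈ (P.route e).tail, ∃ d₀ ∈ (P'.route e).tail, i d₀ = d ∧
      P'.pt d₀ = j (P.pt d) := by
    intro e d hd
    rw [← htail] at hd
    obtain ⟨d₀, h1, h2⟩ := List.mem_map.1 hd
    refine ⟨d₀, h1, h2, ?_⟩
    rw [hpt d₀ ⟨e, Or.inl (List.mem_of_mem_tail h1)⟩, h2]
  refine ⟨hs, P.self_of_optimal hs ho, ?_, ?_⟩
  · rintro e f hef ⟨d, hd, d', hd', hdd⟩
    obtain ⟨d₀, h1, -, h2⟩ := hlift e d hd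
    obtain ⟨d₀', h1', -, h2'⟩ := hlift f d' hd'
    have hdd' : P'.pt d₀ = P'.pt d₀' := by rw [h2, h2', hdd]
    refine ⟨?_, ?_, ?_, ?_⟩
    · exact fun h => P'.src_src_false hP' hs' ho' hef h1 h1' hdd' h
    · exact fun h => P'.src_tgt_false hP' hs' ho' hef h1 h1' hdd' h
    · exact fun h => P'.src_tgt_false hP' hs' ho' hef.symm h1' h1 hdd'.symm h.symm
    · exact fun h => P'.tgt_tgt_false hP' hs' ho' hef h1 h1' hdd' h
  · intro e f hef d₁ hd₁ d₁' hd₁' d₂ hd₂ d₂' hd₂' h1 h2
    by_contra hcon
    obtain ⟨a₁, m1, -, p1⟩ := hlift e d₁ hd₁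
    obtain ⟨a₁', m1', -, p1'⟩ := hlift f d₁' hd₁'
    obtain ⟨a₂, m2, -, p2⟩ := hlift e d₂ hd₂
    obtain ⟨a₂', m2', -, p2'⟩ := hlift f d₂' hd₂'
    have q1 : P'.pt a₁ = P'.pt a₁' := by rw [p1, p1', h1]
    have q2 : P'.pt a₂ = P'.pt a₂' := by rw [p2, p2', h2]
    have q3 : P'.pt a₁ ≠ P'.pt a₂ := by
      rw [p1, p2]
      exact fun h => hcon (hj h)
    have hne12 : a₁ ≠ a₂ := fun h => q3 (by rw [h])
    rcases M8.exists_order m1 m2 hne12 with ⟨l₁, c, m, l₂, hr⟩ | ⟨l₁, c, m, l₂, hr⟩
    · exact P'.twice_aux hP' hs' ho' hef hr m1' m2' q1 q2 q3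
    · exact P'.twice_aux hP' hs' ho' hef hr m2' m1' q2 q1 q3.symm

end PreDrawing

end Helper5.CR
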