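import Pool.Agent.Helper34.CR.Resolution
import Pool.Agent.Helper5.CR.M8
import Pool.Agent.Helper98.CR.M9
import Pool.Agent.Helper13.CR.M10
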