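import Pool.Agent.Helper5.CR.B1
import Pool.Agent.Helper5.CR.Box

namespace Helper5.CR

open Finset

open Classical in
/-- crossing number of the subgraph formed by a set of edges -/
noncomputable def crS {V E : Type} [Fintype E] (src tgt : E → V) (S : E → Prop) : ℕ :=
  crM (fun e : {e // S e} => src e.1) (fun e : {e // S e} => tgt e.1)

namespace PreDrawing

variable {V E : Type} [Fintype E] {src tgt : E → V}

theorem ite_of_iff {p q : Prop} {dp : Decidable p} {dq : Decidable q} (h : p ↔ q) :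
    (if p then 1 else 0 : ℕ) = if q then 1 else 0 := by
  by_cases hp : p
  · rw [if_pos hp, if_pos (h.1 hp)]
  · rw [if_neg hp, if_neg (fun hq => hp (h.2 hq))]

theorem card_le_sum (P : PreDrawing src tgt) (Q : P.X → Prop) (R : P.X2 → Prop) [DecidablePred R]
    (h : ∀ x, Q x → ∃ hx : P.passes x = 2, R ⟨x, hx⟩) :
    Nat.card {x // Q x} ≤ ∑ x : P.X2, if R x then 1 else 0 := by
  classical
  rw [← Finset.card_filter, ← Fintype.card_subtype, ← Nat.card_eq_fintype_card]
  refine Nat.card_le_card_of_injective (fun x : {x // Q x} => (⟨⟨x.1, (h x.1 x.2).choose⟩,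
    (h x.1 x.2).choose_spec⟩ : {x : P.X2 // R x})) ?_
  intro x y hxy
  simp only [Subtype.mk.injEq] at hxy
  exact Subtype.ext hxy

open Classical in
/-- the second plane -/
theorem plane2_le (P : PreDrawing src tgt) (hG : P.Good) (S : E → Prop) :
    crS src tgt S ≤
      ∑ x : P.X2, if S (P.ed₁ hG x) ∧ S (P.ed₂ hG x) then 1 else 0 := by
  refine (crM_restrict P hG.simple S).trans ?_
  apply P.card_le_sum
  intro x hx
  obtain ⟨h1, h2, h3⟩ := P.sum_eq_two hG S (fun _ => True) x (by simpa using hx)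
  exact ⟨h1, h2.1, h3.1⟩

open Classical in
/-- the first plane, without window -/
theorem plane1_le (P : PreDrawing src tgt) (hG : P.Good) (hne : ∀ e, src e ≠ tgt e)
    (col : V → Bool) (S : E → Prop) (hS : ∀ e, S e → col (src e) = col (tgt e)) :
    crS src tgt S ≤
      ∑ x : P.X2, if S (P.ed₁ hG x) ∧ S (P.ed₂ hG x) ∧
        col (src (P.ed₁ hG x)) = col (src (P.ed₂ hG x)) then 1 else 0 := by
  by_cases hX : IsEmpty P.X2
  · refine (P.plane2_le hG S).trans ?_
    rw [Finset.univ_eq_empty]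
    simp
  · rw [not_isEmpty_iff] at hX
    obtain ⟨x0⟩ := hX
    refine (crM_lift P hG.simple col S [] x0.1 x0.1 rfl (by simp) (fun e _ => hne e)
      (fun e _ => hG.self e) (by simp) P.route (fun _ => []) (by simp)
      (fun e he => Or.inl ⟨rfl, hS e he⟩)).trans ?_
    have h0 : PreDrawing.gr (∑ e : {e // S e}, ((P.route e.1).tail.filter
        (fun d => ∃ c ∈ ([] : List P.D), P.pt d = P.pt c ∨ P.pt d = P.pt (P.α c))).length) = 0 := by
      simp [PreDrawing.gr]
    rw [h0, add_zero]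
    have h1 : ∀ b : Bool, Nat.card {x : P.X // (¬ ∃ c ∈ ([] : List P.D), x = P.pt c ∨
        x = P.pt (P.α c)) ∧
        ∑ e : {e // S e}, ((if col (src e.1) = b then ((P.route e.1).tail.map P.pt).count x else 0) +
          (if col (tgt e.1) = b then (([] : List P.D).map P.pt).count x else 0)) = 2} ≤
        ∑ x : P.X2, if (S (P.ed₁ hG x) ∧ col (src (P.ed₁ hG x)) = b) ∧
          (S (P.ed₂ hG x) ∧ col (src (P.ed₂ hG x)) = b) then 1 else 0 := by
      intro b
      apply P.card_le_sum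
      intro x hx
      exact P.sum_eq_two hG S (fun e => col (src e) = b) x (by simpa using hx.2)
    refine (Finset.sum_le_sum (fun b _ => h1 b)).trans ?_
    rw [Finset.sum_comm]
    apply Finset.sum_le_sum
    intro x _
    rw [Fintype.sum_bool]
    by_cases a1 : S (P.ed₁ hG x) <;> by_cases a2 : S (P.ed₂ hG x) <;>
      rcases a3 : col (src (P.ed₁ hG x)) <;> rcases a4 : col (src (P.ed₂ hG x)) <;> simp [a1, a2]

open Classical in
/-- the general form of the decomposition theorems -/
theorem sparse_bound [Fintype V] (P : PreDrawing src tgt) (hG : P.Good) (hne : ∀ e, src e ≠ tgt e)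
    (I : Finset E) (hI : ∀ x, ¬ (P.ed₁ hG x ∈ I ∧ P.ed₂ hG x ∈ I))
    (hk : ∀ e ∈ I, 0 < (P.toCSys hG hne).k e) (K : ℕ)
    (hK : ∀ e ∈ I, (P.toCSys hG hne).k e ≤ K) :
    ∃ S : E → Prop, 2 ^ (2 + 2 * K) * (8 * (crS src tgt S + crS src tgt (fun e => ¬ S e))) +
      8 * I.card ≤
      2 ^ (2 + 2 * K) * (3 * P.crossings) := by
  obtain ⟨col, hcol⟩ := (P.toCSys hG hne).exists_sparse I hI hk K hK
  rw [P.card_X2] at hcol
  refine ⟨fun e => (P.toCSys hG hne).mono col e ∧ ¬ (P.toCSys hG hne).moved I col e, ?_⟩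
  refine le_trans (Nat.add_le_add_right (Nat.mul_le_mul_left _ (Nat.mul_le_mul_left _ ?_)) _) hcol
  refine (Nat.add_le_add (P.plane1_le hG hne col (fun e => (P.toCSys hG hne).mono col e ∧
      ¬ (P.toCSys hG hne).moved I col e) (fun e he => he.1))
    (P.plane2_le hG (fun e => ¬ ((P.toCSys hG hne).mono col e ∧
      ¬ (P.toCSys hG hne).moved I col e)))).trans ?_
  rw [← Finset.sum_add_distrib]
  apply Finset.sum_le_sum
  intro x _
  unfold CSys.cost1
  apply Nat.add_le_add
  · refine le_of_eq (ite_of_iff ?_)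
    rfl
  · refine le_of_eq (ite_of_iff ?_)
    show (¬ (_ ∧ ¬ _) ∧ ¬ (_ ∧ ¬ _)) ↔ ((¬ _ ∨ _) ∧ (¬ _ ∨ _))
    tauto

open Classical in
theorem strict_bound [Fintype V] (P : PreDrawing src tgt) (hG : P.Good)
    (hne : ∀ e, src e ≠ tgt e) (hX : 0 < P.crossings) :
    ∃ S : E → Prop, 8 * (crS src tgt S + crS src tgt (fun e => ¬ S e)) < 3 * P.crossings := by
  obtain ⟨col, hcol⟩ := (P.toCSys hG hne).exists_base_lt (by rw [P.card_X2]; exact hX)
  rw [P.card_X2] at hcol
  refine ⟨fun e => (P.toCSys hG hne).mono col e, lt_of_le_of_lt (Nat.mul_le_mul_left _ ?_) hcol⟩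
  refine (Nat.add_le_add (P.plane1_le hG hne col (fun e => (P.toCSys hG hne).mono col e) (fun e he => he))
    (P.plane2_le hG (fun e => ¬ ((P.toCSys hG hne).mono col e)))).trans ?_
  rw [← Finset.sum_add_distrib]
  apply Finset.sum_le_sum
  intro x _
  unfold CSys.base
  apply Nat.add_le_add
  · exact le_of_eq (ite_of_iff Iff.rfl)
  · exact le_of_eq (ite_of_iff Iff.rfl)

end PreDrawing
end Helper5.CR
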