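import Pool.Agent.Helper5.CR.B2

namespace Helper5.CR

open Finset

theorem isWalk_append {D X : Type} (pt : D → X) (α : Equiv.Perm D) (l₁ l₂ : List D) (x y : X) :
    IsWalk pt α x y (l₁ ++ l₂) ↔ ∃ z, IsWalk pt α x z l₁ ∧ IsWalk pt α z y l₂ := by
  induction l₁ generalizing x with
  | nil => simp [IsWalk]
  | cons d l ih => simp [IsWalk, ih, and_assoc]

theorem walk_points {D X : Type} (pt : D → X) (α : Equiv.Perm D) (l : List D) (u z : X)
    (h : IsWalk pt α u z l) (hl : l ≠ []) (x : X) :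
    (∃ c ∈ l, x = pt c ∨ x = pt (α c)) ↔ ((∃ c ∈ l, x = pt c) ∨ x = z) := by
  induction l generalizing u with
  | nil => exact absurd rfl hl
  | cons d l ih =>
    obtain ⟨h1, h2⟩ := h
    cases l with
    | nil =>
      have h3 : pt (α d) = z := h2
      simp [h3]
    | cons d' l' =>
      have h3 := ih _ h2 (by simp)
      have h4 : pt d' = pt (α d) := h2.1
      simp only [List.mem_cons, exists_eq_or_imp] at h3 ⊢
      constructor
      · rintro ((h | h) | h)
        · exact Or.inl (Or.inl h)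
        · left; right; left; rw [h4]; exact h
        · rcases h3.1 h with h' | h'
          · exact Or.inl (Or.inr h')
          · exact Or.inr h'
      · rintro ((h | h) | h)
        · exact Or.inl (Or.inl h)
        · exact Or.inr (h3.2 (Or.inl h))
        · exact Or.inr (h3.2 (Or.inr h))

theorem filter_length_le_one {D X : Type} (pt : D → X) (q : D → Bool) (l : List D)
    (hl : (l.map pt).Nodup) (h : ∀ d ∈ l, ∀ d' ∈ l, q d = true → q d' = true → pt d = pt d') :
    (l.filter q).length ≤ 1 := by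
  have h1 : ((l.filter q).map pt).Nodup := hl.sublist (List.Sublist.map _ List.filter_sublist)
  by_contra hcon
  push Not at hcon
  match hm : l.filter q, hcon with
  | a :: b :: m, _ =>
    rw [hm] at h1
    have ha : a ∈ l.filter q := by rw [hm]; simp
    have hb : b ∈ l.filter q := by rw [hm]; simp
    rw [List.mem_filter] at ha hb
    have := h a ha.1 b hb.1 ha.2 hb.2
    simp [this] at h1

theorem ite_le_of_imp {p q : Prop} {dp : Decidable p} {dq : Decidable q} (h : p → q) :
    (if p then 1 else 0 : ℕ) ≤ if q then 1 else 0 := by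
  by_cases hp : p
  · rw [if_pos hp, if_pos (h hp)]
  · rw [if_neg hp]; exact Nat.zero_le _

theorem bool_pair (p q : Prop) (a b : Bool) {d1 : Decidable ((p ∧ a = true) ∧ (q ∧ b = true))}
    {d2 : Decidable ((p ∧ a = false) ∧ (q ∧ b = false))} {d3 : Decidable (p ∧ q ∧ a = b)} :
    (if (p ∧ a = true) ∧ (q ∧ b = true) then 1 else 0 : ℕ) +
      (if (p ∧ a = false) ∧ (q ∧ b = false) then 1 else 0) = if p ∧ q ∧ a = b then 1 else 0 := by
  by_cases hp : p
  · by_cases hq : q
    · cases a <;> cases b <;> simp [hp, hq]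
    · simp [hq]
  · simp [hp]

namespace PreDrawing

variable {V E : Type} [Fintype E] {src tgt : E → V}

theorem gr_le (n : ℕ) : gr n ≤ n ^ 2 := by
  unfold gr
  split_ifs with h1 h2
  · exact Nat.zero_le _
  · subst h2; norm_num
  · exact le_rfl

open Classical in
/-- the edges crossing the window `t₁` of the edge `f` -/
noncomputable def winEdges (P : PreDrawing src tgt) (f : E) (t₁ : List P.D) : Finset E :=
  univ.filter (fun e => e ≠ f ∧ ∃ d ∈ t₁, P.thru e (P.pt d))

open Classical in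
theorem dense_bound [Fintype V] (P : PreDrawing src tgt) (hG : P.Good) (hne : ∀ e, src e ≠ tgt e)
    (f : E) (t₀ t₁ t₂ : List P.D) (ht : (P.route f).tail = t₀ ++ t₁ ++ t₂)
    (hlen : 2 ≤ t₁.length) :
    ∃ S : E → Prop, 8 * (crS src tgt S + crS src tgt (fun e => ¬ S e)) +
      ∑ e ∈ P.winEdges f t₁, (P.toCSys hG hne).k e ≤
      3 * P.crossings + (P.toCSys hG hne).k f + 11 * (P.winEdges f t₁).card ^ 2 := by
  set W := P.winEdges f t₁ with hW
  have hmemW : ∀ e, e ∈ W ↔ (e ≠ f ∧ ∃ d ∈ t₁, P.thru e (P.pt d)) := by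
    intro e; rw [hW]; unfold winEdges; simp
  have hfW : f ∉ W := fun h => ((hmemW f).1 h).1 rfl
  have ht1 : ∀ d ∈ t₁, d ∈ (P.route f).tail := by
    intro d hd; rw [ht]; simp [hd]
  -- the walk
  have hwalk : ∃ u v, IsWalk P.pt P.α u v t₁ := by
    have h1 := P.route_walk f
    have hr : P.route f ≠ [] := by
      intro h
      have : t₁ = [] := by
        have h2 : t₀ ++ t₁ ++ t₂ = [] := by rw [← ht, h]; rfl
        simp at h2
        exact h2.2.1
      rw [this] at hlen
      simp at hlen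
    obtain ⟨d, l, hdl⟩ := List.exists_cons_of_ne_nil hr
    rw [hdl] at h1 ht
    simp only [List.tail_cons] at ht
    subst ht
    have h2 := h1.2
    rw [isWalk_append, ] at h2
    obtain ⟨z, h3, _⟩ := h2
    rw [isWalk_append] at h3
    obtain ⟨u, _, h4⟩ := h3
    exact ⟨u, z, h4⟩
  obtain ⟨u, v, huv⟩ := hwalk
  set wl := t₁.dropLast with hwl
  have hne1 : t₁ ≠ [] := by rintro rfl; simp at hlen
  have hlast : t₁ = wl ++ [t₁.getLast hne1] := (List.dropLast_append_getLast hne1).symm
  have hwne : wl ≠ [] := by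
    intro h
    have h2 := congrArg List.length hwl
    rw [h, List.length_dropLast] at h2
    simp at h2
    omega
  have hwz : ∃ z, IsWalk P.pt P.α u z wl ∧ P.pt (t₁.getLast hne1) = z := by
    rw [hlast, isWalk_append] at huv
    obtain ⟨z, h1, h2⟩ := huv
    exact ⟨z, h1, h2.1⟩
  obtain ⟨z, hz, hzl⟩ := hwz
  have hwin : ∀ x, (∃ c ∈ wl, x = P.pt c ∨ x = P.pt (P.α c)) ↔ ∃ d ∈ t₁, x = P.pt d := by
    intro x
    rw [walk_points P.pt P.α wl u z hz hwne x]
    constructor
    · rintro (⟨c, hc, h⟩ | h)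
      · exact ⟨c, by rw [hlast]; simp [hc], h⟩
      · exact ⟨_, List.getLast_mem hne1, by rw [h, hzl]⟩
    · rintro ⟨d, hd, h⟩
      rw [hlast] at hd
      rcases List.mem_append.1 hd with hd | hd
      · exact Or.inl ⟨d, hd, h⟩
      · rw [List.mem_singleton] at hd
        right; rw [h, hd, hzl]
  have hthruf : ∀ d ∈ t₁, P.thru f (P.pt d) := by
    intro d hd
    exact List.mem_map_of_mem (ht1 d hd)
  -- cutting the routes
  have hcut : ∀ e, ∃ q : List P.D × List P.D, P.route e = q.1 ++ q.2 ∧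
      ((e ∈ W ∧ q.1 ≠ [] ∧ ∃ d l, q.2 = d :: l ∧ ∃ d' ∈ t₁, P.pt d = P.pt d') ∨
        (e ∉ W ∧ q.2 = [])) := by
    intro e
    by_cases he : e ∈ W
    · obtain ⟨_, d', hd', hth⟩ := (hmemW e).1 he
      obtain ⟨d, hd, hpt⟩ := List.mem_map.1 hth
      have hr : P.route e ≠ [] := by rintro h; rw [h] at hd; simp at hd
      obtain ⟨d0, l, hdl⟩ := List.exists_cons_of_ne_nil hr
      rw [hdl] at hd
      simp only [List.tail_cons] at hd
      obtain ⟨a, b, hab⟩ := List.append_of_mem hd
      exact ⟨(d0 :: a, d :: b), by rw [hdl, hab]; simp, Or.inl ⟨he, by simp, d, b, rfl, d', hd',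
        hpt⟩⟩
    · exact ⟨(P.route e, []), by simp, Or.inr ⟨he, rfl⟩⟩
  choose q hq1 hq2 using hcut
  let en : E → P.X → V := fun e x => if x ∈ ((q e).2.map P.pt) then tgt e else src e
  obtain ⟨col, hcol⟩ := (P.toCSys hG hne).exists_dense f W hfW
    (fun x => en (P.ed₁ hG x) x.1) (fun x => en (P.ed₂ hG x) x.1)
    (by intro x; simp only [en]; split_ifs; exacts [Or.inr rfl, Or.inl rfl])
    (by intro x; simp only [en]; split_ifs; exacts [Or.inr rfl, Or.inl rfl])
  rw [P.card_X2] at hcol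
  obtain ⟨S, hS⟩ : ∃ S : E → Prop, ∀ e, S e ↔
      (e ≠ f ∧ ((P.toCSys hG hne).mono col e ∨ e ∈ W)) := ⟨_, fun _ => Iff.rfl⟩
  refine ⟨S, ?_⟩
  -- the window is crossed at most once
  have honce : ∀ e, e ≠ f → ∀ d ∈ (P.route e).tail, ∀ d' ∈ (P.route e).tail,
      (∃ c ∈ wl, P.pt d = P.pt c ∨ P.pt d = P.pt (P.α c)) →
      (∃ c ∈ wl, P.pt d' = P.pt c ∨ P.pt d' = P.pt (P.α c)) → P.pt d = P.pt d' := by
    intro e he d hd d' hd' h1 h2
    obtain ⟨c, hc, hcp⟩ := (hwin _).1 h1
    obtain ⟨c', hc', hcp'⟩ := (hwin _).1 h2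
    exact P.eq_of_thru hG he (List.mem_map_of_mem hd) (by rw [hcp]; exact hthruf c hc)
      (List.mem_map_of_mem hd') (by rw [hcp']; exact hthruf c' hc')
  have hinj : ∀ e, ∀ d ∈ (P.route e).tail, ∀ d' ∈ (P.route e).tail, P.pt d = P.pt d' → d = d' := by
    intro e d hd d' hd' h
    exact List.inj_on_of_nodup_map (hG.self e) hd hd' h
  have hplane1 := crM_lift P hG.simple col S wl u z hz
    (by
      intro c hc v'
      have hc1 : c ∈ t₁ := by rw [hlast]; simp [hc]
      refine ⟨P.route_inner f c (ht1 c hc1) v', ?_⟩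
      obtain ⟨d, hd, hdp⟩ := (hwin (P.pt (P.α c))).1 ⟨c, hc, Or.inr rfl⟩
      rw [hdp]
      exact P.route_inner f d (ht1 d hd) v')
    (fun e _ => hne e) (fun e _ => hG.self e)
    (fun e he d hd d' hd' h1 h2 => hinj e d hd d' hd'
      (honce e ((hS e).1 he).1 d hd d' hd' h1 h2))
    (fun e => (q e).1) (fun e => (q e).2) (fun e _ => hq1 e)
    (by
      intro e he
      rcases hq2 e with ⟨_, h2, d, l, h3, h4⟩ | ⟨h1, h2⟩
      · exact Or.inr ⟨h2, d, l, h3, (hwin _).2 h4⟩
      · exact Or.inl ⟨h2, ((hS e).1 he).2.resolve_right h1⟩)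
  have hb : ∀ b : Bool, Nat.card {x : P.X // (¬ ∃ c ∈ wl, x = P.pt c ∨ x = P.pt (P.α c)) ∧
        ∑ e : {e // S e}, ((if col (src e.1) = b then (((q e.1).1).tail.map P.pt).count x else 0) +
          (if col (tgt e.1) = b then (((q e.1).2).map P.pt).count x else 0)) = 2} ≤
        ∑ x : P.X2, if (S (P.ed₁ hG x) ∧ col (en (P.ed₁ hG x) x.1) = b) ∧
          (S (P.ed₂ hG x) ∧ col (en (P.ed₂ hG x) x.1) = b) then 1 else 0 := by
    intro b
    apply P.card_le_sum
    intro x hx
    refine P.sum_eq_two hG S (fun e => col (en e x) = b) x ?_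
    rw [← hx.2]
    refine Finset.sum_congr rfl fun e _ => ?_
    have hnd := hG.self e.1
    rcases hq2 e.1 with ⟨_, h2, _⟩ | ⟨_, h2⟩
    · have htail : (P.route e.1).tail = (q e.1).1.tail ++ (q e.1).2 := by
        rw [hq1 e.1, List.tail_append_of_ne_nil h2]
      rw [htail, List.map_append, List.count_append]
      rw [htail, List.map_append, List.nodup_append] at hnd
      by_cases hx2 : x ∈ (q e.1).2.map P.pt
      · have hx1 : x ∉ (q e.1).1.tail.map P.pt := fun h => hnd.2.2 x h x hx2 rfl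
        rw [List.count_eq_zero_of_not_mem hx1]
        simp only [en, if_pos hx2]
        simp
      · rw [List.count_eq_zero_of_not_mem hx2]
        simp only [en, if_neg hx2]
        simp
    · have h3 : (q e.1).1 = P.route e.1 := by rw [hq1 e.1, h2]; simp
      rw [h3, h2]
      simp [en, h2]
  have hgr : ∑ e : {e // S e}, ((P.route e.1).tail.filter
        (fun d => ∃ c ∈ wl, P.pt d = P.pt c ∨ P.pt d = P.pt (P.α c))).length ≤ W.card := by
    rw [sum_sub S (fun e => ((P.route e).tail.filter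
        (fun d => ∃ c ∈ wl, P.pt d = P.pt c ∨ P.pt d = P.pt (P.α c))).length)]
    have h1 : W.card = ∑ e, if e ∈ W then 1 else 0 := by simp
    rw [h1]
    apply Finset.sum_le_sum
    intro e _
    by_cases he : S e
    · rw [if_pos he]
      by_cases hw : e ∈ W
      · rw [if_pos hw]
        apply filter_length_le_one P.pt _ _ (hG.self e)
        intro d hd d' hd' h2 h3
        exact honce e ((hS e).1 he).1 d hd d' hd' (of_decide_eq_true h2) (of_decide_eq_true h3)
      · rw [if_neg hw, Nat.le_zero, List.length_eq_zero_iff, List.filter_eq_nil_iff]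
        intro d hd h2
        obtain ⟨d', hd', h3⟩ := (hwin _).1 (of_decide_eq_true h2)
        apply hw
        rw [hmemW]
        refine ⟨((hS e).1 he).1, d', hd', ?_⟩
        rw [← h3]
        exact List.mem_map_of_mem hd
    · rw [if_neg he]; exact Nat.zero_le _
  have h1 : crS src tgt S ≤ ∑ x : P.X2, (P.toCSys hG hne).pl1 f W
      (fun x => en (P.ed₁ hG x) x.1) (fun x => en (P.ed₂ hG x) x.1) col x + W.card ^ 2 := by
    refine hplane1.trans (Nat.add_le_add ?_ ((gr_le _).trans (Nat.pow_le_pow_left hgr 2)))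
    refine (Finset.sum_le_sum (fun b _ => hb b)).trans ?_
    rw [Finset.sum_comm]
    apply Finset.sum_le_sum
    intro x _
    rw [Fintype.sum_bool]
    unfold CSys.pl1
    refine (le_of_eq (bool_pair _ _ _ _ (d3 := Classical.propDecidable _))).trans ?_
    apply ite_le_of_imp
    rintro ⟨a1, a2, a3⟩
    have b1 := (hS _).1 a1
    have b2 := (hS _).1 a2
    exact ⟨b1.1, b2.1, b1.2, b2.2, a3⟩
  have h2 : crS src tgt (fun e => ¬ S e) ≤ ∑ x : P.X2, (P.toCSys hG hne).pl2 f W col x := by
    refine (P.plane2_le hG (fun e => ¬ S e)).trans (Finset.sum_le_sum fun x _ => ?_)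
    unfold CSys.pl2
    refine le_of_eq (ite_of_iff ?_)
    have key : ∀ e, ¬ S e ↔ (e = f ∨ (¬ (P.toCSys hG hne).mono col e ∧ e ∉ W)) := by
      intro e
      rw [hS e]
      constructor
      · intro h
        by_cases h1 : e = f
        · exact Or.inl h1
        · exact Or.inr ⟨fun h2 => h ⟨h1, Or.inl h2⟩, fun h2 => h ⟨h1, Or.inr h2⟩⟩
      · rintro (h | h) ⟨h1, h2⟩
        · exact h1 h
        · exact h2.elim h.1 h.2
    exact and_congr (key _) (key _)
  rw [Finset.sum_add_distrib] at hcol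
  omega

end PreDrawing
end Helper5.CR
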