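import Pool.Agent.Helper5.CR.B3
import Pool.Agent.Helper5.CR.A4

namespace Helper5.CR

open Finset

namespace PreDrawing

variable {V E : Type} [Fintype E] {src tgt : E → V}

open Classical in
theorem passes_two_of_thru (P : PreDrawing src tgt) (hG : P.Good) {e f : E} (hef : e ≠ f)
    {x : P.X} (he : P.thru e x) (hf : P.thru f x) : P.passes x = 2 := by
  have h1 := hG.simple x
  rw [P.passes_eq hG] at h1 ⊢
  have h2 : ({e, f} : Finset E) ⊆ univ.filter (fun e => P.thru e x) := by
    intro a ha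
    simp only [mem_insert, mem_singleton] at ha
    simp only [mem_filter, mem_univ, true_and]
    rcases ha with rfl | rfl
    · exact he
    · exact hf
  have h3 := card_le_card h2
  rw [card_pair hef] at h3
  omega

open Classical in
/-- the other edge at a crossing of `f` -/
noncomputable def oth (P : PreDrawing src tgt) (hG : P.Good) (f : E) (x : P.X) : E :=
  if h : P.passes x = 2 then (if P.ed₁ hG ⟨x, h⟩ = f then P.ed₂ hG ⟨x, h⟩ else P.ed₁ hG ⟨x, h⟩)
  else f

theorem oth_spec (P : PreDrawing src tgt) (hG : P.Good) (f : E) (x : P.X) (h : P.passes x = 2)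
    (hf : P.thru f x) : P.oth hG f x ≠ f ∧ P.thru (P.oth hG f x) x ∧
      ∀ e, e ≠ f → P.thru e x → e = P.oth hG f x := by
  classical
  have h1 := P.ed_ne hG ⟨x, h⟩
  have h2 := P.thru_iff hG ⟨x, h⟩
  have hf' := (h2 f).1 hf
  unfold oth
  rw [dif_pos h]
  by_cases h3 : P.ed₁ hG ⟨x, h⟩ = f
  · rw [if_pos h3]
    refine ⟨fun h4 => h1 (h3.trans h4.symm), P.thru₂ hG ⟨x, h⟩, fun e he hth => ?_⟩
    rcases (h2 e).1 hth with h5 | h5
    · exact absurd (h5.trans h3) he
    · exact h5
  · rw [if_neg h3]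
    have h4 : f = P.ed₂ hG ⟨x, h⟩ := hf'.resolve_left (fun h => h3 h.symm)
    refine ⟨h3, P.thru₁ hG ⟨x, h⟩, fun e he hth => ?_⟩
    rcases (h2 e).1 hth with h5 | h5
    · exact h5
    · exact absurd (h5.trans h4.symm) he

open Classical in
theorem exists_dense_S [Fintype V] (P : PreDrawing src tgt) (hG : P.Good)
    (hne : ∀ e, src e ≠ tgt e) (w q : ℕ) (hw : 2 ≤ w) (hq : 1 ≤ q) (f : E)
    (hk : (P.toCSys hG hne).k f ≤ q * w) (h2 : 2 ≤ (P.toCSys hG hne).k f) :
    ∃ (S : E → Prop) (T : ℕ), 8 * (crS src tgt S + crS src tgt (fun e => ¬ S e)) + T ≤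
      3 * P.crossings + (P.toCSys hG hne).k f + 11 * w ^ 2 ∧
      (P.toCSys hG hne).Sf f ≤ q * T := by
  set C := P.toCSys hG hne with hC
  set t := (P.route f).tail with ht
  have hnd : (t.map P.pt).Nodup := hG.self f
  let b' : P.X → Bool := fun x => decide (P.passes x = 2)
  let a' : P.X → ℕ := fun x => if P.passes x = 2 then C.k (P.oth hG f x) else 0
  have hmemt : ∀ x, x ∈ t.map P.pt ↔ P.thru f x := fun x => Iff.rfl
  -- points of X2 on f
  set F : Finset P.X := (t.map P.pt).toFinset.filter (fun x => P.passes x = 2) with hF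
  have hmemF : ∀ x, x ∈ F ↔ (P.thru f x ∧ P.passes x = 2) := by
    intro x; rw [hF, mem_filter, List.mem_toFinset]; rfl
  have hcount : ∀ l : List P.D, (l.map P.pt).Nodup →
      l.countP (fun d => b' (P.pt d)) = ((l.map P.pt).toFinset.filter (fun x => P.passes x = 2)).card := by
    intro l hl
    have h0 : (l.map P.pt).toFinset.filter (fun x => P.passes x = 2) =
        ((l.map P.pt).filter (fun x => decide (P.passes x = 2))).toFinset := by
      ext x; simp
    rw [h0, List.toFinset_card_of_nodup (hl.filter _), ← List.countP_eq_length_filter,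
      List.countP_map]
    rfl
  have hsum : ∀ l : List P.D, (l.map P.pt).Nodup →
      (l.map (fun d => a' (P.pt d))).sum =
        ∑ x ∈ (l.map P.pt).toFinset.filter (fun x => P.passes x = 2), C.k (P.oth hG f x) := by
    intro l hl
    rw [Finset.sum_filter, List.sum_toFinset _ hl, List.map_map]
    rfl
  -- k f and Sf f
  have hkf : C.k f = F.card := by
    unfold CSys.k
    have : F = (univ.filter (fun x : P.X2 => C.e₁ x = f ∨ C.e₂ x = f)).map
        ⟨Subtype.val, Subtype.val_injective⟩ := by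
      ext x
      rw [hmemF]
      simp only [mem_map, mem_filter, mem_univ, true_and, Function.Embedding.coeFn_mk]
      constructor
      · rintro ⟨h1, h2⟩
        refine ⟨⟨x, h2⟩, ?_, rfl⟩
        rcases (P.thru_iff hG ⟨x, h2⟩ f).1 h1 with h | h
        · exact Or.inl h.symm
        · exact Or.inr h.symm
      · rintro ⟨y, h1, rfl⟩
        refine ⟨?_, y.2⟩
        rw [P.thru_iff hG y f]
        rcases h1 with h | h
        · exact Or.inl h.symm
        · exact Or.inr h.symm
    rw [this, card_map]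
  have hSf : C.Sf f = ∑ x ∈ F, C.k (P.oth hG f x) := by
    have h3 : F = (univ.filter (fun x : P.X2 => C.e₁ x = f ∨ C.e₂ x = f)).map
        ⟨Subtype.val, Subtype.val_injective⟩ := by
      ext x
      rw [hmemF]
      simp only [mem_map, mem_filter, mem_univ, true_and, Function.Embedding.coeFn_mk]
      constructor
      · rintro ⟨h1, h2⟩
        refine ⟨⟨x, h2⟩, ?_, rfl⟩
        rcases (P.thru_iff hG ⟨x, h2⟩ f).1 h1 with h | h
        · exact Or.inl h.symm
        · exact Or.inr h.symm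
      · rintro ⟨y, h1, rfl⟩
        refine ⟨?_, y.2⟩
        rw [P.thru_iff hG y f]
        rcases h1 with h | h
        · exact Or.inl h.symm
        · exact Or.inr h.symm
    rw [h3, Finset.sum_map]
    unfold CSys.Sf
    rw [Finset.sum_filter]
    refine Finset.sum_congr rfl fun x _ => ?_
    have h4 : P.oth hG f x.1 = if C.e₁ x = f then C.e₂ x else C.e₁ x := by
      unfold oth
      rw [dif_pos x.2]
      rfl
    have h5 := C.ne x
    show _ = if C.e₁ x = f ∨ C.e₂ x = f then C.k (P.oth hG f x.1) else 0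
    rw [h4]
    by_cases h6 : C.e₁ x = f
    · have h7 : C.e₂ x ≠ f := fun h => h5 (h6.trans h.symm)
      simp [h6, h7]
    · by_cases h7 : C.e₂ x = f
      · simp [h6, h7]
      · simp [h6, h7]
  have hct : t.countP (fun d => b' (P.pt d)) = C.k f := by rw [hcount t hnd, hkf]
  have hlen : 2 ≤ t.length := by
    rw [← hct] at h2
    exact h2.trans List.countP_le_length
  obtain ⟨t₀, t₁, t₂, e1, e2, e3, e4⟩ := exists_window (fun d => a' (P.pt d))
    (fun d => b' (P.pt d)) w hw q hq t (by rw [hct]; exact hk) hlen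
  obtain ⟨S, hS⟩ := P.dense_bound hG hne f t₀ t₁ t₂ e1 e2
  rw [← hC] at hS
  have hnd1 : (t₁.map P.pt).Nodup := by
    rw [e1, List.map_append, List.map_append, List.nodup_append, List.nodup_append] at hnd
    exact hnd.1.2.1
  have ht1 : ∀ x, x ∈ t₁.map P.pt → P.thru f x := by
    intro x hx
    obtain ⟨d, hd, rfl⟩ := List.mem_map.1 hx
    apply List.mem_map_of_mem
    show d ∈ t
    rw [e1]; simp [hd]
  set F1 : Finset P.X := (t₁.map P.pt).toFinset.filter (fun x => P.passes x = 2) with hF1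
  have hmemF1 : ∀ x, x ∈ F1 ↔ (x ∈ t₁.map P.pt ∧ P.passes x = 2) := by
    intro x; rw [hF1, mem_filter, List.mem_toFinset]
  have hW : P.winEdges f t₁ = F1.image (P.oth hG f) := by
    ext e
    unfold winEdges
    simp only [mem_filter, mem_univ, true_and, mem_image]
    constructor
    · rintro ⟨h3, d, hd, h4⟩
      have h5 : P.pt d ∈ t₁.map P.pt := List.mem_map_of_mem hd
      have h6 := P.passes_two_of_thru hG h3 h4 (ht1 _ h5)
      exact ⟨P.pt d, (hmemF1 _).2 ⟨h5, h6⟩, ((P.oth_spec hG f _ h6 (ht1 _ h5)).2.2 e h3 h4).symm⟩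
    · rintro ⟨x, hx, rfl⟩
      obtain ⟨h3, h4⟩ := (hmemF1 x).1 hx
      obtain ⟨h5, h6, _⟩ := P.oth_spec hG f x h4 (ht1 _ h3)
      obtain ⟨d, hd, rfl⟩ := List.mem_map.1 h3
      exact ⟨h5, d, hd, h6⟩
  have hinj : Set.InjOn (P.oth hG f) F1 := by
    intro x hx y hy hxy
    obtain ⟨h3, h4⟩ := (hmemF1 x).1 hx
    obtain ⟨h3', h4'⟩ := (hmemF1 y).1 hy
    obtain ⟨h5, h6, _⟩ := P.oth_spec hG f x h4 (ht1 _ h3)
    obtain ⟨_, h6', _⟩ := P.oth_spec hG f y h4' (ht1 _ h3')
    exact P.eq_of_thru hG h5 h6 (ht1 _ h3) (hxy ▸ h6') (ht1 _ h3')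
  have hcard : (P.winEdges f t₁).card ≤ w := by
    rw [hW, card_image_of_injOn hinj, hF1, ← hcount t₁ hnd1]
    exact e3
  have hT : (t₁.map (fun d => a' (P.pt d))).sum = ∑ e ∈ P.winEdges f t₁, C.k e := by
    rw [hsum t₁ hnd1, hW, Finset.sum_image hinj]
  refine ⟨S, ∑ e ∈ P.winEdges f t₁, C.k e, ?_, ?_⟩
  · refine hS.trans ?_
    have := Nat.pow_le_pow_left hcard 2
    omega
  · rw [← hT, hSf, ← hsum t hnd]
    exact e4

end PreDrawing
end Helper5.CR
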