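import Pool.Agent.Helper5.CR.B4

namespace Helper5.CR

open Finset

namespace PreDrawing

variable {V E : Type} [Fintype E] {src tgt : E → V}

theorem zero_bound (P : PreDrawing src tgt) (hG : P.Good) (h0 : P.crossings = 0) :
    crS src tgt (fun _ => True) + crS src tgt (fun e => ¬ (fun _ => True) e) = 0 := by
  classical
  have hE : IsEmpty P.X2 := by
    rw [← Fintype.card_eq_zero_iff, P.card_X2, h0]
  have h1 := P.plane2_le hG (fun _ => True)
  have h2 := P.plane2_le hG (fun e => ¬ (fun _ => True) e)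
  rw [Finset.univ_eq_empty, Finset.sum_empty] at h1 h2
  omega

open Classical in
theorem dense_case [Fintype V] (δ : ℝ) (hδ : 0 < δ) (P : PreDrawing src tgt) (hG : P.Good)
    (hne : ∀ e, src e ≠ tgt e)
    (hN : δ * ((P.toCSys hG hne).crossed.card : ℝ) ^ 2 ≤ P.crossings) :
    ∃ S : E → Prop, ((crS src tgt S + crS src tgt (fun e => ¬ S e) : ℕ) : ℝ) ≤
      (3 / 8 - min (δ ^ 4 / 256) (δ ^ 8 / 16384)) * P.crossings := by
  set C := P.toCSys hG hne with hC
  set m := C.crossed.card with hm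
  have hcard := P.card_X2
  rcases Nat.eq_zero_or_pos P.crossings with h0 | h0
  · refine ⟨fun _ => True, ?_⟩
    rw [P.zero_bound hG h0, h0]; simp
  have hXpos : 0 < Fintype.card P.X2 := by rw [hcard]; exact h0
  have h2N := C.card_X_le
  rw [hcard] at h2N
  obtain ⟨f, hf⟩ := C.exists_f hXpos
  rw [hcard] at hf
  have hSfle := C.Sf_le f
  have hkle := C.k_le f
  have hNr : (0 : ℝ) < P.crossings := by exact_mod_cast h0
  have h2Nr : 2 * (P.crossings : ℝ) ≤ (m : ℝ) ^ 2 := by exact_mod_cast h2N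
  have hmpos : (0 : ℝ) < m := by
    have : (0 : ℝ) < (m : ℝ) ^ 2 := by linarith
    have h3 : (0 : ℝ) ≤ m := Nat.cast_nonneg m
    exact lt_of_le_of_ne h3 (fun h => by rw [← h] at this; norm_num at this)
  have hm2 : (0 : ℝ) < (m : ℝ) ^ 2 := by positivity
  have hδ2 : δ ≤ 1 / 2 := by
    by_contra hcon
    push Not at hcon
    nlinarith
  by_cases hbig : 64 ≤ δ ^ 4 * m
  · -- many crossed edges
    set x : ℝ := δ ^ 2 * m / 16 with hx
    have hd4 : δ ^ 4 ≤ δ ^ 2 := by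
      have : δ ^ 2 ≤ 1 := by nlinarith
      nlinarith [sq_nonneg δ]
    have hx4 : 4 ≤ x := by
      rw [hx]
      have : 64 ≤ δ ^ 2 * m := hbig.trans (mul_le_mul_of_nonneg_right hd4 hmpos.le)
      linarith
    set w : ℕ := ⌊x⌋₊ with hw
    have hwx : (w : ℝ) ≤ x := Nat.floor_le (by linarith)
    have hwx' : x - 1 < w := Nat.sub_one_lt_floor x
    have hw2r : (2 : ℝ) ≤ w := by linarith
    have hw2 : 2 ≤ w := by exact_mod_cast hw2r
    have hwpos : (0 : ℝ) < w := by linarith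
    set q : ℕ := m / w + 1 with hq
    have hqw : m ≤ q * w := by
      have h3 := Nat.div_add_mod m w
      have h4 := Nat.mod_lt m (show 0 < w by omega)
      rw [hq]
      nlinarith
    have hδ21 : δ ^ 2 ≤ 1 := by nlinarith
    have hwm : (w : ℝ) ≤ m := by
      have h3 : x ≤ m := by
        rw [hx]
        have : δ ^ 2 * m ≤ 1 * m := mul_le_mul_of_nonneg_right hδ21 hmpos.le
        linarith
      linarith
    have hqr : (q : ℝ) * w ≤ 2 * m := by
      have h3 : (m / w : ℕ) * w ≤ m := Nat.div_mul_le_self m w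
      have h4 : ((m / w : ℕ) : ℝ) * w ≤ m := by exact_mod_cast h3
      rw [hq]
      push_cast
      push_cast at h4
      linarith
    have hfr : 4 * (P.crossings : ℝ) ^ 2 ≤ (m : ℝ) ^ 2 * C.Sf f := by exact_mod_cast hf
    have hSfr : (C.Sf f : ℝ) ≤ C.k f * m := by exact_mod_cast hSfle
    have hN2 : δ ^ 2 * (m : ℝ) ^ 4 ≤ (P.crossings : ℝ) ^ 2 := by
      have h3 : 0 ≤ δ * (m : ℝ) ^ 2 := by positivity
      have h4 := pow_le_pow_left₀ h3 hN 2
      calc δ ^ 2 * (m : ℝ) ^ 4 = (δ * (m : ℝ) ^ 2) ^ 2 := by ring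
        _ ≤ _ := h4
    have hSf2 : 4 * δ ^ 2 * (m : ℝ) ^ 2 ≤ C.Sf f := by
      have h3 : 4 * (δ ^ 2 * (m : ℝ) ^ 4) ≤ (m : ℝ) ^ 2 * C.Sf f := by linarith
      have h4 : (m : ℝ) ^ 2 * (4 * δ ^ 2 * (m : ℝ) ^ 2) ≤ (m : ℝ) ^ 2 * C.Sf f := by
        calc (m : ℝ) ^ 2 * (4 * δ ^ 2 * (m : ℝ) ^ 2) = 4 * (δ ^ 2 * (m : ℝ) ^ 4) := by ring
          _ ≤ _ := h3
      exact le_of_mul_le_mul_left h4 hm2
    have hk2 : 2 ≤ C.k f := by
      have h3 : 4 * δ ^ 2 * (m : ℝ) ≤ C.k f := by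
        have h4 : (4 * δ ^ 2 * (m : ℝ)) * (m : ℝ) ≤ (C.k f : ℝ) * (m : ℝ) := by
          calc (4 * δ ^ 2 * (m : ℝ)) * (m : ℝ) = 4 * δ ^ 2 * (m : ℝ) ^ 2 := by ring
            _ ≤ (C.Sf f : ℝ) := hSf2
            _ ≤ _ := hSfr
        exact le_of_mul_le_mul_right h4 hmpos
      have h5 : (2 : ℝ) ≤ C.k f := by
        rw [hx] at hx4
        linarith
      exact_mod_cast h5
    obtain ⟨S, T, hST, hT⟩ := P.exists_dense_S hG hne w q hw2 (Nat.le_add_left 1 _) f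
      (hkle.trans hqw) hk2
    refine ⟨S, ?_⟩
    rw [← hC] at hST hT
    have hTr : (C.Sf f : ℝ) ≤ q * T := by exact_mod_cast hT
    have hSTr : 8 * ((crS src tgt S + crS src tgt (fun e => ¬ S e) : ℕ) : ℝ) + T ≤
        3 * P.crossings + C.k f + 11 * (w : ℝ) ^ 2 := by exact_mod_cast hST
    have hklr : (C.k f : ℝ) ≤ m := by exact_mod_cast hkle
    have hTlow : 2 * δ ^ 2 * m * w ≤ T := by
      have h3 : 4 * δ ^ 2 * (m : ℝ) ^ 2 * w ≤ 2 * m * T := by
        calc 4 * δ ^ 2 * (m : ℝ) ^ 2 * w ≤ (q * T) * w :=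
              mul_le_mul_of_nonneg_right (hSf2.trans hTr) hwpos.le
          _ = (q * w) * T := by ring
          _ ≤ 2 * m * T := mul_le_mul_of_nonneg_right hqr (Nat.cast_nonneg T)
      have h4 : (2 * m) * (2 * δ ^ 2 * m * w) ≤ (2 * m) * (T : ℝ) := by
        calc (2 * m) * (2 * δ ^ 2 * m * w) = 4 * δ ^ 2 * (m : ℝ) ^ 2 * w := by ring
          _ ≤ _ := h3
      exact le_of_mul_le_mul_left h4 (by positivity)
    have hw11 : 11 * (w : ℝ) ^ 2 ≤ δ ^ 2 * m * w := by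
      have h3 : 16 * (w : ℝ) ≤ δ ^ 2 * m := by rw [hx] at hwx; linarith
      have h4 : 16 * (w : ℝ) * w ≤ δ ^ 2 * m * w := mul_le_mul_of_nonneg_right h3 hwpos.le
      nlinarith
    have hwlow : δ ^ 2 * m / 32 ≤ w := by
      have : δ ^ 2 * m / 32 = x / 2 := by rw [hx]; ring
      rw [this]; linarith
    have hgain : δ ^ 4 * (m : ℝ) ^ 2 / 32 ≤ δ ^ 2 * m * w := by
      have h3 : δ ^ 2 * m * (δ ^ 2 * m / 32) ≤ δ ^ 2 * m * w :=
        mul_le_mul_of_nonneg_left hwlow (by positivity)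
      calc δ ^ 4 * (m : ℝ) ^ 2 / 32 = δ ^ 2 * m * (δ ^ 2 * m / 32) := by ring
        _ ≤ _ := h3
    have hmle : (m : ℝ) ≤ δ ^ 4 * (m : ℝ) ^ 2 / 64 := by
      have h3 : 64 * (m : ℝ) ≤ δ ^ 4 * m * m := mul_le_mul_of_nonneg_right hbig hmpos.le
      nlinarith
    have hNgain : δ ^ 4 * (2 * (P.crossings : ℝ)) ≤ δ ^ 4 * (m : ℝ) ^ 2 :=
      mul_le_mul_of_nonneg_left h2Nr (by positivity)
    have hmin : min (δ ^ 4 / 256) (δ ^ 8 / 16384) * P.crossings ≤ δ ^ 4 / 256 * P.crossings :=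
      mul_le_mul_of_nonneg_right (min_le_left _ _) hNr.le
    nlinarith
  · -- few crossed edges
    push Not at hbig
    obtain ⟨S, hS⟩ := P.strict_bound hG hne h0
    refine ⟨S, ?_⟩
    have h3 : 8 * (crS src tgt S + crS src tgt (fun e => ¬ S e)) + 1 ≤ 3 * P.crossings := hS
    have h3r : 8 * ((crS src tgt S + crS src tgt (fun e => ¬ S e) : ℕ) : ℝ) + 1 ≤
        3 * P.crossings := by exact_mod_cast h3
    have h4 : (δ ^ 4 * m) ^ 2 ≤ 64 ^ 2 :=
      pow_le_pow_left₀ (by positivity) hbig.le 2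
    have h5 : δ ^ 8 * (2 * (P.crossings : ℝ)) ≤ 64 ^ 2 := by
      calc δ ^ 8 * (2 * (P.crossings : ℝ)) ≤ δ ^ 8 * (m : ℝ) ^ 2 :=
            mul_le_mul_of_nonneg_left h2Nr (by positivity)
        _ = (δ ^ 4 * m) ^ 2 := by ring
        _ ≤ _ := h4
    have hmin : min (δ ^ 4 / 256) (δ ^ 8 / 16384) * P.crossings ≤ δ ^ 8 / 16384 * P.crossings :=
      mul_le_mul_of_nonneg_right (min_le_right _ _) hNr.le
    nlinarith

open Classical in
theorem sparse_case [Fintype V] (K : ℕ) (P : PreDrawing src tgt) (hG : P.Good)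
    (hne : ∀ e, src e ≠ tgt e)
    (hN : P.crossings ≤ K * (P.toCSys hG hne).crossed.card) :
    ∃ S : E → Prop, ((crS src tgt S + crS src tgt (fun e => ¬ S e) : ℕ) : ℝ) ≤
      (3 / 8 - 1 / (2 * (K + 1) * (4 * K + 1) * 2 ^ (2 + 2 * (4 * K)))) * P.crossings := by
  set C := P.toCSys hG hne with hC
  have hcard := P.card_X2
  obtain ⟨I, h1, h2, h3, h4⟩ := C.exists_indep (4 * K)
  have h5 := C.low_edges K (by rw [hcard]; exact hN)
  obtain ⟨S, hS⟩ := P.sparse_bound hG hne I h1 h2 (4 * K) h3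
  refine ⟨S, ?_⟩
  have h6 : P.crossings ≤ 2 * (K + 1) * (4 * K + 1) * I.card := by
    calc P.crossings ≤ K * C.crossed.card := hN
      _ ≤ K * (2 * ((4 * K + 1) * I.card)) := Nat.mul_le_mul_left _ (h5.trans (by omega))
      _ = 2 * K * (4 * K + 1) * I.card := by ring
      _ ≤ 2 * (K + 1) * (4 * K + 1) * I.card := by gcongr; omega
  have hSr : (2 : ℝ) ^ (2 + 2 * (4 * K)) *
      (8 * ((crS src tgt S + crS src tgt (fun e => ¬ S e) : ℕ) : ℝ)) + 8 * I.card ≤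
      2 ^ (2 + 2 * (4 * K)) * (3 * P.crossings) := by exact_mod_cast hS
  have h6r : (P.crossings : ℝ) ≤ 2 * (K + 1) * (4 * K + 1) * I.card := by exact_mod_cast h6
  set c : ℝ := ((crS src tgt S + crS src tgt (fun e => ¬ S e) : ℕ) : ℝ)
  set M : ℝ := 2 ^ (2 + 2 * (4 * K))
  set L : ℝ := 2 * ((K : ℝ) + 1) * (4 * K + 1)
  have hM : 0 < M := by positivity
  have hL : 0 < L := by positivity
  have h7 : (P.crossings : ℝ) / L ≤ I.card := by
    rw [div_le_iff₀ hL]; linarith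
  have h8 : M * (8 * c) + 8 * ((P.crossings : ℝ) / L) ≤ M * (3 * P.crossings) := by linarith
  have h9 : (3 / 8 - 1 / (L * M)) * (P.crossings : ℝ) =
      (M * (3 * P.crossings) - 8 * ((P.crossings : ℝ) / L)) / (8 * M) := by
    field_simp
  rw [h9, le_div_iff₀ (by positivity)]
  linarith

end PreDrawing
end Helper5.CR
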