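import Pool.Agent.Helper5.CR.B5

namespace Helper5.CR

open Finset

open Classical in
/-- transport of a drawing along a bijection of the edges -/
abbrev PreDrawing.transport {V E E' : Type} [Fintype E] [Fintype E'] {src tgt : E → V}
    (P : PreDrawing src tgt) (φ : E' ≃ E) :
    PreDrawing (fun e => src (φ e)) (fun e => tgt (φ e)) where
  D := P.D
  X := P.X
  finD := P.finD
  finX := P.finX
  σ := P.σ
  α := P.α
  α_invol := P.α_invol
  α_ne := P.α_ne
  planar := P.planar
  pt := P.pt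
  pt_iff := P.pt_iff
  loc := P.loc
  loc_inj := P.loc_inj
  route := fun e => P.route (φ e)
  route_walk := fun e => P.route_walk (φ e)
  route_inner := fun e => P.route_inner (φ e)
  route_use := fun d => le_of_eq_of_le
    (Equiv.sum_comp φ (fun e => (P.route e).count d + (P.route e).count (P.α d))) (P.route_use d)

theorem PreDrawing.transport_passes {V E E' : Type} [Fintype E] [Fintype E'] {src tgt : E → V}
    (P : PreDrawing src tgt) (φ : E' ≃ E) (x : P.X) : (P.transport φ).passes x = P.passes x := by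
  classical
  exact Equiv.sum_comp φ (fun e => ((P.route e).tail.map P.pt).count x)

theorem exists_drawing_transport {V E E' : Type} [Fintype E] [Fintype E'] {src tgt : E → V}
    {src' tgt' : E' → V} (φ : E' ≃ E) (hs : ∀ e, src' e = src (φ e)) (ht : ∀ e, tgt' e = tgt (φ e))
    (k : ℕ) (h : ∃ P : PreDrawing src tgt, P.Simple ∧ P.crossings = k) :
    ∃ P : PreDrawing src' tgt', P.Simple ∧ P.crossings = k := by
  obtain rfl : src' = fun e => src (φ e) := funext hs
  obtain rfl : tgt' = fun e => tgt (φ e) := funext ht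
  obtain ⟨P, h1, h2⟩ := h
  refine ⟨P.transport φ, fun x => ?_, ?_⟩
  · rw [P.transport_passes φ x]; exact h1 x
  · rw [← h2]
    unfold PreDrawing.crossings
    refine Nat.card_congr (Equiv.subtypeEquivRight (p := fun x : P.X => (P.transport φ).passes x = 2)
      (q := fun x => P.passes x = 2) (fun x => ?_))
    rw [P.transport_passes φ x]

theorem crM_congr {V E E' : Type} [Fintype E] [Fintype E'] {src tgt : E → V}
    {src' tgt' : E' → V} (φ : E' ≃ E) (hs : ∀ e, src' e = src (φ e))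
    (ht : ∀ e, tgt' e = tgt (φ e)) : crM src' tgt' = crM src tgt := by
  unfold crM
  congr 1
  ext k
  constructor
  · intro h
    exact exists_drawing_transport φ.symm (fun e => by rw [hs]; simp) (fun e => by rw [ht]; simp) k h
  · intro h
    exact exists_drawing_transport φ hs ht k h

/-- the graph formed by a set of edges -/
def subG {n : ℕ} (G : SimpleGraph (Fin n)) (S : Edge G → Prop) : SimpleGraph (Fin n) where
  Adj i j := (∃ h : i < j ∧ G.Adj i j, S ⟨(i, j), h⟩) ∨ (∃ h : j < i ∧ G.Adj j i, S ⟨(j, i), h⟩)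
  symm := ⟨fun _ _ h => h.symm⟩
  loopless := ⟨fun i h => by
    rcases h with ⟨h, _⟩ | ⟨h, _⟩ <;> exact lt_irrefl _ h.1⟩

theorem subG_adj_lt {n : ℕ} (G : SimpleGraph (Fin n)) (S : Edge G → Prop) {i j : Fin n}
    (hij : i < j) : (subG G S).Adj i j ↔ ∃ h : i < j ∧ G.Adj i j, S ⟨(i, j), h⟩ := by
  constructor
  · rintro (h | ⟨h, _⟩)
    · exact h
    · exact absurd h.1 (lt_asymm hij)
  · exact Or.inl

theorem subG_sup {n : ℕ} (G : SimpleGraph (Fin n)) (S : Edge G → Prop) :
    subG G S ⊔ subG G (fun e => ¬ S e) = G := by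
  ext i j
  rw [SimpleGraph.sup_adj]
  constructor
  · rintro ((⟨h, _⟩ | ⟨h, _⟩) | (⟨h, _⟩ | ⟨h, _⟩))
    · exact h.2
    · exact h.2.symm
    · exact h.2
    · exact h.2.symm
  · intro h
    rcases lt_trichotomy i j with hij | hij | hij
    · by_cases hS : S ⟨(i, j), hij, h⟩
      · exact Or.inl (Or.inl ⟨⟨hij, h⟩, hS⟩)
      · exact Or.inr (Or.inl ⟨⟨hij, h⟩, hS⟩)
    · exact absurd hij h.ne
    · by_cases hS : S ⟨(j, i), hij, h.symm⟩
      · exact Or.inl (Or.inr ⟨⟨hij, h.symm⟩, hS⟩)
      · exact Or.inr (Or.inr ⟨⟨hij, h.symm⟩, hS⟩)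

/-- first endpoint of an edge -/
def esrc {n : ℕ} {G : SimpleGraph (Fin n)} (e : Edge G) : Fin n := e.1.1

/-- second endpoint of an edge -/
def etgt {n : ℕ} {G : SimpleGraph (Fin n)} (e : Edge G) : Fin n := e.1.2

theorem cr_subG {n : ℕ} (G : SimpleGraph (Fin n)) (S : Edge G → Prop) :
    cr (subG G S) = crS (fun e : Edge G => e.1.1) (fun e : Edge G => e.1.2) S := by
  classical
  unfold cr crS
  let φ : Edge (subG G S) ≃ {e : Edge G // S e} :=
    { toFun := fun p => ⟨⟨p.1, ((subG_adj_lt G S p.2.1).1 p.2.2).choose⟩,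
        ((subG_adj_lt G S p.2.1).1 p.2.2).choose_spec⟩
      invFun := fun e => ⟨e.1.1, e.1.2.1, (subG_adj_lt G S e.1.2.1).2 ⟨e.1.2, e.2⟩⟩
      left_inv := fun p => rfl
      right_inv := fun e => rfl }
  exact crM_congr φ (fun e => rfl) (fun e => rfl)

theorem cr₂_le {n : ℕ} (G : SimpleGraph (Fin n)) (S : Edge G → Prop) :
    cr₂ G ≤ crS (fun e : Edge G => e.1.1) (fun e : Edge G => e.1.2) S +
      crS (fun e : Edge G => e.1.1) (fun e : Edge G => e.1.2) (fun e => ¬ S e) := by
  apply Nat.sInf_le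
  exact ⟨subG G S, subG G (fun e => ¬ S e), subG_sup G S, by rw [cr_subG, cr_subG]⟩

open Classical in
theorem PreDrawing.crossedEdges_eq {V E : Type} [Fintype E] {src tgt : E → V} [Fintype V]
    (P : PreDrawing src tgt) (hG : P.Good) (hne : ∀ e, src e ≠ tgt e) :
    P.crossedEdges = (P.toCSys hG hne).crossed.card := by
  unfold PreDrawing.crossedEdges
  rw [Nat.card_eq_fintype_card, Fintype.card_subtype]
  congr 1
  ext e
  unfold CSys.crossed
  simp only [mem_filter, mem_univ, true_and]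
  constructor
  · rintro ⟨d, hd, h2⟩
    apply Finset.card_pos.2
    refine ⟨⟨P.pt d, h2⟩, ?_⟩
    simp only [mem_filter, mem_univ, true_and]
    rcases (P.thru_iff hG ⟨P.pt d, h2⟩ e).1 (List.mem_map_of_mem hd) with h | h
    · exact Or.inl h.symm
    · exact Or.inr h.symm
  · intro h
    obtain ⟨x, hx⟩ := Finset.card_pos.1 h
    simp only [mem_filter, mem_univ, true_and] at hx
    have : P.thru e x.1 := by
      rw [P.thru_iff hG x e]
      rcases hx with h | h
      · exact Or.inl h.symm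
      · exact Or.inr h.symm
    obtain ⟨d, hd, hdx⟩ := List.mem_map.1 this
    exact ⟨d, hd, by rw [hdx]; exact x.2⟩

open Classical in
theorem PreDrawing.card_le_crossedEdges {V E : Type} [Fintype E] {src tgt : E → V} [Fintype V]
    (P : PreDrawing src tgt) (hG : P.Good) (hne : ∀ e, src e ≠ tgt e) :
    2 * P.crossings ≤ P.crossedEdges ^ 2 := by
  rw [P.crossedEdges_eq hG hne, ← P.card_X2]
  exact (P.toCSys hG hne).card_X_le

open Classical in
theorem PreDrawing.dense_case' {V E : Type} [Fintype E] {src tgt : E → V} [Fintype V] (δ : ℝ)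
    (hδ : 0 < δ) (P : PreDrawing src tgt) (hG : P.Good) (hne : ∀ e, src e ≠ tgt e)
    (hN : δ * (P.crossedEdges : ℝ) ^ 2 ≤ P.crossings) :
    ∃ S : E → Prop, ((crS src tgt S + crS src tgt (fun e => ¬ S e) : ℕ) : ℝ) ≤
      (3 / 8 - min (δ ^ 4 / 256) (δ ^ 8 / 16384)) * P.crossings := by
  rw [P.crossedEdges_eq hG hne] at hN
  exact P.dense_case δ hδ hG hne hN

open Classical in
theorem PreDrawing.sparse_case' {V E : Type} [Fintype E] {src tgt : E → V} [Fintype V] (K : ℕ)
    (P : PreDrawing src tgt) (hG : P.Good) (hne : ∀ e, src e ≠ tgt e)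
    (hN : P.crossings ≤ K * P.crossedEdges) :
    ∃ S : E → Prop, ((crS src tgt S + crS src tgt (fun e => ¬ S e) : ℕ) : ℝ) ≤
      (3 / 8 - 1 / (2 * (K + 1) * (4 * K + 1) * 2 ^ (2 + 2 * (4 * K)))) * P.crossings := by
  rw [P.crossedEdges_eq hG hne] at hN
  exact P.sparse_case K hG hne hN

theorem edge_ne {n : ℕ} (G : SimpleGraph (Fin n)) (e : Edge G) : e.1.1 ≠ e.1.2 := ne_of_lt e.2.1

theorem card_Edge {n : ℕ} (G : SimpleGraph (Fin n)) : Nat.card (Edge G) ≤ Nat.card G.edgeSet := by
  refine Nat.card_le_card_of_injective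
    (fun e : Edge G => (⟨s(e.1.1, e.1.2), by rw [SimpleGraph.mem_edgeSet]; exact e.2.2⟩ :
      G.edgeSet)) ?_
  intro e e' h
  simp only [Subtype.mk.injEq, Sym2.eq_iff] at h
  rcases h with h | h
  · exact Subtype.ext (Prod.ext h.1 h.2)
  · exact absurd e'.2.1 (lt_asymm (by rw [← h.1, ← h.2]; exact e.2.1))

/-- the sparse theorem -/
theorem sparse_main (K n : ℕ) (G : SimpleGraph (Fin n))
    (P : PreDrawing (fun e : Edge G => e.1.1) (fun e : Edge G => e.1.2)) (hs : P.Simple)
    (ho : P.crossings = cr G) (hK : cr G ≤ K * P.crossedEdges) :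
    (cr₂ G : ℝ) ≤ (3 / 8 - 1 / (2 * (K + 1) * (4 * K + 1) * 2 ^ (2 + 2 * (4 * K)))) * cr G := by
  have hne := edge_ne G
  have hG := P.good_of_optimal hne hs ho
  obtain ⟨S, hS⟩ := P.sparse_case' K hG hne (by rw [ho]; exact hK)
  rw [ho] at hS
  refine le_trans ?_ hS
  exact_mod_cast cr₂_le G S

/-- the dense theorem, for the number of crossed edges in an optimal drawing -/
theorem dense_main (n : ℕ) (G : SimpleGraph (Fin n))
    (P : PreDrawing (fun e : Edge G => e.1.1) (fun e : Edge G => e.1.2)) (hs : P.Simple)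
    (ho : P.crossings = cr G) :
    (cr₂ G : ℝ) ≤ (3 / 8 - ((cr G : ℝ) / (P.crossedEdges : ℝ) ^ 2) ^ 8 / 16384) * cr G := by
  classical
  have hne := edge_ne G
  have hG := P.good_of_optimal hne hs ho
  rcases Nat.eq_zero_or_pos (cr G) with h0 | h0
  · have h1 := P.zero_bound hG (ho.trans h0)
    have h2 := cr₂_le G (fun _ => True)
    rw [h1] at h2
    have h3 : cr₂ G = 0 := by omega
    rw [h3, h0]; simp
  · have h2N := P.card_le_crossedEdges hG hne
    rw [ho] at h2N
    have h2Nr : 2 * (cr G : ℝ) ≤ (P.crossedEdges : ℝ) ^ 2 := by exact_mod_cast h2N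
    have hNr : (0 : ℝ) < cr G := by exact_mod_cast h0
    have hm2 : (0 : ℝ) < (P.crossedEdges : ℝ) ^ 2 := by linarith
    set δ : ℝ := (cr G : ℝ) / (P.crossedEdges : ℝ) ^ 2 with hδ
    have hδ0 : 0 < δ := by positivity
    have hδ2 : δ ≤ 1 / 2 := by
      rw [hδ, div_le_iff₀ hm2]; linarith
    obtain ⟨S, hS⟩ := P.dense_case' δ hδ0 hG hne (by
      rw [ho, hδ, div_mul_cancel₀ _ hm2.ne'])
    rw [ho] at hS
    have hmin : min (δ ^ 4 / 256) (δ ^ 8 / 16384) = δ ^ 8 / 16384 := by
      apply min_eq_right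
      have h3 : δ ^ 8 = δ ^ 4 * δ ^ 4 := by ring
      have h4 : δ ^ 4 ≤ 1 := by
        have : δ ^ 4 ≤ (1 / 2) ^ 4 := pow_le_pow_left₀ hδ0.le hδ2 4
        linarith [this, show ((1 : ℝ) / 2) ^ 4 ≤ 1 by norm_num]
      have h5 : 0 ≤ δ ^ 4 := by positivity
      rw [h3]
      nlinarith
    rw [hmin] at hS
    refine le_trans ?_ hS
    exact_mod_cast cr₂_le G S

theorem exists_optimal {n : ℕ} (G : SimpleGraph (Fin n)) :
    ∃ P : PreDrawing (fun e : Edge G => e.1.1) (fun e : Edge G => e.1.2),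
      P.Simple ∧ P.crossings = cr G :=
  exists_optimal_of PreDrawing.exists_clean (fun P x hx => P.card_used x hx)
    (fun P e l₁ l₂ c b hr hab => P.exists_split e l₁ l₂ c b hr hab)
    (fun P hP hL e l₁ l₂ c b hr j hb hf => PreDrawing.exists_swap P hP hL e l₁ l₂ c b hr j hb hf)

/-- the dense theorem, for the number of edges -/
theorem dense_edges (n : ℕ) (G : SimpleGraph (Fin n)) :
    (cr₂ G : ℝ) ≤ (3 / 8 - ((cr G : ℝ) / (Nat.card G.edgeSet : ℝ) ^ 2) ^ 8 / 16384) * cr G := by
  obtain ⟨P, hs, ho⟩ := exists_optimal G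
  refine (dense_main n G P hs ho).trans ?_
  have hNr : (0 : ℝ) ≤ cr G := Nat.cast_nonneg _
  rcases Nat.eq_zero_or_pos (cr G) with h0 | h0
  · rw [h0]; simp
  apply mul_le_mul_of_nonneg_right _ hNr
  apply sub_le_sub_left
  apply div_le_div_of_nonneg_right _ (by norm_num)
  apply pow_le_pow_left₀ (by positivity)
  have h1 : P.crossedEdges ≤ Nat.card G.edgeSet := by
    refine le_trans ?_ (card_Edge G)
    unfold PreDrawing.crossedEdges
    exact Nat.card_le_card_of_injective Subtype.val Subtype.val_injective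
  have hne := edge_ne G
  have hG := P.good_of_optimal hne hs ho
  classical
  have h2N := P.card_le_crossedEdges hG hne
  rw [ho] at h2N
  have hpos : 0 < P.crossedEdges := by
    by_contra h
    have : P.crossedEdges = 0 := by omega
    rw [this] at h2N; simp at h2N; omega
  have h1r : (P.crossedEdges : ℝ) ≤ Nat.card G.edgeSet := by exact_mod_cast h1
  have hposr : (0 : ℝ) < P.crossedEdges := by exact_mod_cast hpos
  apply div_le_div_of_nonneg_left hNr (by positivity)
  exact pow_le_pow_left₀ hposr.le h1r 2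

end Helper5.CR
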