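import Mathlib

/-!
# Combinatorial drawings of graphs and the crossing number

A planar map is given by a finite set `D` of darts (half-edges), a permutation `σ` whose cycles are
the points of the map (the cyclic order of the darts around a point) and a fixed point free
involution `α` whose cycles are the segments of the map; the cycles of `σ * α` are its faces.
-/

open Equiv Equiv.Perm

namespace Helper5.CR

/-- The number of cycles (orbits, fixed points included) of a permutation of a finite type. -/
noncomputable def nc {D : Type} (π : Perm D) : ℕ := Nat.card (Quotient (SameCycle.setoid π))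

/-- Being in the same connected component: the equivalence relation generated by lying in the same
cycle of `σ` and lying in the same cycle of `α`. -/
def comp {D : Type} (σ α : Perm D) : Setoid D := SameCycle.setoid σ ⊔ SameCycle.setoid α

/-- The number of connected components. -/
noncomputable def ncomp {D : Type} (σ α : Perm D) : ℕ := Nat.card (Quotient (comp σ α))

/-- Euler's formula.  When `α` is a fixed point free involution, the number of darts is twice the
number of segments, and the formula reads `V + F = E + 2 C`, i.e. `V - E + F = 2 C`: every
connected component of the map has genus zero. -/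
def Planar {D : Type} (σ α : Perm D) : Prop :=
  nc σ + nc α + nc (σ * α) = Nat.card D + 2 * ncomp σ α

/-- The list of darts `l` is a walk from the point `x` to the point `y`. -/
def IsWalk {D X : Type} (pt : D → X) (α : Perm D) : X → X → List D → Prop
  | x, y, [] => x = y
  | x, y, d :: l => pt d = x ∧ IsWalk pt α (pt (α d)) y l

open Classical in
/-- A drawing of the multigraph with vertex set `V`, edge set `E` and edge `e` joining `src e` to
`tgt e`, in which any number of edges may pass through the same point.
* `D`, `σ`, `α`: a planar map;
* `X`: the set of points, `pt d` the point at which the dart `d` is attached: the darts at a given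
  point form a cycle of `σ`;
* `loc v`: the position of the vertex `v`; distinct vertices have distinct positions;
* `route e`: the edge `e` is drawn as a walk in the map from `loc (src e)` to `loc (tgt e)`;
* no edge passes through a vertex;
* each segment of the map is used at most once by the edges, in total. -/
structure PreDrawing {V E : Type} [Fintype E] (src tgt : E → V) where
  D : Type
  X : Type
  finD : Fintype D
  finX : Fintype X
  σ : Perm D
  α : Perm D
  α_invol : ∀ d, α (α d) = d
  α_ne : ∀ d, α d ≠ d
  planar : Planar σ α
  pt : D → X
  pt_iff : ∀ d d', pt d = pt d' ↔ σ.SameCycle d d'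
  loc : V → X
  loc_inj : Function.Injective loc
  route : E → List D
  route_walk : ∀ e, IsWalk pt α (loc (src e)) (loc (tgt e)) (route e)
  route_inner : ∀ e, ∀ d ∈ (route e).tail, ∀ v, pt d ≠ loc v
  route_use : ∀ d, ∑ e, ((route e).count d + (route e).count (α d)) ≤ 1

namespace PreDrawing

variable {V E : Type} [Fintype E] {src tgt : E → V}

attribute [instance] PreDrawing.finD PreDrawing.finX

open Classical in
/-- The number of times an edge passes through the point `x` (ends of edges do not count). -/
noncomputable def passes (P : PreDrawing src tgt) (x : P.X) : ℕ :=
  ∑ e, ((P.route e).tail.map P.pt).count x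

/-- A drawing is simple if at most two edges pass through each point; so the points with two passes
are the crossings. -/
def Simple (P : PreDrawing src tgt) : Prop := ∀ x, P.passes x ≤ 2

/-- The number of points with exactly two passes. -/
noncomputable def crossings (P : PreDrawing src tgt) : ℕ := Nat.card {x : P.X // P.passes x = 2}

/-- The number of edges which pass through a point with exactly two passes. -/
noncomputable def crossedEdges (P : PreDrawing src tgt) : ℕ :=
  Nat.card {e : E // ∃ d ∈ (P.route e).tail, P.passes (P.pt d) = 2}

end PreDrawing

/-- The crossing number of the multigraph `(V, E, src, tgt)`. -/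
noncomputable def crM {V E : Type} [Fintype E] (src tgt : E → V) : ℕ :=
  sInf {k | ∃ P : PreDrawing src tgt, P.Simple ∧ P.crossings = k}

/-- The edges of a graph on `Fin n`, as pairs `(i, j)` with `i < j`. -/
abbrev Edge {n : ℕ} (G : SimpleGraph (Fin n)) : Type :=
  {p : Fin n × Fin n // p.1 < p.2 ∧ G.Adj p.1 p.2}

noncomputable instance {n : ℕ} (G : SimpleGraph (Fin n)) : Fintype (Edge G) := Fintype.ofFinite _

/-- The crossing number of a graph. -/
noncomputable def cr {n : ℕ} (G : SimpleGraph (Fin n)) : ℕ :=
  crM (fun e : Edge G => e.1.1) (fun e : Edge G => e.1.2)

/-- The minimum of `cr G₁ + cr G₂` over all decompositions `G = G₁ ∪ G₂`. -/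
noncomputable def cr₂ {n : ℕ} (G : SimpleGraph (Fin n)) : ℕ :=
  sInf {k | ∃ G₁ G₂ : SimpleGraph (Fin n), G₁ ⊔ G₂ = G ∧ cr G₁ + cr G₂ = k}

end Helper5.CR
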