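import Pool.Agent.Helper5.CR.Core

/-!
# Auxiliary notions for combinatorial drawings
-/

namespace Helper5.CR

namespace PreDrawing

variable {V E : Type} [Fintype E] {src tgt : E → V}

/-- `∑ x, g (number of passes through x)`. -/
noncomputable def cost (g : ℕ → ℕ) (P : PreDrawing src tgt) : ℕ := ∑ x : P.X, g (P.passes x)

/-- A dart is used if it, or its opposite, belongs to the route of an edge. -/
def Used (P : PreDrawing src tgt) (d : P.D) : Prop := ∃ e, d ∈ P.route e ∨ P.α d ∈ P.route e

/-- all darts at a point of a used dart are used -/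
def Clean (P : PreDrawing src tgt) : Prop := ∀ d d', P.pt d = P.pt d' → P.Used d → P.Used d'

/-- a good drawing: no self-crossings, adjacent edges do not cross, two edges cross at most once -/
structure Good (P : PreDrawing src tgt) : Prop where
  simple : P.Simple
  self : ∀ e, ((P.route e).tail.map P.pt).Nodup
  adj : ∀ e f, e ≠ f → (∃ d ∈ (P.route e).tail, ∃ d' ∈ (P.route f).tail, P.pt d = P.pt d') →
    src e ≠ src f ∧ src e ≠ tgt f ∧ tgt e ≠ src f ∧ tgt e ≠ tgt f
  twice : ∀ e f, e ≠ f → ∀ d₁ ∈ (P.route e).tail, ∀ d₁' ∈ (P.route f).tail,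
    ∀ d₂ ∈ (P.route e).tail, ∀ d₂' ∈ (P.route f).tail,
    P.pt d₁ = P.pt d₁' → P.pt d₂ = P.pt d₂' → P.pt d₁ = P.pt d₂

end PreDrawing

end Helper5.CR
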