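import Pool.Agent.Helper5.CR.M2

open Equiv Equiv.Perm

namespace Helper5.CR

section M3
set_option linter.unusedSectionVars false
variable {D : Type} [Fintype D] [DecidableEq D]

theorem eq_of_sameCycle_fixed {π : Perm D} {a b : D} (hb : π b = b) (h : π.SameCycle a b) :
    a = b := by
  obtain ⟨n, hn⟩ := h.symm.exists_nat_pow_eq
  have : ∀ m : ℕ, (π ^ m) b = b := by
    intro m
    induction m with
    | zero => simp
    | succ m ih => rw [pow_succ', Perm.mul_apply, ih, hb]
  rw [this] at hn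
  exact hn.symm

theorem exists_clean_perm {σ α : Perm D} (hp : Planar σ α) (U : D → Prop) :
    ∃ σ' : Perm D, Planar σ' α ∧ (∀ d, ¬ U d → σ' d = d) ∧
      ∀ d d', U d → U d' → (σ'.SameCycle d d' ↔ σ.SameCycle d d') := by
  classical
  induction hn : (Finset.univ.filter (fun d => ¬ U d ∧ σ d ≠ d)).card
    using Nat.strong_induction_on generalizing σ with
  | _ n ih =>
  by_cases h0 : ∀ d, ¬ U d → σ d = d
  · exact ⟨σ, hp, h0, fun _ _ _ _ => Iff.rfl⟩
  · push Not at h0
    obtain ⟨d, hd, hne⟩ := h0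
    have hne' : d ≠ σ⁻¹ d := fun he => hne (by conv_lhs => rw [he]; simp)
    have hs : σ.SameCycle d (σ⁻¹ d) := ⟨-1, by simp⟩
    have hp1 := hp.split hne' hs
    have hns := not_sameCycle_mul_swap hne' hs
    set σ1 := σ * swap d (σ⁻¹ d) with hσ1
    have hfix : σ1 d = d := by simp [hσ1]
    have hother : ∀ e, e ≠ d → e ≠ σ⁻¹ d → σ1 e = σ e := by
      intro e h1 h2
      rw [hσ1, Perm.mul_apply, swap_apply_of_ne_of_ne h1 h2]
    have hback : σ = σ1 * swap d (σ⁻¹ d) := by
      rw [hσ1, mul_assoc, swap_mul_self, mul_one]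
    have hsame : ∀ a b, a ≠ d → b ≠ d → (σ1.SameCycle a b ↔ σ.SameCycle a b) := by
      intro a b ha hb
      have := sameCycle_mul_swap hns a b
      rw [← hback] at this
      rw [this]
      constructor
      · exact Or.inl
      · rintro (h | ⟨h, _⟩ | ⟨_, h⟩)
        · exact h
        · exact absurd (eq_of_sameCycle_fixed hfix h) ha
        · exact absurd (eq_of_sameCycle_fixed hfix h) hb
    have hlt : (Finset.univ.filter (fun e => ¬ U e ∧ σ1 e ≠ e)).card < n := by
      rw [← hn]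
      apply Finset.card_lt_card
      rw [Finset.ssubset_iff_of_subset]
      · refine ⟨d, by simp [hd, hne], by simp [hfix]⟩
      · intro e he
        simp only [Finset.mem_filter, Finset.mem_univ, true_and] at he ⊢
        refine ⟨he.1, ?_⟩
        by_cases h1 : e = d
        · rw [h1]; exact hne
        · by_cases h2 : e = σ⁻¹ d
          · rw [h2]; simpa using hne'
          · rw [← hother e h1 h2]; exact he.2
    obtain ⟨σ', h1, h2, h3⟩ := ih _ hlt hp1 rfl
    refine ⟨σ', h1, h2, fun a b ha hb => ?_⟩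
    rw [h3 a b ha hb]
    exact hsame a b (fun he => hd (he ▸ ha)) (fun he => hd (he ▸ hb))

theorem exists_merge_walk {X : Type} {σ α : Perm D} (hp : Planar σ α) (hα : ∀ d, α (α d) = d)
    (pt : D → X) (hpt : ∀ d d', pt d = pt d' ↔ σ.SameCycle d d') (l : List D) (x y : X)
    (hl : IsWalk pt α x y l) :
    ∃ σ' : Perm D, Planar σ' α ∧ ∀ d d', σ'.SameCycle d d' ↔ (pt d = pt d' ∨
      ((∃ c ∈ l, pt d = pt c ∨ pt d = pt (α c)) ∧ (∃ c ∈ l, pt d' = pt c ∨ pt d' = pt (α c)))) := by
  classical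
  induction l generalizing x with
  | nil =>
    refine ⟨σ, hp, fun d d' => ?_⟩
    rw [← hpt]; simp
  | cons d l ih =>
    obtain ⟨hd, hw⟩ := hl
    obtain ⟨σ1, hp1, h1⟩ := ih _ hw
    have hA : ∀ a, σ1.SameCycle a (α d) ↔
        (pt a = pt (α d) ∨ ∃ c ∈ l, pt a = pt c ∨ pt a = pt (α c)) := by
      intro a
      rw [h1]
      cases l with
      | nil => simp
      | cons c l' =>
        have : ∃ c' ∈ c :: l', pt (α d) = pt c' ∨ pt (α d) = pt (α c') :=
          ⟨c, by simp, Or.inl hw.1.symm⟩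
        simp only [this, and_true]
    have hB : ∀ a, σ1.SameCycle a d → (pt a = pt d ∨ ∃ c ∈ l, pt a = pt c ∨ pt a = pt (α c)) := by
      intro a ha
      rcases (h1 a d).1 ha with h | h
      · exact Or.inl h
      · exact Or.inr h.1
    have hB' : ∀ a, pt a = pt d → σ1.SameCycle a d := fun a ha => (h1 a d).2 (Or.inl ha)
    have hS : ∀ a, (∃ c ∈ d :: l, pt a = pt c ∨ pt a = pt (α c)) ↔
        (σ1.SameCycle a d ∨ σ1.SameCycle a (α d)) := by
      intro a
      simp only [List.mem_cons, exists_eq_or_imp]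
      constructor
      · rintro ((h | h) | h)
        · exact Or.inl (hB' a h)
        · exact Or.inr ((hA a).2 (Or.inl h))
        · exact Or.inr ((hA a).2 (Or.inr h))
      · rintro (h | h)
        · rcases hB a h with h | h
          · exact Or.inl (Or.inl h)
          · exact Or.inr h
        · rcases (hA a).1 h with h | h
          · exact Or.inl (Or.inr h)
          · exact Or.inr h
    have hpt1 : ∀ a b, pt a = pt b → σ1.SameCycle a b := fun a b h => (h1 a b).2 (Or.inl h)
    have h1' : ∀ a b, σ1.SameCycle a b → pt a = pt b ∨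
        ((σ1.SameCycle a d ∨ σ1.SameCycle a (α d)) ∧
          (σ1.SameCycle b d ∨ σ1.SameCycle b (α d))) := by
      intro a b h
      rcases (h1 a b).1 h with h | ⟨h, h'⟩
      · exact Or.inl h
      · exact Or.inr ⟨Or.inr ((hA a).2 (Or.inr h)), Or.inr ((hA b).2 (Or.inr h'))⟩
    by_cases hc : σ1.SameCycle d (α d)
    · refine ⟨σ1, hp1, fun a b => ?_⟩
      rw [hS, hS]
      constructor
      · exact h1' a b
      · rintro (h | ⟨h, h'⟩)
        · exact hpt1 a b h
        · have e1 : σ1.SameCycle a d := by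
            rcases h with h | h
            · exact h
            · exact h.trans hc.symm
          have e2 : σ1.SameCycle b d := by
            rcases h' with h | h
            · exact h
            · exact h.trans hc.symm
          exact e1.trans e2.symm
    · refine ⟨σ1 * swap (σ1⁻¹ d) (α d), hp1.contract hα hc, fun a b => ?_⟩
      have hc' : ¬ σ1.SameCycle (σ1⁻¹ d) (α d) := by
        intro h
        exact hc (SameCycle.trans (SameCycle.symm ⟨1, by simp⟩) h)
      have hd1 : ∀ a, σ1.SameCycle a (σ1⁻¹ d) ↔ σ1.SameCycle a d := by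
        intro a
        constructor
        · intro h; exact h.trans ⟨1, by simp⟩
        · intro h; exact h.trans ⟨-1, by simp⟩
      rw [sameCycle_mul_swap hc', hS, hS, hd1, hd1]
      constructor
      · rintro (h | h | h)
        · exact h1' a b h
        · exact Or.inr ⟨Or.inl h.1, Or.inr h.2⟩
        · exact Or.inr ⟨Or.inr h.1, Or.inl h.2⟩
      · rintro (h | ⟨h | h, h' | h'⟩)
        · exact Or.inl (hpt1 a b h)
        · exact Or.inl (h.trans h'.symm)
        · exact Or.inr (Or.inl ⟨h, h'⟩)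
        · exact Or.inr (Or.inr ⟨h, h'⟩)
        · exact Or.inl (h.trans h'.symm)

theorem planar_one : Planar (1 : Perm D) 1 := by
  unfold Planar
  have h2 : comp (1 : Perm D) 1 = SameCycle.setoid 1 := by
    unfold comp
    exact sup_idem _
  have h3 : ncomp (1 : Perm D) 1 = nc (1 : Perm D) := by unfold ncomp nc; rw [h2]
  rw [mul_one, h3, nc_one]; ring

/-- relation: both in the set `S` or both outside -/
def splitSetoid (S : D → Prop) : Setoid D where
  r a b := S a ↔ S b
  iseqv := ⟨fun _ => Iff.rfl, fun h => h.symm, fun h h' => h.trans h'⟩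

theorem comp_le_splitSetoid {σ α : Perm D} (S : D → Prop) (h1 : ∀ d, S d ↔ S (σ d))
    (h2 : ∀ d, S d ↔ S (α d)) {a b : D} (h : comp σ α a b) : S a ↔ S b := by
  have : comp σ α ≤ splitSetoid S := by
    unfold comp
    refine sup_le ?_ ?_
    · intro a b hab
      exact sameCycle_of_forall (splitSetoid S) h1 hab
    · intro a b hab
      exact sameCycle_of_forall (splitSetoid S) h2 hab
  exact this h

/-- Subdivision of the segment `{p, α p}` by two isolated darts `u` (towards `α p`),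
`v` (towards `p`). -/
theorem planar_subdiv {σ α : Perm D} (hp : Planar σ α) {p u v : D} (hpα : α p ≠ p)
    (hpα2 : α (α p) = p) (huv : u ≠ v) (hu : σ u = u) (hv : σ v = v) (hu' : α u = u)
    (hv' : α v = v) (hpu : p ≠ u) (hpv : p ≠ v) (hαu : α p ≠ u) (hαv : α p ≠ v) :
    ∃ α' : Perm D, Planar (σ * swap u v) α' ∧ α' p = v ∧ α' v = p ∧ α' (α p) = u ∧ α' u = α p ∧
      ∀ d, d ≠ p → d ≠ α p → d ≠ u → d ≠ v → α' d = α d := by
  have c1 : ¬ comp σ α u v := by
    intro h
    have := comp_le_splitSetoid (fun d => d = u) (fun d => by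
      constructor
      · rintro rfl; exact hu
      · intro h; exact σ.injective (h.trans hu.symm)) (fun d => by
      constructor
      · rintro rfl; exact hu'
      · intro h; exact α.injective (h.trans hu'.symm)) h
    exact huv (this.1 rfl).symm
  have s1 := hp.merge_comp c1
  set σ1 := σ * swap u v with hσ1
  have e1 : σ1 u = v := by simp [hσ1, hv]
  have e2 : σ1 v = u := by simp [hσ1, hu]
  have c2 : ¬ comp α σ1 (α p) u := by
    intro h
    have := comp_le_splitSetoid (fun d => d = u ∨ d = v) (fun d => by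
      constructor
      · rintro (rfl | rfl)
        · exact Or.inl hu'
        · exact Or.inr hv'
      · rintro (h | h)
        · exact Or.inl (α.injective (h.trans hu'.symm))
        · exact Or.inr (α.injective (h.trans hv'.symm))) (fun d => by
      constructor
      · rintro (rfl | rfl)
        · exact Or.inr e1
        · exact Or.inl e2
      · rintro (h | h)
        · exact Or.inr (σ1.injective (h.trans e2.symm))
        · exact Or.inl (σ1.injective (h.trans e1.symm))) h
    rcases this.2 (Or.inl rfl) with h | h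
    · exact hαu h
    · exact hαv h
  have s2 := (s1.symm).merge_comp c2
  set α1 := α * swap (α p) u with hα1
  have f1 : α1 (α p) = u := by simp [hα1, hu']
  have f2 : α1 u = p := by simp [hα1, hpα2]
  have f3 : α1 v = v := by
    simp [hα1, swap_apply_of_ne_of_ne (Ne.symm hαv) (Ne.symm huv), hv']
  have f4 : α1 p = α p := by
    simp [hα1, swap_apply_of_ne_of_ne (Ne.symm hpα) hpu]
  have c3 : ¬ α1.SameCycle u v := fun h => huv (eq_of_sameCycle_fixed f3 h)
  have c3' : (α1 * σ1).SameCycle (σ1⁻¹ u) (σ1⁻¹ v) := by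
    have g1 : σ1⁻¹ u = v := by rw [Perm.inv_eq_iff_eq]; exact e2.symm
    have g2 : σ1⁻¹ v = u := by rw [Perm.inv_eq_iff_eq]; exact e1.symm
    rw [g1, g2]
    exact SameCycle.symm ⟨1, by simp [e1, f3]⟩
  have s3 := s2.merge_face c3 c3'
  set α2 := α1 * swap u v with hα2
  have g1 : α2 u = v := by simp [hα2, f3]
  have g2 : α2 v = p := by simp [hα2, f2]
  have g3 : α2 (α p) = u := by
    simp [hα2, swap_apply_of_ne_of_ne hαu hαv, f1]
  have g4 : α2 p = α p := by
    simp [hα2, swap_apply_of_ne_of_ne hpu hpv, f4]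
  have c4 : α2.SameCycle p u := ⟨2, by
    rw [show (2 : ℤ) = 1 + 1 from rfl, zpow_add, zpow_one, Perm.mul_apply, g4, g3]⟩
  have s4 := (s3.split hpu c4).symm
  set α3 := α2 * swap p u with hα3
  refine ⟨α3, s4, ?_, ?_, ?_, ?_, ?_⟩
  · simp [hα3, g1]
  · simp [hα3, swap_apply_of_ne_of_ne (Ne.symm hpv) (Ne.symm huv), g2]
  · simp [hα3, swap_apply_of_ne_of_ne hpα hαu, g3]
  · simp [hα3, g4]
  · intro d h1 h2 h3 h4
    simp [hα3, hα2, hα1, swap_apply_of_ne_of_ne h1 h3, swap_apply_of_ne_of_ne h3 h4,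
      swap_apply_of_ne_of_ne h2 h3]

/-- Two segments `{a, α a}` and `{c, α c}` leave a point next to each other (`σ a = c`); we insert a
crossing point `(inr 0, inr 1, inr 2, inr 3)` on them. -/
theorem exists_cross_perm {σ α : Perm D} (hp : Planar σ α) (hα : ∀ d, α (α d) = d)
    (hα' : ∀ d, α d ≠ d) (a c : D) (hac : σ a = c) (hne : a ≠ c) (h2 : α a ≠ c) :
    ∃ σ' α' : Perm (D ⊕ Fin 4), Planar σ' α' ∧ (∀ d, α' (α' d) = d) ∧ (∀ d, α' d ≠ d) ∧
      (∀ d, σ' (Sum.inl d) = Sum.inl (σ d)) ∧ (∀ i, σ' (Sum.inr i) = Sum.inr (i + 1)) ∧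
      α' (Sum.inl a) = Sum.inr 3 ∧ α' (Sum.inl c) = Sum.inr 2 ∧
      α' (Sum.inl (α a)) = Sum.inr 0 ∧ α' (Sum.inl (α c)) = Sum.inr 1 ∧
      ∀ d, d ≠ a → d ≠ c → d ≠ α a → d ≠ α c → α' (Sum.inl d) = Sum.inl (α d) := by
  classical
  have h0 : Planar (Equiv.sumCongr σ (1 : Perm (Fin 4)) : Perm (D ⊕ Fin 4))
      (Equiv.sumCongr α (1 : Perm (Fin 4))) := hp.sum planar_one
  set σ0 : Perm (D ⊕ Fin 4) := Equiv.sumCongr σ (1 : Perm (Fin 4)) with hσ0
  set α0 : Perm (D ⊕ Fin 4) := Equiv.sumCongr α (1 : Perm (Fin 4)) with hα0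
  have s0l : ∀ d, σ0 (Sum.inl d) = Sum.inl (σ d) := fun d => rfl
  have s0r : ∀ i, σ0 (Sum.inr i) = Sum.inr i := fun d => rfl
  have a0l : ∀ d, α0 (Sum.inl d) = Sum.inl (α d) := fun d => rfl
  have a0r : ∀ i, α0 (Sum.inr i) = Sum.inr i := fun d => rfl
  have hca : α c ≠ a := fun h => h2 (by rw [← h, hα])
  have hcc : α c ≠ α a := fun h => hne (α.injective h).symm
  obtain ⟨α1, p1, k1, k2, k3, k4, k5⟩ := planar_subdiv h0 (p := Sum.inl a) (u := Sum.inr 0)
    (v := Sum.inr 3) (by rw [a0l]; simpa using hα' a) (by rw [a0l, a0l, hα]) (by simp)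
    (s0r 0) (s0r 3) (a0r 0) (a0r 3) (by simp) (by simp) (by simp [a0l]) (by simp [a0l])
  rw [a0l] at k3 k4
  have k5l : ∀ d, d ≠ a → d ≠ α a → α1 (Sum.inl d) = Sum.inl (α d) := by
    intro d e1 e2
    rw [k5 _ (by simpa using e1) (by rw [a0l]; simpa using e2) (by simp) (by simp), a0l]
  have k5r : ∀ i : Fin 4, i ≠ 0 → i ≠ 3 → α1 (Sum.inr i) = Sum.inr i := by
    intro i e1 e2
    rw [k5 _ (by simp) (by simp [a0l]) (by simpa using e1) (by simpa using e2), a0r]
  set σ1 := σ0 * swap (Sum.inr 0) (Sum.inr 3) with hσ1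
  have s1l : ∀ d, σ1 (Sum.inl d) = Sum.inl (σ d) := by
    intro d
    rw [hσ1, Perm.mul_apply, swap_apply_of_ne_of_ne (by simp) (by simp), s0l]
  have s10 : σ1 (Sum.inr 0) = Sum.inr 3 := by simp [hσ1, s0r]
  have s13 : σ1 (Sum.inr 3) = Sum.inr 0 := by simp [hσ1, s0r]
  have s11 : σ1 (Sum.inr 1) = Sum.inr 1 := by
    rw [hσ1, Perm.mul_apply, swap_apply_of_ne_of_ne (by simp) (by simp), s0r]
  have s12 : σ1 (Sum.inr 2) = Sum.inr 2 := by
    rw [hσ1, Perm.mul_apply, swap_apply_of_ne_of_ne (by simp) (by simp), s0r]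
  have kc : α1 (Sum.inl c) = Sum.inl (α c) := k5l c (Ne.symm hne) (Ne.symm h2)
  have kc' : α1 (Sum.inl (α c)) = Sum.inl c := by rw [k5l _ hca hcc, hα]
  obtain ⟨α2, p2, m1, m2, m3, m4, m5⟩ := planar_subdiv p1 (p := Sum.inl c) (u := Sum.inr 1)
    (v := Sum.inr 2) (by rw [kc]; simpa using hα' c) (by rw [kc, kc']) (by simp)
    s11 s12 (k5r 1 (by simp) (by decide)) (k5r 2 (by decide) (by decide)) (by simp) (by simp)
    (by simp [kc]) (by simp [kc])
  rw [kc] at m3 m4
  set σ2 := σ1 * swap (Sum.inr 1) (Sum.inr 2) with hσ2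
  have s2l : ∀ d, σ2 (Sum.inl d) = Sum.inl (σ d) := by
    intro d
    rw [hσ2, Perm.mul_apply, swap_apply_of_ne_of_ne (by simp) (by simp), s1l]
  have s20 : σ2 (Sum.inr 0) = Sum.inr 3 := by
    rw [hσ2, Perm.mul_apply, swap_apply_of_ne_of_ne (by simp) (by simp), s10]
  have s23 : σ2 (Sum.inr 3) = Sum.inr 0 := by
    rw [hσ2, Perm.mul_apply, swap_apply_of_ne_of_ne (by simp) (by simp), s13]
  have s21 : σ2 (Sum.inr 1) = Sum.inr 2 := by simp [hσ2, s12]
  have s22 : σ2 (Sum.inr 2) = Sum.inr 1 := by simp [hσ2, s11]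
  have v1 : α2 (Sum.inl a) = Sum.inr 3 := by
    rw [m5 _ (by simpa using hne) (by rw [kc]; simpa using Ne.symm hca) (by simp) (by simp), k1]
  have v2 : α2 (Sum.inl (α a)) = Sum.inr 0 := by
    rw [m5 _ (by simpa using h2) (by rw [kc]; simpa using Ne.symm hcc) (by simp) (by simp), k3]
  have v3 : α2 (Sum.inr 3) = Sum.inl a := by
    rw [m5 _ (by simp) (by rw [kc]; simp) (by simp) (by simp), k2]
  have v0 : α2 (Sum.inr 0) = Sum.inl (α a) := by
    rw [m5 _ (by simp) (by rw [kc]; simp) (by simp) (by simp), k4]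
  have vl : ∀ d, d ≠ a → d ≠ c → d ≠ α a → d ≠ α c → α2 (Sum.inl d) = Sum.inl (α d) := by
    intro d e1 e2 e3 e4
    rw [m5 _ (by simpa using e2) (by rw [kc]; simpa using e4) (by simp) (by simp), k5l d e1 e3]
  have hn : ¬ σ2.SameCycle (Sum.inr 0) (Sum.inr 2) := by
    intro h
    have := sameCycle_of_forall (splitSetoid (fun d : D ⊕ Fin 4 => d = Sum.inr 0 ∨ d = Sum.inr 3))
      (fun d => by
        show (_ ↔ _)
        constructor
        · rintro (rfl | rfl)
          · exact Or.inr s20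
          · exact Or.inl s23
        · rintro (h | h)
          · exact Or.inr (σ2.injective (h.trans s23.symm))
          · exact Or.inl (σ2.injective (h.trans s20.symm))) h
    have h' := this.1 (Or.inl rfl)
    simp at h'
  have hf : (σ2 * α2).SameCycle (α2⁻¹ (Sum.inr 0)) (α2⁻¹ (Sum.inr 2)) := by
    have g1 : α2⁻¹ (Sum.inr 0) = Sum.inl (α a) := by rw [Perm.inv_eq_iff_eq]; exact v2.symm
    have g2 : α2⁻¹ (Sum.inr 2) = Sum.inl c := by rw [Perm.inv_eq_iff_eq]; exact m1.symm
    rw [g1, g2]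
    have w1 : (σ2 * α2) (Sum.inl (α a)) = Sum.inr 3 := by rw [Perm.mul_apply, v2, s20]
    have w2 : (σ2 * α2) (Sum.inr 3) = Sum.inl c := by rw [Perm.mul_apply, v3, s2l, hac]
    refine ⟨2, ?_⟩
    rw [show (2 : ℤ) = 1 + 1 from rfl, zpow_add, zpow_one, Perm.mul_apply, w1, w2]
  have p3 := p2.merge_face hn hf
  have t0 : (σ2 * swap (Sum.inr 0) (Sum.inr 2) : Perm (D ⊕ Fin 4)) (Sum.inr 0) = Sum.inr 1 := by
    simp [s22]
  have t2 : (σ2 * swap (Sum.inr 0) (Sum.inr 2) : Perm (D ⊕ Fin 4)) (Sum.inr 2) = Sum.inr 3 := by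
    simp [s20]
  have t1 : (σ2 * swap (Sum.inr 0) (Sum.inr 2) : Perm (D ⊕ Fin 4)) (Sum.inr 1) = Sum.inr 2 := by
    rw [Perm.mul_apply, swap_apply_of_ne_of_ne (by simp) (by simp), s21]
  have t3 : (σ2 * swap (Sum.inr 0) (Sum.inr 2) : Perm (D ⊕ Fin 4)) (Sum.inr 3) = Sum.inr 0 := by
    rw [Perm.mul_apply, swap_apply_of_ne_of_ne (by simp) (by simp), s23]
  have hinvol : ∀ d, α2 (α2 d) = d := by
    rintro (d | i)
    · by_cases e1 : d = a
      · rw [e1, v1, v3]
      · by_cases e2 : d = c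
        · rw [e2, m1, m2]
        · by_cases e3 : d = α a
          · rw [e3, v2, v0]
          · by_cases e4 : d = α c
            · rw [e4, m3, m4]
            · rw [vl d e1 e2 e3 e4, vl (α d) _ _ _ _, hα]
              · intro h; exact e3 (by rw [← h, hα])
              · intro h; exact e4 (by rw [← h, hα])
              · intro h; exact e1 (α.injective h)
              · intro h; exact e2 (α.injective h)
    · fin_cases i
      · show α2 (α2 (Sum.inr 0)) = Sum.inr 0
        rw [v0, v2]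
      · show α2 (α2 (Sum.inr 1)) = Sum.inr 1
        rw [m4, m3]
      · show α2 (α2 (Sum.inr 2)) = Sum.inr 2
        rw [m2, m1]
      · show α2 (α2 (Sum.inr 3)) = Sum.inr 3
        rw [v3, v1]
  have hnofix : ∀ d, α2 d ≠ d := by
    rintro (d | i)
    · by_cases e1 : d = a
      · rw [e1, v1]; simp
      · by_cases e2 : d = c
        · rw [e2, m1]; simp
        · by_cases e3 : d = α a
          · rw [e3, v2]; simp
          · by_cases e4 : d = α c
            · rw [e4, m3]; simp
            · rw [vl d e1 e2 e3 e4]; simpa using hα' d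
    · fin_cases i
      · show α2 (Sum.inr 0) ≠ Sum.inr 0
        rw [v0]; simp
      · show α2 (Sum.inr 1) ≠ Sum.inr 1
        rw [m4]; simp
      · show α2 (Sum.inr 2) ≠ Sum.inr 2
        rw [m2]; simp
      · show α2 (Sum.inr 3) ≠ Sum.inr 3
        rw [v3]; simp
  refine ⟨σ2 * swap (Sum.inr 0) (Sum.inr 2), α2, p3, hinvol, hnofix, ?_, ?_, v1, m1, v2, m3, vl⟩
  · intro d
    rw [Perm.mul_apply, swap_apply_of_ne_of_ne (by simp) (by simp), s2l]
  · intro i
    fin_cases i
    · exact t0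
    · exact t1
    · exact t2
    · exact t3

end M3
end Helper5.CR
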